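import Mathlib

set_option autoImplicit false

namespace Pool.Agent.H929R2

open Polynomial Finset

section Functional

/-- The linear functional attached to a polynomial `ψ` of degree at most `N`. -/
noncomputable def Lam (N : ℕ) (ψ : ℚ[X]) (f : ℚ[X]) : ℚ :=
  ∑ k ∈ range (N + 1), ψ.coeff (N - k) / (N.choose k : ℚ) * f.coeff k

lemma Lam_add (N : ℕ) (ψ f g : ℚ[X]) : Lam N ψ (f + g) = Lam N ψ f + Lam N ψ g := by
  simp only [Lam, coeff_add, mul_add, sum_add_distrib]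

lemma Lam_C_mul (N : ℕ) (ψ f : ℚ[X]) (c : ℚ) : Lam N ψ (C c * f) = c * Lam N ψ f := by
  simp only [Lam, coeff_C_mul, mul_sum]
  exact sum_congr rfl fun k _ => by ring

lemma Lam_sum {ι : Type*} (s : Finset ι) (N : ℕ) (ψ : ℚ[X]) (f : ι → ℚ[X]) :
    Lam N ψ (∑ i ∈ s, f i) = ∑ i ∈ s, Lam N ψ (f i) := by
  simp only [Lam, finsetSum_coeff, mul_sum]
  exact sum_comm

lemma Lam_zero (N : ℕ) (ψ : ℚ[X]) : Lam N ψ 0 = 0 := by simp [Lam]

lemma Lam_pow (N : ℕ) (ψ : ℚ[X]) (hψ : ψ.natDegree ≤ N) (a : ℚ) :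
    Lam N ψ ((X + C a) ^ N) = ψ.eval a := by
  rw [Lam, eval_eq_sum_range' (Nat.lt_succ_of_le hψ), ← sum_range_reflect]
  refine sum_congr rfl fun k hk => ?_
  have hk' : k ≤ N := Nat.lt_succ_iff.mp (mem_range.mp hk)
  have h1 : N + 1 - 1 - k = N - k := by omega
  have h2 : N - (N - k) = k := by omega
  rw [coeff_X_add_C_pow, h1, h2]
  have : ((N.choose (N - k) : ℕ) : ℚ) ≠ 0 := by
    exact_mod_cast (Nat.choose_pos (Nat.sub_le N k)).ne'
  field_simp

lemma Lam_pow_pred (N : ℕ) (ψ : ℚ[X]) (hψ : ψ.natDegree ≤ N + 1) (a : ℚ) :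
    ((N + 1 : ℕ) : ℚ) * Lam (N + 1) ψ ((X + C a) ^ N) = (derivative ψ).eval a := by
  have hd : (derivative ψ).natDegree < N + 1 := by
    refine lt_of_le_of_lt (natDegree_derivative_le ψ) ?_
    omega
  rw [Lam, eval_eq_sum_range' hd, mul_sum, sum_range_succ, ← sum_range_reflect]
  have hz : ((N + 1 : ℕ) : ℚ) * (ψ.coeff (N + 1 - (N + 1)) / ((N + 1).choose (N + 1) : ℚ) *
      ((X + C a) ^ N).coeff (N + 1)) = 0 := by
    rw [coeff_X_add_C_pow, Nat.choose_succ_self]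
    simp
  rw [hz, add_zero]
  refine sum_congr rfl fun k hk => ?_
  have hk' : k ≤ N := Nat.lt_succ_iff.mp (mem_range.mp hk)
  have h1 : N + 1 - 1 - k = N - k := by omega
  have h2 : N - (N - k) = k := by omega
  have h3 : N + 1 - (N - k) = k + 1 := by omega
  rw [coeff_X_add_C_pow, h1, h2, h3, coeff_derivative]
  have hc : (((N + 1).choose (N - k) : ℕ) : ℚ) ≠ 0 := by
    exact_mod_cast (Nat.choose_pos (by omega)).ne'
  have hid : ((N + 1 : ℕ) : ℚ) * ((N.choose (N - k) : ℕ) : ℚ)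
      = ((k : ℚ) + 1) * (((N + 1).choose (N - k) : ℕ) : ℚ) := by
    have := Nat.add_one_mul_choose_eq N k
    have e1 : N.choose (N - k) = N.choose k := Nat.choose_symm hk'
    have e2 : (N + 1).choose (N - k) = (N + 1).choose (k + 1) := by
      have := Nat.choose_symm (show k + 1 ≤ N + 1 by omega)
      rw [← this]; congr 1; omega
    rw [e1, e2]
    have h := congrArg (Nat.cast : ℕ → ℚ) this
    push_cast at h ⊢
    linarith
  field_simp
  push_cast at hid ⊢
  linear_combination (ψ.coeff (k+1) * a ^ k) * hid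

end Functional

end Pool.Agent.H929R2
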