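import Mathlib
import Pool.Agent.H929R2.Special

set_option autoImplicit false
set_option maxHeartbeats 400000

namespace Pool.Agent.H929R2

open Polynomial Finset

section Defs

variable {R : Type*} [CommRing R]

/-- The coordinate functions along a line: for `j ≤ e` they move, afterwards they are constant. -/
noncomputable def ell (e : ℕ) (q : ℕ → R) (j : ℕ) : R[X] := if j ≤ e then X + C (q j) else 1

/-- The monomials of the chain polynomial along a line. -/
noncomputable def vv (e : ℕ) (q : ℕ → R) (j : ℕ) : R[X] := ell e q j ^ e * ell e q (j + 1)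

/-- Coefficients of the polynomials `vv`, except the constant ones. -/
noncomputable def WW (e : ℕ) (q : ℕ → R) : Matrix (Fin (e + 1)) (Fin (e + 1)) R :=
  Matrix.of fun k j => (vv e q j).coeff (k + 1)

/-- The solution of the linear system. -/
noncomputable def MM (e : ℕ) (q : ℕ → R) (j : ℕ) : R :=
  if h : j < e + 1 then (WW e q).adjugate ⟨j, h⟩ 0 else 0

/-- The derivatives of the chain polynomial along a line. -/
noncomputable def RR (e : ℕ) (q : ℕ → R) (M : ℕ → R) (j : ℕ) : R[X] :=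
  C ((e : R) * M j) * (ell e q j ^ (e - 1) * ell e q (j + 1)) +
    (if j = 0 then 0 else C (M (j - 1)) * ell e q (j - 1) ^ e)

/-- The matrix of coefficients of the polynomials `RR`. -/
noncomputable def RM (e : ℕ) (q : ℕ → R) (M : ℕ → R) : Matrix (Fin (e + 1)) (Fin (e + 1)) R :=
  Matrix.of fun k j => (RR e q M j).coeff k

end Defs

section Roots

/-- The product of the `X - l`, `l ∈ s`. -/
noncomputable def QQ (s : Finset ℕ) : ℚ[X] := ∏ l ∈ s, (X - C (l : ℚ))

lemma QQ_monic (s : Finset ℕ) : (QQ s).Monic := monic_prod_of_monic _ _ fun _ _ => monic_X_sub_C _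

lemma QQ_natDegree (s : Finset ℕ) : (QQ s).natDegree = s.card := by
  rw [QQ, natDegree_prod_of_monic _ _ fun _ _ => monic_X_sub_C _]
  simp only [natDegree_X_sub_C]
  simp

lemma QQ_insert {s : Finset ℕ} {l : ℕ} (h : l ∉ s) : QQ (insert l s) = (X - C (l : ℚ)) * QQ s := by
  rw [QQ, prod_insert h, QQ]

lemma QQ_eval_pos (s : Finset ℕ) (x : ℚ) (hx : ∀ l ∈ s, (l : ℚ) < x) : 0 < (QQ s).eval x := by
  rw [QQ, eval_prod]
  refine prod_pos fun l hl => ?_
  simp only [eval_sub, eval_X, eval_C]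
  linarith [hx l hl]

lemma QQ_deriv_nonneg (s : Finset ℕ) (x : ℚ) (hx : ∀ l ∈ s, (l : ℚ) < x) :
    0 ≤ (derivative (QQ s)).eval x := by
  induction s using Finset.induction_on with
  | empty => simp [QQ]
  | insert l s hl ih =>
    rw [QQ_insert hl]
    simp only [derivative_mul, derivative_sub, derivative_X, derivative_C, sub_zero, one_mul,
      eval_add, eval_mul, eval_sub, eval_X, eval_C]
    have h1 := QQ_eval_pos s x fun l hl => hx l (mem_insert_of_mem hl)
    have h2 := ih fun l hl => hx l (mem_insert_of_mem hl)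
    have h3 := hx l (mem_insert_self _ _)
    have := mul_nonneg (by linarith : 0 ≤ x - (l : ℚ)) h2
    linarith

lemma QQ_deriv_pos (s : Finset ℕ) (x : ℚ) (hx : ∀ l ∈ s, (l : ℚ) < x) (hs : s.Nonempty) :
    0 < (derivative (QQ s)).eval x := by
  obtain ⟨l, hl⟩ := hs
  rw [← insert_erase hl, QQ_insert (notMem_erase l s)]
  simp only [derivative_mul, derivative_sub, derivative_X, derivative_C, sub_zero, one_mul,
      eval_add, eval_mul, eval_sub, eval_X, eval_C]
  have h1 := QQ_eval_pos (s.erase l) x fun l hl => hx l (mem_of_mem_erase hl)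
  have h2 := QQ_deriv_nonneg (s.erase l) x fun l hl => hx l (mem_of_mem_erase hl)
  have h3 := hx l hl
  have := mul_nonneg (by linarith : 0 ≤ x - (l : ℚ)) h2
  linarith

lemma QQ_log (s : Finset ℕ) (i : ℕ) :
    -(s.card : ℚ) * (QQ s).eval (i : ℚ) ^ 2 ≤
      (QQ s).eval (i : ℚ) * (derivative (QQ s)).eval (i : ℚ) := by
  induction s using Finset.induction_on with
  | empty => simp [QQ]
  | insert l s hl ih =>
    rw [QQ_insert hl, card_insert_of_notMem hl]
    simp only [derivative_mul, derivative_sub, derivative_X, derivative_C, sub_zero, one_mul,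
      eval_add, eval_mul, eval_sub, eval_X, eval_C]
    push_cast
    set a := (QQ s).eval (i : ℚ)
    set b := (derivative (QQ s)).eval (i : ℚ)
    have h1 : 0 ≤ ((i : ℚ) - l) * ((i : ℚ) - l + 1) := by
      have h : (0 : ℤ) ≤ ((i : ℤ) - l) * ((i : ℤ) - l + 1) := by
        rcases lt_or_ge ((i : ℤ) - l) 0 with h | h
        · nlinarith
        · positivity
      exact_mod_cast h
    have h2 : 0 ≤ ((i : ℚ) - l) ^ 2 := sq_nonneg _
    nlinarith [mul_nonneg h1 (sq_nonneg a), mul_le_mul_of_nonneg_left ih h2]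

lemma QQ_ne_zero (s : Finset ℕ) (i : ℕ) (hi : i ∉ s) : (QQ s).eval (i : ℚ) ≠ 0 := by
  rw [QQ, eval_prod, prod_ne_zero_iff]
  intro l hl
  simp only [eval_sub, eval_X, eval_C]
  intro h
  have : (i : ℚ) = l := by linarith
  have : i = l := by exact_mod_cast this
  exact hi (this ▸ hl)

lemma sq_dvd_of_roots (ψ : ℚ[X]) (a : ℚ) (h0 : ψ.eval a = 0) (h1 : (derivative ψ).eval a = 0) :
    (X - C a) ^ 2 ∣ ψ := by
  obtain ⟨g, hg⟩ := dvd_iff_isRoot.mpr h0
  rw [hg] at h1
  simp only [derivative_mul, derivative_sub, derivative_X, derivative_C, sub_zero, one_mul,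
      eval_add, eval_mul, eval_sub, eval_X, eval_C, sub_self, zero_mul, add_zero] at h1
  obtain ⟨g', hg'⟩ := dvd_iff_isRoot.mpr h1
  exact ⟨g', by rw [hg, hg']; ring⟩

lemma roots_of_sq_dvd (ψ : ℚ[X]) (a : ℚ) (h : (X - C a) ^ 2 ∣ ψ) :
    ψ.eval a = 0 ∧ (derivative ψ).eval a = 0 := by
  obtain ⟨g, rfl⟩ := h
  constructor
  · simp
  · rw [derivative_mul, derivative_pow]
    simp

lemma QQ_sq_dvd (s : Finset ℕ) (ψ : ℚ[X])
    (h : ∀ i ∈ s, ψ.eval (i : ℚ) = 0 ∧ (derivative ψ).eval (i : ℚ) = 0) : QQ s ^ 2 ∣ ψ := by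
  rw [QQ, ← prod_pow]
  refine Finset.prod_dvd_of_coprime ?_ fun i hi => sq_dvd_of_roots ψ _ (h i hi).1 (h i hi).2
  intro i _ j _ hij
  refine IsCoprime.pow ?_
  refine isCoprime_X_sub_C_of_isUnit_sub ?_
  rw [isUnit_iff_ne_zero, sub_ne_zero]
  exact_mod_cast hij

lemma sq_dvd_QQ (s : Finset ℕ) (i : ℕ) (hi : i ∈ s) : (X - C (i : ℚ)) ^ 2 ∣ QQ s ^ 2 :=
  pow_dvd_pow_of_dvd (dvd_prod_of_mem (fun l : ℕ => X - C (l : ℚ)) hi) 2

end Roots

end Pool.Agent.H929R2
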