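import Mathlib
import Pool.Agent.H929R2.Special
import Pool.Agent.H929R2.Special2

set_option autoImplicit false
set_option maxHeartbeats 400000

namespace Pool.Agent.H929R2

open Polynomial Finset

/-- The special nodes `0, 0, 1, 1, 2, 2, …`. -/
def q0 (j : ℕ) : ℚ := ((j / 2 : ℕ) : ℚ)

/-- The functional of `vv e q0 j`, up to a factor. -/
noncomputable def Kf (e : ℕ) (a : ℚ) (ψ : ℚ[X]) (j : ℕ) : ℚ :=
  if j < e then a * ψ.eval (q0 j) + (q0 (j + 1) - q0 j) * (derivative ψ).eval (q0 j)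
  else (derivative ψ).eval (q0 j)

lemma q0_even (i : ℕ) : q0 (2 * i) = i := by
  simp [q0]

lemma q0_odd (i : ℕ) : q0 (2 * i + 1) = i := by
  unfold q0
  congr 1
  omega

lemma q0_odd_succ (i : ℕ) : q0 (2 * i + 1 + 1) = i + 1 := by
  have : 2 * i + 1 + 1 = 2 * (i + 1) := by ring
  rw [this, q0_even]; push_cast; ring

lemma Kf_even (e : ℕ) (a : ℚ) (ψ : ℚ[X]) (i : ℕ) (hi : 2 * i < e) :
    Kf e a ψ (2 * i) = a * ψ.eval (i : ℚ) := by
  rw [Kf, if_pos hi, q0_even, q0_odd]; ring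

lemma Kf_odd (e : ℕ) (a : ℚ) (ψ : ℚ[X]) (i : ℕ) (hi : 2 * i + 1 < e) :
    Kf e a ψ (2 * i + 1) = a * ψ.eval (i : ℚ) + (derivative ψ).eval (i : ℚ) := by
  rw [Kf, if_pos hi, q0_odd, q0_odd_succ]; ring

lemma Kf_last (e : ℕ) (a : ℚ) (ψ : ℚ[X]) : Kf e a ψ e = (derivative ψ).eval (q0 e) := by
  rw [Kf, if_neg (lt_irrefl e)]

/-- The key vanishing statement. -/
lemma eq_zero_of_Kf (e : ℕ) (he : 2 ≤ e) (a : ℚ) (ha : a ≠ 0) (ψ : ℚ[X]) (hψ : ψ.natDegree ≤ e)
    (h : ∀ j ≤ e, Kf e a ψ j = 0) : ψ = 0 := by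
  have hroots : ∀ i, 2 * i < e → ψ.eval (i : ℚ) = 0 ∧ (derivative ψ).eval (i : ℚ) = 0 := by
    intro i hi
    have h1 := h (2 * i) hi.le
    rw [Kf_even e a ψ i hi] at h1
    have h0 : ψ.eval (i : ℚ) = 0 := (mul_eq_zero.mp h1).resolve_left ha
    refine ⟨h0, ?_⟩
    have h2 := h (2 * i + 1) hi
    rcases Nat.lt_or_ge (2 * i + 1) e with hlt | hge
    · rw [Kf_odd e a ψ i hlt, h0, mul_zero, zero_add] at h2
      exact h2
    · have : e = 2 * i + 1 := by omega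
      subst this
      rw [Kf_last, q0_odd] at h2
      exact h2
  have hdvd : QQ (range ((e + 1) / 2)) ^ 2 ∣ ψ := by
    refine QQ_sq_dvd _ _ fun i hi => hroots i ?_
    rw [mem_range] at hi
    omega
  have hdeg : (QQ (range ((e + 1) / 2)) ^ 2).natDegree = 2 * ((e + 1) / 2) := by
    rw [natDegree_pow, QQ_natDegree, card_range]
  rcases Nat.even_or_odd' e with ⟨r, hr | hr⟩
  · -- `e = 2 r`
    obtain ⟨g, hg⟩ := hdvd
    by_contra hne
    have hg0 : g ≠ 0 := by rintro rfl; exact hne (by rw [hg, mul_zero])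
    have hQ0 : QQ (range ((e + 1) / 2)) ^ 2 ≠ 0 := pow_ne_zero _ (QQ_monic _).ne_zero
    have h1 : ψ.natDegree = 2 * ((e + 1) / 2) + g.natDegree := by
      rw [hg, natDegree_mul hQ0 hg0, hdeg]
    have h2 : g.natDegree = 0 := by omega
    obtain ⟨c, hc⟩ := natDegree_eq_zero.mp h2
    have h3 := h e le_rfl
    rw [Kf_last, hg, ← hc] at h3
    have hr' : (e + 1) / 2 = r := by omega
    have hq : q0 e = (r : ℚ) := by rw [hr, q0_even]
    rw [hr', hq] at h3
    have hpos : ∀ l ∈ range r, (l : ℚ) < r := by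
      intro l hl
      exact_mod_cast mem_range.mp hl
    have h4 := QQ_eval_pos (range r) r hpos
    have h5 := QQ_deriv_pos (range r) r hpos ⟨0, mem_range.mpr (by omega)⟩
    rw [derivative_mul, derivative_C, mul_zero, add_zero, derivative_pow] at h3
    simp only [eval_mul, eval_C, Nat.add_one_sub_one, pow_one, Nat.cast_ofNat] at h3
    have h6 : (2 : ℚ) * (QQ (range r)).eval (r : ℚ) * (derivative (QQ (range r))).eval (r : ℚ) ≠ 0 := by
      positivity
    have hc0 : c = 0 := (mul_eq_zero.mp h3).resolve_left h6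
    apply hg0
    rw [← hc, hc0, C_0]
  · -- `e = 2 r + 1`
    refine eq_zero_of_dvd_of_natDegree_lt hdvd ?_
    rw [hdeg]
    omega

lemma Lam_vv (e : ℕ) (ψ : ℚ[X]) (hψ : ψ.natDegree ≤ e + 1) (j : ℕ) (hj : j ≤ e) :
    ((e + 1 : ℕ) : ℚ) * Lam (e + 1) ψ (vv e q0 j) = Kf e ((e + 1 : ℕ) : ℚ) ψ j := by
  rcases Nat.lt_or_ge j e with hlt | hge
  · have : vv e q0 j = (X + C (q0 j)) ^ (e + 1) + C (q0 (j + 1) - q0 j) * (X + C (q0 j)) ^ e := by
      rw [vv, ell, ell, if_pos hj, if_pos (by omega : j + 1 ≤ e), C_sub]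
      ring
    rw [this, Lam_add, Lam_C_mul, Lam_pow _ _ hψ, Kf, if_pos hlt, ← Lam_pow_pred e ψ hψ]
    ring
  · have hje : j = e := le_antisymm hj hge
    subst hje
    have : vv j q0 j = (X + C (q0 j)) ^ j := by
      rw [vv, ell, ell, if_pos le_rfl, if_neg (by omega), mul_one]
    rw [this, Kf_last, Lam_pow_pred j ψ hψ]

/-- The values of the functional on the derivatives. -/
lemma Lam_RR (e : ℕ) (he : 1 ≤ e) (M : ℕ → ℚ) (χ : ℚ[X]) (hχ : χ.natDegree ≤ e) (j : ℕ)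
    (hj : j ≤ e) :
    Lam e χ (RR e q0 M j) = M j * Kf e (e : ℚ) χ j +
      (if j = 0 then 0 else M (j - 1) * χ.eval (q0 (j - 1))) := by
  obtain ⟨f, rfl⟩ : ∃ f, e = f + 1 := ⟨e - 1, by omega⟩
  rw [RR, Lam_add, Lam_C_mul]
  congr 1
  · have key : ((f + 1 : ℕ) : ℚ) * Lam (f + 1) χ (ell (f + 1) q0 j ^ (f + 1 - 1) * ell (f + 1) q0 (j + 1))
        = Kf (f + 1) ((f + 1 : ℕ) : ℚ) χ j := by
      rw [Nat.add_sub_cancel]
      rcases Nat.lt_or_ge j (f + 1) with hlt | hge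
      · have : ell (f + 1) q0 j ^ f * ell (f + 1) q0 (j + 1) =
            (X + C (q0 j)) ^ (f + 1) + C (q0 (j + 1) - q0 j) * (X + C (q0 j)) ^ f := by
          rw [ell, ell, if_pos hj, if_pos (by omega : j + 1 ≤ f + 1), C_sub]
          ring
        rw [this, Lam_add, Lam_C_mul, Lam_pow _ _ hχ, Kf, if_pos hlt, ← Lam_pow_pred f χ hχ]
        ring
      · have hje : j = f + 1 := le_antisymm hj hge
        subst hje
        have : ell (f + 1) q0 (f + 1) ^ f * ell (f + 1) q0 (f + 1 + 1) = (X + C (q0 (f + 1))) ^ f := by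
          rw [ell, ell, if_pos le_rfl, if_neg (by omega), mul_one]
        rw [this, Kf_last, Lam_pow_pred f χ hχ]
    linear_combination (M j) * key
  · split_ifs with h0
    · exact Lam_zero _ _
    · rw [Lam_C_mul, ell, if_pos (by omega : j - 1 ≤ f + 1), Lam_pow _ _ hχ]

end Pool.Agent.H929R2
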