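import Mathlib
import Pool.Agent.H929R2.Special
import Pool.Agent.H929R2.Special2
import Pool.Agent.H929R2.Special3

set_option autoImplicit false
set_option maxHeartbeats 400000

namespace Pool.Agent.H929R2

open Polynomial Finset

/-- The polynomial attached to a linear functional. -/
noncomputable def psi (N : ℕ) (y : ℕ → ℚ) : ℚ[X] :=
  ∑ m ∈ range (N + 1), C ((N.choose m : ℚ) * y m) * X ^ (N - m)

lemma psi_coeff (N : ℕ) (y : ℕ → ℚ) (m : ℕ) (hm : m ≤ N) :
    (psi N y).coeff (N - m) = (N.choose m : ℚ) * y m := by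
  rw [psi, finsetSum_coeff, sum_eq_single m]
  · rw [coeff_C_mul, coeff_X_pow, if_pos rfl, mul_one]
  · intro b hb hbm
    rw [coeff_C_mul, coeff_X_pow, if_neg, mul_zero]
    rw [mem_range] at hb
    omega
  · intro h
    exact absurd (mem_range.mpr (by omega)) h

lemma psi_natDegree (N : ℕ) (y : ℕ → ℚ) : (psi N y).natDegree ≤ N := by
  refine natDegree_sum_le_of_forall_le _ _ fun m hm => ?_
  refine (natDegree_C_mul_X_pow_le _ _).trans (Nat.sub_le _ _)

lemma psi_natDegree' (N : ℕ) (y : ℕ → ℚ) (h0 : y 0 = 0) : (psi (N + 1) y).natDegree ≤ N := by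
  refine natDegree_sum_le_of_forall_le _ _ fun m hm => ?_
  rcases Nat.eq_zero_or_pos m with rfl | hpos
  · rw [h0]; simp
  · refine (natDegree_C_mul_X_pow_le _ _).trans (by omega)

lemma Lam_psi (N : ℕ) (y : ℕ → ℚ) (f : ℚ[X]) :
    Lam N (psi N y) f = ∑ m ∈ range (N + 1), y m * f.coeff m := by
  rw [Lam]
  refine sum_congr rfl fun m hm => ?_
  have hm' : m ≤ N := Nat.lt_succ_iff.mp (mem_range.mp hm)
  rw [psi_coeff N y m hm']
  have : ((N.choose m : ℕ) : ℚ) ≠ 0 := by exact_mod_cast (Nat.choose_pos hm').ne'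
  field_simp

lemma eq_zero_of_psi (N : ℕ) (y : ℕ → ℚ) (h : psi N y = 0) (m : ℕ) (hm : m ≤ N) : y m = 0 := by
  have h1 := psi_coeff N y m hm
  rw [h, coeff_zero] at h1
  have : ((N.choose m : ℕ) : ℚ) ≠ 0 := by exact_mod_cast (Nat.choose_pos hm).ne'
  exact (mul_eq_zero.mp h1.symm).resolve_left this

/-- Nonvanishing of the determinant at the special nodes. -/
lemma det_WW_ne_zero (e : ℕ) (he : 2 ≤ e) : (WW e q0).det ≠ 0 := by
  intro hdet
  obtain ⟨y, hy, hyW⟩ := Matrix.exists_vecMul_eq_zero_iff.mpr hdet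
  set y' : ℕ → ℚ := fun m => if h : m - 1 < e + 1 then (if m = 0 then 0 else y ⟨m - 1, h⟩) else 0
    with hy'
  have hy0 : y' 0 = 0 := by simp [hy']
  have hys : ∀ k : Fin (e + 1), y' (k + 1) = y k := by
    intro k
    have hk := k.2
    simp only [hy']
    rw [dif_pos (by omega)]
    try simp
  have hKf : ∀ j ≤ e, Kf e ((e + 1 : ℕ) : ℚ) (psi (e + 1) y') j = 0 := by
    intro j hj
    rw [← Lam_vv e _ ((psi_natDegree' e y' hy0).trans (by omega)) j hj, Lam_psi,
      sum_range_succ', hy0, zero_mul, add_zero]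
    have h1 : ∑ k ∈ range (e + 1), y' (k + 1) * (vv e q0 j).coeff (k + 1) = 0 := by
      rw [← Fin.sum_univ_eq_sum_range (fun k => y' (k + 1) * (vv e q0 j).coeff (k + 1)) (e + 1)]
      have h2 := congrFun hyW ⟨j, Nat.lt_succ_of_le hj⟩
      simp only [Matrix.vecMul, dotProduct, WW, Matrix.of_apply, Pi.zero_apply] at h2
      rw [← h2]
      exact sum_congr rfl fun k _ => by rw [hys]
    rw [h1, mul_zero]
  have hzero := eq_zero_of_Kf e he ((e + 1 : ℕ) : ℚ) (by positivity) _ (psi_natDegree' e y' hy0) hKf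
  apply hy
  funext k
  rw [← hys k]
  exact eq_zero_of_psi _ _ hzero _ (by have := k.2; omega)

/-- Nonvanishing of the determinant of the derivatives at the special nodes. -/
lemma det_RM_ne_zero (e : ℕ) (he : 2 ≤ e) (M : ℕ → ℚ) (hM : ∀ j ≤ e, M j ≠ 0) :
    (RM e q0 M).det ≠ 0 := by
  intro hdet
  obtain ⟨y, hy, hyW⟩ := Matrix.exists_vecMul_eq_zero_iff.mpr hdet
  set y' : ℕ → ℚ := fun m => if h : m < e + 1 then y ⟨m, h⟩ else 0 with hy'
  have hys : ∀ k : Fin (e + 1), y' k = y k := by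
    intro k
    have hk := k.2
    simp only [hy']
    rw [dif_pos (by omega)]
    try simp
  have hL : ∀ j ≤ e, Lam e (psi e y') (RR e q0 M j) = 0 := by
    intro j hj
    rw [Lam_psi, ← Fin.sum_univ_eq_sum_range (fun k => y' k * (RR e q0 M j).coeff k) (e + 1)]
    have h2 := congrFun hyW ⟨j, Nat.lt_succ_of_le hj⟩
    simp only [Matrix.vecMul, dotProduct, RM, Matrix.of_apply, Pi.zero_apply] at h2
    rw [← h2]
    exact sum_congr rfl fun k _ => by rw [hys]
  have he0 : (e : ℚ) ≠ 0 := by positivity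
  have hKf : ∀ j ≤ e, Kf e (e : ℚ) (psi e y') j = 0 := by
    intro j
    induction j using Nat.strong_induction_on with
    | _ j ih =>
      intro hj
      have h1 := hL j hj
      rw [Lam_RR e (by omega) M _ (psi_natDegree e y') j hj] at h1
      have h2 : (if j = 0 then 0 else M (j - 1) * (psi e y').eval (q0 (j - 1))) = 0 := by
        split_ifs with h0
        · rfl
        · have h3 := ih (2 * ((j - 1) / 2)) (by omega) (by omega)
          rw [Kf_even _ _ _ _ (by omega)] at h3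
          have h4 := (mul_eq_zero.mp h3).resolve_left he0
          have h5 : q0 (j - 1) = (((j - 1) / 2 : ℕ) : ℚ) := rfl
          rw [h5, h4, mul_zero]
      rw [h2, add_zero] at h1
      exact (mul_eq_zero.mp h1).resolve_left (hM j hj)
  have hzero := eq_zero_of_Kf e he (e : ℚ) he0 _ (psi_natDegree e y') hKf
  apply hy
  funext k
  rw [← hys k]
  exact eq_zero_of_psi _ _ hzero _ (by have := k.2; omega)

/-- The main identity satisfied by the solution of the linear system. -/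
lemma master (e : ℕ) (ψ : ℚ[X]) (hψ : ψ.natDegree ≤ e) :
    ∑ j ∈ range (e + 1), MM e q0 j * Kf e ((e + 1 : ℕ) : ℚ) ψ j = (WW e q0).det * ψ.coeff e := by
  have hadj : ∀ k : Fin (e + 1), ∑ j : Fin (e + 1), (vv e q0 j).coeff (k + 1) * MM e q0 j =
      if k = 0 then (WW e q0).det else 0 := by
    intro k
    have h1 := congrFun (congrFun (Matrix.mul_adjugate (WW e q0)) k) 0
    rw [Matrix.mul_apply] at h1
    simp only [Matrix.smul_apply, smul_eq_mul, Matrix.one_apply, mul_ite, mul_one, mul_zero] at h1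
    rw [← h1]
    refine sum_congr rfl fun j _ => ?_
    rw [MM, dif_pos j.2]
    rfl
  have h1 : ∑ j ∈ range (e + 1), MM e q0 j * Kf e ((e + 1 : ℕ) : ℚ) ψ j =
      ∑ j : Fin (e + 1), MM e q0 j * (((e + 1 : ℕ) : ℚ) * Lam (e + 1) ψ (vv e q0 j)) := by
    rw [← Fin.sum_univ_eq_sum_range (fun j => MM e q0 j * Kf e ((e + 1 : ℕ) : ℚ) ψ j) (e + 1)]
    refine sum_congr rfl fun j _ => ?_
    rw [Lam_vv e ψ (by omega) j (Nat.lt_succ_iff.mp j.2)]
  have h2 : ∀ j : Fin (e + 1), Lam (e + 1) ψ (vv e q0 j) =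
      ∑ k : Fin (e + 1), ψ.coeff (e - k) / ((e + 1).choose (k + 1) : ℚ) * (vv e q0 j).coeff (k + 1) := by
    intro j
    rw [Lam, sum_range_succ', Fin.sum_univ_eq_sum_range
      (fun k => ψ.coeff (e - k) / ((e + 1).choose (k + 1) : ℚ) * (vv e q0 j).coeff (k + 1)) (e + 1)]
    rw [coeff_eq_zero_of_natDegree_lt (show ψ.natDegree < e + 1 - 0 by omega)]
    rw [zero_div, zero_mul, add_zero]
    refine sum_congr rfl fun k hk => ?_
    have : e + 1 - (k + 1) = e - k := by omega
    rw [this]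
  rw [h1]
  have h3 : ∑ j : Fin (e + 1), MM e q0 j * (((e + 1 : ℕ) : ℚ) * Lam (e + 1) ψ (vv e q0 j)) =
      ∑ k : Fin (e + 1), ((e + 1 : ℕ) : ℚ) * (ψ.coeff (e - k) / ((e + 1).choose (k + 1) : ℚ)) *
        ∑ j : Fin (e + 1), (vv e q0 j).coeff (k + 1) * MM e q0 j := by
    simp_rw [h2, mul_sum]
    rw [sum_comm]
    refine sum_congr rfl fun k _ => sum_congr rfl fun j _ => by ring
  rw [h3]
  simp_rw [hadj]
  simp only [mul_ite, mul_zero, sum_ite_eq', mem_univ, if_true, Fin.val_zero, Nat.sub_zero, zero_add,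
    Nat.choose_one_right]
  have : ((e + 1 : ℕ) : ℚ) ≠ 0 := by positivity
  field_simp

end Pool.Agent.H929R2
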