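import Mathlib
import Pool.Agent.H929R2.Special
import Pool.Agent.H929R2.Special2
import Pool.Agent.H929R2.Special3
import Pool.Agent.H929R2.Special4

set_option autoImplicit false
set_option maxHeartbeats 400000

namespace Pool.Agent.H929R2

open Polynomial Finset

lemma Kf_zero (e : ℕ) (a : ℚ) (ψ : ℚ[X]) (j : ℕ) (h0 : ψ.eval (q0 j) = 0)
    (h1 : (derivative ψ).eval (q0 j) = 0) : Kf e a ψ j = 0 := by
  rw [Kf, h0, h1]
  simp

/-- Values of `(X - i) Q ^ 2`. -/
lemma psi1_eval (Q : ℚ[X]) (i : ℚ) : ((X - C i) * Q ^ 2).eval i = 0 := by simp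

lemma psi1_deriv (Q : ℚ[X]) (i x : ℚ) : (derivative ((X - C i) * Q ^ 2)).eval x =
    Q.eval x ^ 2 + (x - i) * (2 * Q.eval x * (derivative Q).eval x) := by
  rw [derivative_mul, derivative_pow]
  simp

lemma psi0_deriv (Q : ℚ[X]) (x : ℚ) : (derivative (Q ^ 2)).eval x =
    2 * Q.eval x * (derivative Q).eval x := by
  rw [derivative_pow]
  simp

lemma QQ_dvd_eval {s : Finset ℕ} {l : ℕ} (hl : l ∈ s) (ψ : ℚ[X]) (h : QQ s ^ 2 ∣ ψ) :
    ψ.eval (l : ℚ) = 0 ∧ (derivative ψ).eval (l : ℚ) = 0 :=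
  roots_of_sq_dvd _ _ ((sq_dvd_QQ s l hl).trans h)

lemma sum_two (e r i : ℕ) (hr : e + 1 = 2 * r) (hi : i < r) (ψ : ℚ[X])
    (h : QQ ((range r).erase i) ^ 2 ∣ ψ) (M : ℕ → ℚ) (a : ℚ) :
    ∑ j ∈ range (e + 1), M j * Kf e a ψ j =
      M (2 * i) * Kf e a ψ (2 * i) + M (2 * i + 1) * Kf e a ψ (2 * i + 1) := by
  have hsub : ({2 * i, 2 * i + 1} : Finset ℕ) ⊆ range (e + 1) := by
    intro j hj
    simp only [mem_insert, mem_singleton] at hj
    rw [mem_range]
    omega
  rw [← sum_subset hsub, sum_pair (by omega)]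
  intro j hj hj'
  simp only [mem_insert, mem_singleton, not_or] at hj'
  rw [mem_range] at hj
  have hl : j / 2 ∈ (range r).erase i := by
    rw [mem_erase, mem_range]
    omega
  obtain ⟨h0, h1⟩ := QQ_dvd_eval hl ψ h
  rw [Kf_zero e a ψ j h0 h1, mul_zero]

lemma sum_three (e r i : ℕ) (hr : e = 2 * r) (hi : i < r) (ψ : ℚ[X])
    (h : QQ ((range r).erase i) ^ 2 ∣ ψ) (M : ℕ → ℚ) (a : ℚ) :
    ∑ j ∈ range (e + 1), M j * Kf e a ψ j =
      M (2 * i) * Kf e a ψ (2 * i) + M (2 * i + 1) * Kf e a ψ (2 * i + 1) + M e * Kf e a ψ e := by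
  rw [sum_range_succ]
  congr 1
  have hsub : ({2 * i, 2 * i + 1} : Finset ℕ) ⊆ range e := by
    intro j hj
    simp only [mem_insert, mem_singleton] at hj
    rw [mem_range]
    omega
  rw [← sum_subset hsub, sum_pair (by omega)]
  intro j hj hj'
  simp only [mem_insert, mem_singleton, not_or] at hj'
  rw [mem_range] at hj
  have hl : j / 2 ∈ (range r).erase i := by
    rw [mem_erase, mem_range]
    omega
  obtain ⟨h0, h1⟩ := QQ_dvd_eval hl ψ h
  rw [Kf_zero e a ψ j h0 h1, mul_zero]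

lemma sum_one (e r : ℕ) (hr : e = 2 * r) (ψ : ℚ[X])
    (h : QQ (range r) ^ 2 ∣ ψ) (M : ℕ → ℚ) (a : ℚ) :
    ∑ j ∈ range (e + 1), M j * Kf e a ψ j = M e * Kf e a ψ e := by
  rw [sum_range_succ, sum_eq_zero, zero_add]
  intro j hj
  rw [mem_range] at hj
  have hl : j / 2 ∈ range r := by
    rw [mem_range]
    omega
  obtain ⟨h0, h1⟩ := QQ_dvd_eval hl ψ h
  rw [Kf_zero e a ψ j h0 h1, mul_zero]

lemma card_erase_range (r i : ℕ) (hi : i < r) : ((range r).erase i).card = r - 1 := by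
  rw [card_erase_of_mem (mem_range.mpr hi), card_range]

lemma psi0_natDegree (r i : ℕ) (hi : i < r) :
    (QQ ((range r).erase i) ^ 2).natDegree = 2 * (r - 1) := by
  rw [natDegree_pow, QQ_natDegree, card_erase_range r i hi]

lemma psi1_monic (s : Finset ℕ) (i : ℚ) : ((X - C i) * QQ s ^ 2).Monic :=
  (monic_X_sub_C i).mul ((QQ_monic s).pow 2)

lemma psi1_natDegree (r i : ℕ) (hi : i < r) :
    ((X - C (i : ℚ)) * QQ ((range r).erase i) ^ 2).natDegree = 2 * (r - 1) + 1 := by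
  rw [(monic_X_sub_C (i : ℚ)).natDegree_mul ((QQ_monic _).pow 2), natDegree_X_sub_C,
    psi0_natDegree r i hi, add_comm]

lemma MM_ne_zero_odd (e r i : ℕ) (he : 2 ≤ e) (hr : e + 1 = 2 * r) (hi : i < r) :
    MM e q0 (2 * i) ≠ 0 ∧ MM e q0 (2 * i + 1) ≠ 0 := by
  have hA := det_WW_ne_zero e he
  set s := (range r).erase i with hs
  have hx : (QQ s).eval (i : ℚ) ≠ 0 := QQ_ne_zero s i (notMem_erase i _)
  have hx2 : 0 < (QQ s).eval (i : ℚ) ^ 2 := by positivity
  have hlog := QQ_log s i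
  have hcard : (s.card : ℚ) = (r : ℚ) - 1 := by
    rw [hs, card_erase_range r i hi]
    have : 1 ≤ r := by omega
    push_cast [this]
    ring
  rw [hcard] at hlog
  have hr' : ((e : ℚ) + 1) = 2 * r := by exact_mod_cast hr
  -- first relation
  have h1 := master e ((X - C (i : ℚ)) * QQ s ^ 2) (by rw [hs, psi1_natDegree r i hi]; omega)
  rw [sum_two e r i hr hi _ (dvd_mul_left _ _), Kf_even e _ _ i (by omega), psi1_eval, mul_zero,
    mul_zero, zero_add] at h1
  have hc : ((X - C (i : ℚ)) * QQ s ^ 2).coeff e = 1 := by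
    have h2 := (psi1_monic s (i : ℚ)).coeff_natDegree
    have h3 : e = 2 * (r - 1) + 1 := by omega
    rw [hs, psi1_natDegree r i hi, ← h3] at h2
    rw [hs]
    exact h2
  rw [hc, mul_one] at h1
  -- second relation
  have h2 := master e (QQ s ^ 2) (by rw [hs, psi0_natDegree r i hi]; omega)
  rw [sum_two e r i hr hi _ (dvd_refl _), Kf_even e _ _ i (by omega)] at h2
  have hc2 : (QQ s ^ 2).coeff e = 0 :=
    coeff_eq_zero_of_natDegree_lt (by rw [hs, psi0_natDegree r i hi]; omega)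
  rw [hc2, mul_zero, eval_pow] at h2
  rcases Nat.lt_or_ge (2 * i + 1) e with hlt | hge
  · rw [Kf_odd e _ _ i hlt, psi1_eval, psi1_deriv, mul_zero, zero_add, sub_self, zero_mul,
      add_zero] at h1
    rw [Kf_odd e _ _ i hlt, psi0_deriv, eval_pow] at h2
    have hM1 : MM e q0 (2 * i + 1) ≠ 0 := by
      intro h
      rw [h, zero_mul] at h1
      exact hA h1.symm
    refine ⟨?_, hM1⟩
    intro h
    rw [h, zero_mul, zero_add] at h2
    have h3 := (mul_eq_zero.mp h2).resolve_left hM1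
    push_cast at h3
    nlinarith
  · have hei : e = 2 * i + 1 := by omega
    have hK1 : Kf e ((e + 1 : ℕ) : ℚ) ((X - C (i : ℚ)) * QQ s ^ 2) (2 * i + 1) =
        (QQ s).eval (i : ℚ) ^ 2 := by
      rw [← hei, Kf_last, hei, q0_odd, psi1_deriv]
      ring
    have hK0 : Kf e ((e + 1 : ℕ) : ℚ) (QQ s ^ 2) (2 * i + 1) =
        2 * (QQ s).eval (i : ℚ) * (derivative (QQ s)).eval (i : ℚ) := by
      rw [← hei, Kf_last, hei, q0_odd, psi0_deriv]
    rw [hK1] at h1
    rw [hK0] at h2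
    have hM1 : MM e q0 (2 * i + 1) ≠ 0 := by
      intro h
      rw [h, zero_mul] at h1
      exact hA h1.symm
    refine ⟨?_, hM1⟩
    intro h
    rw [h, zero_mul, zero_add] at h2
    have h3 := (mul_eq_zero.mp h2).resolve_left hM1
    have hlt : ∀ l ∈ s, (l : ℚ) < i := by
      intro l hl
      rw [hs, mem_erase, mem_range] at hl
      exact_mod_cast (show l < i by omega)
    have h4 := QQ_eval_pos s i hlt
    have h5 := QQ_deriv_pos s i hlt ⟨0, by rw [hs, mem_erase, mem_range]; omega⟩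
    have h6 := mul_pos h4 h5
    nlinarith

lemma MM_ne_zero_even (e r : ℕ) (he : 2 ≤ e) (hr : e = 2 * r) :
    MM e q0 e ≠ 0 ∧ ∀ i < r, MM e q0 (2 * i) ≠ 0 ∧ MM e q0 (2 * i + 1) ≠ 0 := by
  have hA := det_WW_ne_zero e he
  have hqe : q0 e = (r : ℚ) := by rw [hr, q0_even]
  have hMe : MM e q0 e ≠ 0 := by
    have h1 := master e (QQ (range r) ^ 2) (by rw [natDegree_pow, QQ_natDegree, card_range, hr])
    rw [sum_one e r hr _ (dvd_refl _)] at h1
    have hc : (QQ (range r) ^ 2).coeff e = 1 := by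
      have h2 := ((QQ_monic (range r)).pow 2).coeff_natDegree
      rw [natDegree_pow, QQ_natDegree, card_range, ← hr] at h2
      exact h2
    rw [hc, mul_one] at h1
    intro h
    rw [h, zero_mul] at h1
    exact hA h1.symm
  refine ⟨hMe, fun i hi => ?_⟩
  set s := (range r).erase i with hs
  have hx : (QQ s).eval (i : ℚ) ≠ 0 := QQ_ne_zero s i (notMem_erase i _)
  have hx2 : 0 < (QQ s).eval (i : ℚ) ^ 2 := by positivity
  have hlog := QQ_log s i
  have hcard : (s.card : ℚ) = (r : ℚ) - 1 := by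
    rw [hs, card_erase_range r i hi]
    have : 1 ≤ r := by omega
    push_cast [this]
    ring
  rw [hcard] at hlog
  have hr' : (e : ℚ) = 2 * r := by exact_mod_cast hr
  have hlt : ∀ l ∈ s, (l : ℚ) < r := by
    intro l hl
    rw [hs, mem_erase, mem_range] at hl
    exact_mod_cast (show l < r by omega)
  have hb := QQ_eval_pos s r hlt
  have hb' := QQ_deriv_nonneg s r hlt
  have hsi : (1 : ℚ) ≤ (r : ℚ) - i := by
    have : i + 1 ≤ r := hi
    have : (i : ℚ) + 1 ≤ r := by exact_mod_cast this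
    linarith
  -- first relation
  have h1 := master e ((X - C (i : ℚ)) * QQ s ^ 2) (by rw [hs, psi1_natDegree r i hi]; omega)
  have hc1 : ((X - C (i : ℚ)) * QQ s ^ 2).coeff e = 0 :=
    coeff_eq_zero_of_natDegree_lt (by rw [hs, psi1_natDegree r i hi]; omega)
  rw [sum_three e r i hr hi _ (dvd_mul_left _ _), Kf_even e _ _ i (by omega), psi1_eval, mul_zero,
    mul_zero, zero_add, Kf_odd e _ _ i (by omega), psi1_eval, psi1_deriv, mul_zero, zero_add,
    sub_self, zero_mul, add_zero, Kf_last, psi1_deriv, hqe, hc1, mul_zero] at h1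
  -- second relation
  have h2 := master e (QQ s ^ 2) (by rw [hs, psi0_natDegree r i hi]; omega)
  have hc2 : (QQ s ^ 2).coeff e = 0 :=
    coeff_eq_zero_of_natDegree_lt (by rw [hs, psi0_natDegree r i hi]; omega)
  rw [sum_three e r i hr hi _ (dvd_refl _), Kf_even e _ _ i (by omega),
    Kf_odd e _ _ i (by omega), psi0_deriv, Kf_last, psi0_deriv, hqe, hc2, mul_zero,
    eval_pow] at h2
  set x := (QQ s).eval (i : ℚ)
  set x' := (derivative (QQ s)).eval (i : ℚ)
  set b := (QQ s).eval (r : ℚ)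
  set b' := (derivative (QQ s)).eval (r : ℚ)
  set M0 := MM e q0 (2 * i)
  set M1 := MM e q0 (2 * i + 1)
  set Me := MM e q0 e
  have hbb : 0 ≤ b * b' := mul_nonneg hb.le hb'
  have hT1 : 0 < b ^ 2 + ((r : ℚ) - i) * (2 * b * b') := by
    have : 0 ≤ ((r : ℚ) - i) * (b * b') := mul_nonneg (by linarith) hbb
    nlinarith
  constructor
  · intro h
    rw [h, zero_mul, zero_add] at h2
    -- multiply by x ^ 2
    have h3 : Me * ((b ^ 2 + ((r : ℚ) - i) * (2 * b * b')) * (((e + 1 : ℕ) : ℚ) * x ^ 2 + 2 * x * x')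
        - 2 * b * b' * x ^ 2) = 0 := by
      linear_combination (((e + 1 : ℕ) : ℚ) * x ^ 2 + 2 * x * x') * h1 - x ^ 2 * h2
    have h4 := (mul_eq_zero.mp h3).resolve_left hMe
    push_cast at h4
    have h5 : x ^ 2 ≤ ((e : ℚ) + 1) * x ^ 2 + 2 * x * x' := by
      nlinarith
    have h6 : (b ^ 2 + ((r : ℚ) - i) * (2 * b * b')) * x ^ 2 ≤
        (b ^ 2 + ((r : ℚ) - i) * (2 * b * b')) * (((e : ℚ) + 1) * x ^ 2 + 2 * x * x') :=
      mul_le_mul_of_nonneg_left h5 hT1.le
    have h7 : 0 ≤ ((r : ℚ) - i - 1) * (b * b') := mul_nonneg (by linarith) hbb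
    have h8 : 0 < (b ^ 2 + ((r : ℚ) - i - 1) * (2 * b * b')) * x ^ 2 := by
      apply mul_pos _ hx2
      nlinarith [pow_pos hb 2]
    nlinarith
  · intro h
    rw [h, zero_mul, zero_add] at h1
    rcases mul_eq_zero.mp h1 with h3 | h3
    · exact hMe h3
    · linarith

/-- All entries of the solution at the special nodes are nonzero. -/
lemma MM_ne_zero (e : ℕ) (he : 2 ≤ e) (j : ℕ) (hj : j ≤ e) : MM e q0 j ≠ 0 := by
  rcases Nat.even_or_odd' e with ⟨r, hr | hr⟩
  · obtain ⟨h1, h2⟩ := MM_ne_zero_even e r he hr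
    rcases Nat.lt_or_ge j e with hlt | hge
    · rcases Nat.even_or_odd' j with ⟨i, hi | hi⟩
      · rw [hi]; exact (h2 i (by omega)).1
      · rw [hi]; exact (h2 i (by omega)).2
    · have : j = e := le_antisymm hj hge
      rw [this]; exact h1
  · rcases Nat.even_or_odd' j with ⟨i, hi | hi⟩
    · rw [hi]; exact (MM_ne_zero_odd e (r + 1) i he (by omega) (by omega)).1
    · rw [hi]; exact (MM_ne_zero_odd e (r + 1) i he (by omega) (by omega)).2

end Pool.Agent.H929R2
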