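import Mathlib
import Pool.Agent.H929R2.Special5

set_option autoImplicit false
set_option maxHeartbeats 400000

namespace Pool.Agent.H929R2

open Polynomial Finset

section Map

variable {R S : Type*} [CommRing R] [CommRing S] (f : R →+* S)

lemma map_ell (e : ℕ) (q : ℕ → R) (j : ℕ) : (ell e q j).map f = ell e (fun i => f (q i)) j := by
  unfold ell
  split_ifs
  · simp
  · simp

lemma map_vv (e : ℕ) (q : ℕ → R) (j : ℕ) : (vv e q j).map f = vv e (fun i => f (q i)) j := by
  rw [vv, Polynomial.map_mul, Polynomial.map_pow, map_ell, map_ell, vv]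

lemma map_WW (e : ℕ) (q : ℕ → R) : f.mapMatrix (WW e q) = WW e (fun i => f (q i)) := by
  ext k j
  rw [RingHom.mapMatrix_apply, Matrix.map_apply, WW, WW, Matrix.of_apply, Matrix.of_apply,
    ← map_vv, coeff_map]

lemma map_det_WW (e : ℕ) (q : ℕ → R) : f (WW e q).det = (WW e (fun i => f (q i))).det := by
  rw [RingHom.map_det, map_WW]

lemma map_MM (e : ℕ) (q : ℕ → R) (j : ℕ) : f (MM e q j) = MM e (fun i => f (q i)) j := by
  unfold MM
  split_ifs with h
  · rw [← map_WW, ← RingHom.map_adjugate]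
    rfl
  · exact map_zero f

lemma map_RR (e : ℕ) (q M : ℕ → R) (j : ℕ) :
    (RR e q M j).map f = RR e (fun i => f (q i)) (fun i => f (M i)) j := by
  rw [RR, RR, Polynomial.map_add, Polynomial.map_mul, Polynomial.map_mul, Polynomial.map_pow,
    map_ell, map_ell, Polynomial.map_C, map_mul, map_natCast]
  congr 1
  split_ifs
  · simp
  · rw [Polynomial.map_mul, Polynomial.map_pow, map_ell, Polynomial.map_C]

lemma map_RM (e : ℕ) (q M : ℕ → R) :
    f.mapMatrix (RM e q M) = RM e (fun i => f (q i)) (fun i => f (M i)) := by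
  ext k j
  rw [RingHom.mapMatrix_apply, Matrix.map_apply, RM, RM, Matrix.of_apply, Matrix.of_apply,
    ← map_RR, coeff_map]

lemma map_det_RM (e : ℕ) (q M : ℕ → R) :
    f (RM e q M).det = (RM e (fun i => f (q i)) (fun i => f (M i))).det := by
  rw [RingHom.map_det, map_RM]

end Map

section Generic

variable (k : Type*) [Field k] [CharZero k]

/-- The generic nodes. -/
noncomputable def qS (e : ℕ) (j : ℕ) : MvPolynomial (Fin (e + 3)) k :=
  if h : j < e + 3 then MvPolynomial.X ⟨j, h⟩ else MvPolynomial.C (algebraMap ℚ k (q0 j))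

/-- Specialisation to the special nodes. -/
noncomputable def spec (e : ℕ) : MvPolynomial (Fin (e + 3)) k →+* k :=
  MvPolynomial.eval fun i => algebraMap ℚ k (q0 i)

lemma spec_qS (e : ℕ) : (fun j => spec k e (qS k e j)) = fun j => algebraMap ℚ k (q0 j) := by
  funext j
  unfold qS spec
  split_ifs
  · simp
  · simp

lemma det_WS_ne_zero (e : ℕ) (he : 2 ≤ e) : (WW e (qS k e)).det ≠ 0 := by
  intro h
  have h1 := congrArg (spec k e) h
  rw [map_det_WW, spec_qS, map_zero, ← map_det_WW, map_eq_zero] at h1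
  exact det_WW_ne_zero e he h1

lemma MS_ne_zero (e : ℕ) (he : 2 ≤ e) (j : ℕ) (hj : j ≤ e) : MM e (qS k e) j ≠ 0 := by
  intro h
  have h1 := congrArg (spec k e) h
  rw [map_MM, spec_qS, map_zero, ← map_MM, map_eq_zero] at h1
  exact MM_ne_zero e he j hj h1

lemma det_RS_ne_zero (e : ℕ) (he : 2 ≤ e) : (RM e (qS k e) (MM e (qS k e))).det ≠ 0 := by
  intro h
  have h1 := congrArg (spec k e) h
  rw [map_det_RM, spec_qS, map_zero] at h1
  simp_rw [map_MM, spec_qS, ← map_MM] at h1
  rw [← map_det_RM, map_eq_zero] at h1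
  exact det_RM_ne_zero e he _ (fun j hj => MM_ne_zero e he j hj) h1

/-- The big function field. -/
abbrev LL (e : ℕ) := FractionRing (MvPolynomial (Fin (e + 3)) k)

/-- The generic nodes in the function field. -/
noncomputable def qL (e : ℕ) (j : ℕ) : LL k e := algebraMap _ (LL k e) (qS k e j)

omit [CharZero k] in
lemma algebraMap_SL_injective (e : ℕ) :
    Function.Injective (algebraMap (MvPolynomial (Fin (e + 3)) k) (LL k e)) :=
  IsFractionRing.injective _ _

lemma det_WL_ne_zero (e : ℕ) (he : 2 ≤ e) : (WW e (qL k e)).det ≠ 0 := by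
  intro h
  apply det_WS_ne_zero k e he
  apply algebraMap_SL_injective k e
  rw [map_det_WW, map_zero]
  exact h

lemma ML_ne_zero (e : ℕ) (he : 2 ≤ e) (j : ℕ) (hj : j ≤ e) : MM e (qL k e) j ≠ 0 := by
  intro h
  apply MS_ne_zero k e he j hj
  apply algebraMap_SL_injective k e
  rw [map_MM, map_zero]
  exact h

lemma det_RL_ne_zero (e : ℕ) (he : 2 ≤ e) : (RM e (qL k e) (MM e (qL k e))).det ≠ 0 := by
  intro h
  apply det_RS_ne_zero k e he
  apply algebraMap_SL_injective k e
  rw [map_det_RM, map_zero]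
  simp_rw [map_MM]
  exact h

end Generic

end Pool.Agent.H929R2
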