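import Mathlib
import Pool.Agent.H929R2.Generic

set_option autoImplicit false
set_option maxHeartbeats 400000

namespace Pool.Agent.H929R2

open Polynomial Finset

section

variable {R : Type*} [CommRing R]

/-- The value of the chain form `∑ z_j ^ e z_{j+1} + z_{e+1} ^ (e+1)`. -/
def chainVal (e : ℕ) (z : ℕ → R) : R :=
  ∑ j ∈ range (e + 1), z j ^ e * z (j + 1) + z (e + 1) ^ (e + 1)

lemma ell_natDegree (e : ℕ) (q : ℕ → R) (j : ℕ) : (ell e q j).natDegree ≤ 1 := by
  unfold ell
  split_ifs
  · exact (natDegree_add_C).trans_le natDegree_X_le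
  · simp

lemma RR_natDegree (e : ℕ) (he : 1 ≤ e) (q M : ℕ → R) (j : ℕ) : (RR e q M j).natDegree ≤ e := by
  refine natDegree_add_le_of_degree_le ?_ ?_
  · refine (natDegree_C_mul_le _ _).trans ?_
    refine natDegree_mul_le.trans ?_
    have h1 : (ell e q j ^ (e - 1)).natDegree ≤ (e - 1) * 1 :=
      natDegree_pow_le_of_le _ (ell_natDegree e q j)
    have h2 := ell_natDegree e q (j + 1)
    omega
  · split_ifs
    · simp
    · refine (natDegree_C_mul_le _ _).trans ?_
      have h1 : (ell e q (j - 1) ^ e).natDegree ≤ e * 1 :=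
        natDegree_pow_le_of_le _ (ell_natDegree e q (j - 1))
      omega

lemma vv_natDegree (e : ℕ) (q : ℕ → R) (j : ℕ) : (vv e q j).natDegree ≤ e + 1 := by
  refine natDegree_mul_le.trans ?_
  have h1 : (ell e q j ^ e).natDegree ≤ e * 1 :=
    natDegree_pow_le_of_le _ (ell_natDegree e q j)
  have h2 := ell_natDegree e q (j + 1)
  omega

/-- The adjugate column solves the linear system. -/
lemma MM_identity (e : ℕ) (q : ℕ → R) :
    ∑ j ∈ range (e + 1), C (MM e q j) * vv e q j =
      C (WW e q).det * X + C (∑ j ∈ range (e + 1), MM e q j * (vv e q j).coeff 0) := by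
  have hadj : ∀ k : Fin (e + 1), ∑ j : Fin (e + 1), (vv e q j).coeff (k + 1) * MM e q j =
      if k = 0 then (WW e q).det else 0 := by
    intro k
    have h1 := congrFun (congrFun (Matrix.mul_adjugate (WW e q)) k) 0
    rw [Matrix.mul_apply] at h1
    simp only [Matrix.smul_apply, smul_eq_mul, Matrix.one_apply, mul_ite, mul_one, mul_zero] at h1
    rw [← h1]
    refine sum_congr rfl fun j _ => ?_
    rw [MM, dif_pos j.2]
    rfl
  ext n
  rw [finsetSum_coeff]
  simp only [coeff_C_mul, coeff_add]
  rcases n with _ | n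
  · simp
  · rw [coeff_X, coeff_C, if_neg (Nat.succ_ne_zero n), add_zero]
    rcases Nat.lt_or_ge n (e + 1) with hn | hn
    · have h2 := hadj ⟨n, hn⟩
      simp only at h2
      rw [Fin.sum_univ_eq_sum_range (fun j => (vv e q j).coeff (n + 1) * MM e q j) (e + 1)] at h2
      rw [sum_congr rfl fun j _ => mul_comm _ _, h2]
      rcases Nat.eq_zero_or_pos n with rfl | hpos
      · simp
      · rw [if_neg, if_neg (by omega), mul_zero]
        intro h
        have := congrArg Fin.val h
        simp at this
        omega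
    · rw [if_neg (by omega), mul_zero]
      refine sum_eq_zero fun j _ => ?_
      rw [coeff_eq_zero_of_natDegree_lt, mul_zero]
      exact lt_of_le_of_lt (vv_natDegree e q j) (by omega)

end

section Module

/-- A nonsingular matrix annihilates only the zero vector, also for module valued vectors. -/
lemma eq_zero_of_matrix {L N : Type*} [Field L] [AddCommGroup N] [Module L N] {m : ℕ}
    (P : Matrix (Fin m) (Fin m) L) (hP : P.det ≠ 0) (n : Fin m → N)
    (h : ∀ s, ∑ j, P s j • n j = 0) : ∀ i, n i = 0 := by
  intro i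
  have h1 : ∑ s, P.adjugate i s • ∑ j, P s j • n j = P.det • n i := by
    simp_rw [smul_sum, smul_smul]
    rw [sum_comm]
    have h2 : ∀ j, ∑ s, (P.adjugate i s * P s j) • n j = (if i = j then P.det else 0) • n j := by
      intro j
      rw [← sum_smul, ← Matrix.mul_apply, Matrix.adjugate_mul]
      simp [Matrix.one_apply]
    simp_rw [h2]
    simp [ite_smul]
  rw [sum_eq_zero fun s _ => by rw [h s, smul_zero]] at h1
  exact (smul_eq_zero.mp h1.symm).resolve_left hP

variable {k L N : Type*} [Field k] [Field L] [Algebra k L] [AddCommGroup N] [Module k N]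
  [Module L N]

lemma D_chain (D : Derivation k L N) (e : ℕ) (z : ℕ → L) :
    D (chainVal e z) = ∑ j ∈ range (e + 1), (((e : L) * (z j ^ (e - 1) * z (j + 1))) • D (z j) +
      z j ^ e • D (z (j + 1))) + (((e + 1 : ℕ) : L) * z (e + 1) ^ e) • D (z (e + 1)) := by
  rw [chainVal, map_add, map_sum, Derivation.leibniz_pow]
  congr 1
  · refine sum_congr rfl fun j _ => ?_
    rw [Derivation.leibniz, Derivation.leibniz_pow, add_comm]
    congr 1
    rw [← Nat.cast_smul_eq_nsmul L, smul_smul, smul_smul]
    congr 1
    ring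
  · rw [← Nat.cast_smul_eq_nsmul L, smul_smul, Nat.add_sub_cancel]

variable [CharZero L]

/-- The main computation: a derivation killing the coordinates of the residual point, together
with two further functions, kills all parameters. -/
theorem deriv_kill (e : ℕ) (he : 2 ≤ e) (q M x : ℕ → L) (A B tau : L)
    (hM : ∀ j ≤ e, M j ≠ 0)
    (hid : ∑ j ∈ range (e + 1), C (M j) * vv e q j = C A * X + C B)
    (hx : ∀ j ≤ e, x j ^ e * x (j + 1) = M j)
    (htau : A * tau + B + x (e + 1) ^ (e + 1) = 0)
    (hR : (RM e q M).det ≠ 0)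
    (D : Derivation k L N)
    (hY : ∀ j ≤ e, D (x j * (tau + q j)) = 0) (hY' : D (x (e + 1)) = 0)
    (hA : D A = 0) (ht : D tau = 0) :
    (∀ j ≤ e, D (x j) = 0) ∧ (∀ j ≤ e, D (q j) = 0) := by
  have hx0 : ∀ j ≤ e, x j ≠ 0 := by
    intro j hj h0
    apply hM j hj
    rw [← hx j hj, h0, zero_pow (by omega), zero_mul]
  -- the moving point
  set zz : L → ℕ → L := fun s j => x j * (ell e q j).eval (tau + s) with hzz
  have hchain : ∀ s : L, chainVal e (zz s) = A * s := by
    intro s
    have h1 := congrArg (Polynomial.eval (tau + s)) hid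
    rw [eval_finsetSum] at h1
    simp only [eval_mul, eval_C, eval_add, eval_X] at h1
    have h2 : chainVal e (zz s) = ∑ j ∈ range (e + 1), M j * (vv e q j).eval (tau + s) +
        x (e + 1) ^ (e + 1) := by
      rw [chainVal]
      congr 1
      · refine sum_congr rfl fun j hj => ?_
        rw [← hx j (Nat.lt_succ_iff.mp (mem_range.mp hj)), vv, eval_mul, eval_pow, hzz]
        ring
      · have : (ell e q (e + 1)).eval (tau + s) = 1 := by
          rw [ell, if_neg (by omega), eval_one]
        simp only [hzz, this, mul_one]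
    rw [h2, h1]
    linear_combination htau
  -- values of the derivation on the moving point
  have hDz : ∀ s : ℕ, ∀ j ≤ e, D (zz (s : L) j) = (s : L) • D (x j) := by
    intro s j hj
    have h1 : zz (s : L) j = x j * (tau + q j) + (s : L) * x j := by
      simp only [hzz]
      rw [ell, if_pos hj]
      simp only [eval_add, eval_X, eval_C]
      ring
    rw [h1, map_add, hY j hj, zero_add, Derivation.leibniz, Derivation.map_natCast, smul_zero,
      add_zero]
  have hDz' : ∀ s : ℕ, D (zz (s : L) (e + 1)) = 0 := by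
    intro s
    have : zz (s : L) (e + 1) = x (e + 1) := by
      simp only [hzz]
      rw [ell, if_neg (by omega), eval_one, mul_one]
    rw [this, hY']
  -- the logarithmic derivatives
  set n : ℕ → N := fun j => if j ≤ e then (x j)⁻¹ • D (x j) else 0 with hn
  have hDx : ∀ j ≤ e, D (x j) = x j • n j := by
    intro j hj
    simp only [hn, if_pos hj]
    rw [smul_smul, mul_inv_cancel₀ (hx0 j hj), one_smul]
  have hn' : n (e + 1) = 0 := by simp [hn]
  have hDz2 : ∀ s : ℕ, ∀ j ≤ e + 1, D (zz (s : L) j) = ((s : L) * x j) • n j := by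
    intro s j hj
    rcases Nat.lt_or_ge j (e + 1) with h | h
    · rw [hDz s j (by omega), hDx j (by omega), smul_smul]
    · have : j = e + 1 := le_antisymm hj h
      subst this
      rw [hDz', hn', smul_zero]
  have hsum : ∀ s : ℕ, s ≠ 0 → ∑ j ∈ range (e + 1), (RR e q M j).eval (tau + s) • n j = 0 := by
    intro s hs
    have hs' : (s : L) ≠ 0 := by exact_mod_cast hs
    have h1 : D (chainVal e (zz (s : L))) = 0 := by
      rw [hchain, Derivation.leibniz, hA, Derivation.map_natCast, smul_zero, smul_zero, add_zero]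
    rw [D_chain, hDz', smul_zero, add_zero] at h1
    have h2 : ∑ j ∈ range (e + 1), (((e : L) * (zz (s : L) j ^ (e - 1) * zz (s : L) (j + 1))) •
        D (zz (s : L) j) + zz (s : L) j ^ e • D (zz (s : L) (j + 1))) =
        (s : L) • (∑ j ∈ range (e + 1), ((e : L) * M j * ((ell e q j).eval (tau + s) ^ (e - 1) *
          (ell e q (j + 1)).eval (tau + s))) • n j +
          ∑ j ∈ range (e + 1), (M j * (ell e q j).eval (tau + s) ^ e) • n (j + 1)) := by
      rw [← sum_add_distrib, smul_sum]
      refine sum_congr rfl fun j hj => ?_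
      have hj' : j ≤ e := Nat.lt_succ_iff.mp (mem_range.mp hj)
      rw [hDz2 s j (by omega), hDz2 s (j + 1) (by omega), smul_smul, smul_smul, smul_add,
        smul_smul, smul_smul]
      have hpow : x j ^ e = x j ^ (e - 1) * x j := by
        rw [← pow_succ]; congr 1; omega
      congr 2
      · rw [← hx j hj', hzz, hpow]
        ring
      · rw [← hx j hj', hzz]
        ring
    rw [h2] at h1
    have h3 := (smul_eq_zero.mp h1).resolve_left hs'
    rw [← h3]
    -- shift the second sum
    have h4 : ∑ j ∈ range (e + 1), (M j * (ell e q j).eval (tau + s) ^ e) • n (j + 1) =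
        ∑ j ∈ range (e + 1), (if j = 0 then (0 : L) else
          M (j - 1) * (ell e q (j - 1)).eval (tau + s) ^ e) • n j := by
      rw [sum_range_succ, hn', smul_zero, add_zero, sum_range_succ', if_pos rfl, zero_smul, add_zero]
      refine sum_congr rfl fun j _ => ?_
      rw [if_neg (Nat.succ_ne_zero j), Nat.add_sub_cancel]
    rw [h4, ← sum_add_distrib]
    refine sum_congr rfl fun j _ => ?_
    rw [← add_smul, RR]
    congr 1
    rw [eval_add, eval_mul, eval_mul, eval_pow, eval_C]
    congr 1
    split_ifs
    · simp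
    · simp
  -- Vandermonde
  have hnz : ∀ j : Fin (e + 1), n j = 0 := by
    set P : Matrix (Fin (e + 1)) (Fin (e + 1)) L :=
      Matrix.vandermonde (fun s : Fin (e + 1) => tau + (((s : ℕ) + 1 : ℕ) : L)) * RM e q M with hP
    refine eq_zero_of_matrix P ?_ (fun j => n j) ?_
    · rw [hP, Matrix.det_mul]
      refine mul_ne_zero ?_ hR
      rw [Matrix.det_vandermonde_ne_zero_iff]
      intro a b hab
      simp only [add_right_inj] at hab
      have : ((a : ℕ) + 1) = ((b : ℕ) + 1) := by exact_mod_cast hab
      exact Fin.ext (by omega)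
    · intro s
      rw [← hsum ((s : ℕ) + 1) (Nat.succ_ne_zero _),
        ← Fin.sum_univ_eq_sum_range
          (fun j => (RR e q M j).eval (tau + (((s : ℕ) + 1 : ℕ) : L)) • n j) (e + 1)]
      refine sum_congr rfl fun j _ => ?_
      congr 1
      rw [hP, Matrix.mul_apply, eval_eq_sum_range' (Nat.lt_succ_of_le (RR_natDegree e (by omega) q M j)),
        ← Fin.sum_univ_eq_sum_range
          (fun i => (RR e q M j).coeff i * (tau + (((s : ℕ) + 1 : ℕ) : L)) ^ i) (e + 1)]
      refine sum_congr rfl fun i _ => ?_
      rw [Matrix.vandermonde_apply, RM, Matrix.of_apply, mul_comm]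
  have hDx0 : ∀ j ≤ e, D (x j) = 0 := by
    intro j hj
    rw [hDx j hj]
    have := hnz ⟨j, Nat.lt_succ_of_le hj⟩
    simp only at this
    rw [this, smul_zero]
  refine ⟨hDx0, fun j hj => ?_⟩
  have h1 := hY j hj
  rw [Derivation.leibniz, hDx0 j hj, smul_zero, add_zero, map_add, ht, zero_add] at h1
  exact (smul_eq_zero.mp h1).resolve_left (hx0 j hj)

end Module

end Pool.Agent.H929R2
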