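import Mathlib
import Pool.Agent.H929R2.Deriv

set_option autoImplicit false
set_option maxHeartbeats 400000

namespace Pool.Agent.H929R2

open Polynomial Finset

section Eigen

/-- The part of a vanishing sum which is fixed by an endomorphism vanishes, if the other parts are
eigenvectors with other eigenvalues. -/
lemma eigen_sum {k V ι : Type*} [Field k] [AddCommGroup V] [Module k V] [DecidableEq ι]
    (σ : V →ₗ[k] V) (I : Finset ι) : ∀ (A : V) (B : ι → V) (lam : ι → k), σ A = A →
    (∀ i ∈ I, σ (B i) = lam i • B i) → (∀ i ∈ I, lam i ≠ 1) → A + ∑ i ∈ I, B i = 0 → A = 0 := by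
  induction I using Finset.induction_on with
  | empty => intro A B lam _ _ _ h; simpa using h
  | insert a s ha ih =>
    intro A B lam hA hB hlam h
    rw [sum_insert ha] at h
    have h1 := congrArg σ h
    rw [map_add, map_add, map_sum, map_zero, hA, hB a (mem_insert_self a s)] at h1
    have h3 : ∑ i ∈ s, σ (B i) = ∑ i ∈ s, lam i • B i :=
      sum_congr rfl fun i hi => hB i (mem_insert_of_mem hi)
    rw [h3] at h1
    have h4 := congrArg (fun v => lam a • v) h
    simp only [smul_add, smul_zero, smul_sum] at h4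
    have h5 : ∑ i ∈ s, (lam i - lam a) • B i = ∑ i ∈ s, lam i • B i - ∑ i ∈ s, lam a • B i := by
      rw [← sum_sub_distrib]; exact sum_congr rfl fun i _ => sub_smul _ _ _
    have h2 : (1 - lam a) • A + ∑ i ∈ s, (lam i - lam a) • B i = 0 := by
      rw [h5, sub_smul, one_smul]
      have h7 : A - lam a • A + (∑ i ∈ s, lam i • B i - ∑ i ∈ s, lam a • B i) =
          (A + (lam a • B a + ∑ i ∈ s, lam i • B i)) -
          (lam a • A + (lam a • B a + ∑ i ∈ s, lam a • B i)) := by abel
      rw [h7, h1, h4, sub_zero]
    have h6 := ih ((1 - lam a) • A) (fun i => (lam i - lam a) • B i) lam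
      (by rw [map_smul, hA])
      (fun i hi => by
        rw [map_smul, hB i (mem_insert_of_mem hi), smul_smul, smul_smul, mul_comm])
      (fun i hi => hlam i (mem_insert_of_mem hi)) h2
    exact (smul_eq_zero.mp h6).resolve_left (sub_ne_zero.mpr (hlam a (mem_insert_self a s)).symm)

end Eigen

section Matrix

variable {R : Type*} [CommRing R]

/-- The matrix of coefficients of the derivatives, with an additional constant. -/
noncomputable def RM' (e : ℕ) (q M w : ℕ → R) : Matrix (Fin (e + 1)) (Fin (e + 1)) R :=
  Matrix.of fun k j => (RR e q M j + C (w j)).coeff k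

/-- Expansion of the determinant along the row of constant terms. -/
lemma det_RM' (e : ℕ) (q M w : ℕ → R) : (RM' e q M w).det = (RM e q M).det +
    ∑ j : Fin (e + 1), (-1) ^ (j : ℕ) * w j *
      ((RM e q M).submatrix Fin.succ j.succAbove).det := by
  rw [Matrix.det_succ_row_zero, Matrix.det_succ_row_zero, ← sum_add_distrib]
  refine sum_congr rfl fun j _ => ?_
  have h1 : (RM' e q M w).submatrix Fin.succ j.succAbove =
      (RM e q M).submatrix Fin.succ j.succAbove := by
    ext a b
    simp only [RM', RM, Matrix.submatrix_apply, Matrix.of_apply, coeff_add, coeff_C]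
    rw [if_neg (by simp), add_zero]
  have h2 : RM' e q M w 0 j = RM e q M 0 j + w j := by
    simp only [RM', RM, Matrix.of_apply, coeff_add, coeff_C]
    rw [if_pos (by simp)]
  rw [h1, h2]
  ring

end Matrix

section Module

variable {R : Type*} [CommRing R]

/-- The value of the family of forms: a chain, a part linear in the `z j`, and a constant. -/
def famVal (e : ℕ) (z η : ℕ → R) (γ : R) : R :=
  ∑ j ∈ range (e + 1), z j ^ e * z (j + 1) + ∑ j ∈ range (e + 1), z j * η j + γ

variable {k L N : Type*} [Field k] [Field L] [Algebra k L] [AddCommGroup N] [Module k N]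
  [Module L N]

lemma D_fam (D : Derivation k L N) (e : ℕ) (z η : ℕ → L) (γ : L)
    (hη : ∀ j ≤ e, D (η j) = 0) (hγ : D γ = 0) :
    D (famVal e z η γ) = ∑ j ∈ range (e + 1), (((e : L) * (z j ^ (e - 1) * z (j + 1))) • D (z j) +
      z j ^ e • D (z (j + 1))) + ∑ j ∈ range (e + 1), η j • D (z j) := by
  rw [famVal, map_add, map_add, map_sum, map_sum, hγ, add_zero]
  congr 1
  · refine sum_congr rfl fun j _ => ?_
    rw [Derivation.leibniz, Derivation.leibniz_pow, add_comm]
    congr 1
    rw [← Nat.cast_smul_eq_nsmul L, smul_smul, smul_smul]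
    congr 1
    ring
  · refine sum_congr rfl fun j hj => ?_
    rw [Derivation.leibniz, hη j (Nat.lt_succ_iff.mp (mem_range.mp hj)), smul_zero, zero_add]

variable [CharZero L]

/-- The main computation: a derivation killing the coordinates of the residual point, together
with two further functions, kills all parameters. -/
theorem deriv_kill' (e : ℕ) (he : 2 ≤ e) (q M x η : ℕ → L) (A B γ tau : L)
    (hM : ∀ j ≤ e, M j ≠ 0)
    (hid : ∑ j ∈ range (e + 1), C (M j) * vv e q j = C A * X + C B)
    (hx : ∀ j ≤ e, x j ^ e * x (j + 1) = M j)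
    (htau : (A + ∑ j ∈ range (e + 1), x j * η j) * tau +
      (B + ∑ j ∈ range (e + 1), x j * q j * η j + γ) = 0)
    (hR : (RM' e q M (fun j => x j * η j)).det ≠ 0)
    (D : Derivation k L N) (hη : ∀ j ≤ e, D (η j) = 0) (hγ : D γ = 0)
    (hY : ∀ j ≤ e, D (x j * (tau + q j)) = 0) (hY' : D (x (e + 1)) = 0)
    (hA : D (A + ∑ j ∈ range (e + 1), x j * η j) = 0) (ht : D tau = 0) :
    (∀ j ≤ e, D (x j) = 0) ∧ (∀ j ≤ e, D (q j) = 0) := by
  have hx0 : ∀ j ≤ e, x j ≠ 0 := by
    intro j hj h0
    apply hM j hj
    rw [← hx j hj, h0, zero_pow (by omega), zero_mul]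
  -- the moving point
  set zz : L → ℕ → L := fun s j => x j * (ell e q j).eval (tau + s) with hzz
  have hzz1 : ∀ s : L, ∀ j ≤ e, zz s j = x j * (tau + q j) + s * x j := by
    intro s j hj
    simp only [hzz]
    rw [ell, if_pos hj]
    simp only [eval_add, eval_X, eval_C]
    ring
  have hchain : ∀ s : L, famVal e (zz s) η γ = (A + ∑ j ∈ range (e + 1), x j * η j) * s := by
    intro s
    have h1 := congrArg (Polynomial.eval (tau + s)) hid
    rw [eval_finsetSum] at h1
    simp only [eval_mul, eval_C, eval_add, eval_X] at h1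
    have h2 : famVal e (zz s) η γ = ∑ j ∈ range (e + 1), M j * (vv e q j).eval (tau + s) +
        ((∑ j ∈ range (e + 1), x j * η j) * (tau + s) +
          ∑ j ∈ range (e + 1), x j * q j * η j) + γ := by
      rw [famVal]
      congr 1
      congr 1
      · refine sum_congr rfl fun j hj => ?_
        rw [← hx j (Nat.lt_succ_iff.mp (mem_range.mp hj)), vv, eval_mul, eval_pow, hzz]
        ring
      · rw [sum_mul, ← sum_add_distrib]
        refine sum_congr rfl fun j hj => ?_
        rw [hzz1 s j (Nat.lt_succ_iff.mp (mem_range.mp hj))]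
        ring
    rw [h2, h1]
    linear_combination htau
  -- values of the derivation on the moving point
  have hDz : ∀ s : ℕ, ∀ j ≤ e, D (zz (s : L) j) = (s : L) • D (x j) := by
    intro s j hj
    rw [hzz1 s j hj, map_add, hY j hj, zero_add, Derivation.leibniz, Derivation.map_natCast,
      smul_zero, add_zero]
  have hDz' : ∀ s : ℕ, D (zz (s : L) (e + 1)) = 0 := by
    intro s
    have : zz (s : L) (e + 1) = x (e + 1) := by
      simp only [hzz]
      rw [ell, if_neg (by omega), eval_one, mul_one]
    rw [this, hY']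
  -- the logarithmic derivatives
  set n : ℕ → N := fun j => if j ≤ e then (x j)⁻¹ • D (x j) else 0 with hn
  have hDx : ∀ j ≤ e, D (x j) = x j • n j := by
    intro j hj
    simp only [hn, if_pos hj]
    rw [smul_smul, mul_inv_cancel₀ (hx0 j hj), one_smul]
  have hn' : n (e + 1) = 0 := by simp [hn]
  have hDz2 : ∀ s : ℕ, ∀ j ≤ e + 1, D (zz (s : L) j) = ((s : L) * x j) • n j := by
    intro s j hj
    rcases Nat.lt_or_ge j (e + 1) with h | h
    · rw [hDz s j (by omega), hDx j (by omega), smul_smul]
    · have : j = e + 1 := le_antisymm hj h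
      subst this
      rw [hDz', hn', smul_zero]
  have hsum : ∀ s : ℕ, s ≠ 0 → ∑ j ∈ range (e + 1),
      (RR e q M j + C (x j * η j)).eval (tau + s) • n j = 0 := by
    intro s hs
    have hs' : (s : L) ≠ 0 := by exact_mod_cast hs
    have h1 : D (famVal e (zz (s : L)) η γ) = 0 := by
      rw [hchain, Derivation.leibniz, hA, Derivation.map_natCast, smul_zero, smul_zero, add_zero]
    rw [D_fam D e _ _ _ hη hγ] at h1
    have h2 : ∑ j ∈ range (e + 1), (((e : L) * (zz (s : L) j ^ (e - 1) * zz (s : L) (j + 1))) •
        D (zz (s : L) j) + zz (s : L) j ^ e • D (zz (s : L) (j + 1))) +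
        ∑ j ∈ range (e + 1), η j • D (zz (s : L) j) =
        (s : L) • (∑ j ∈ range (e + 1), ((e : L) * M j * ((ell e q j).eval (tau + s) ^ (e - 1) *
          (ell e q (j + 1)).eval (tau + s))) • n j +
          ∑ j ∈ range (e + 1), (M j * (ell e q j).eval (tau + s) ^ e) • n (j + 1) +
          ∑ j ∈ range (e + 1), (x j * η j) • n j) := by
      rw [← sum_add_distrib, ← sum_add_distrib, ← sum_add_distrib, smul_sum]
      refine sum_congr rfl fun j hj => ?_
      have hj' : j ≤ e := Nat.lt_succ_iff.mp (mem_range.mp hj)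
      rw [hDz2 s j (by omega), hDz2 s (j + 1) (by omega), smul_smul, smul_smul, smul_smul,
        smul_add, smul_add, smul_smul, smul_smul, smul_smul]
      have hpow : x j ^ e = x j ^ (e - 1) * x j := by
        rw [← pow_succ]; congr 1; omega
      congr 2
      · congr 1
        · rw [← hx j hj', hzz, hpow]
          ring
      · congr 1
        rw [← hx j hj', hzz]
        ring
      · ring
    rw [h2] at h1
    have h3 := (smul_eq_zero.mp h1).resolve_left hs'
    rw [← h3]
    -- shift the second sum
    have h4 : ∑ j ∈ range (e + 1), (M j * (ell e q j).eval (tau + s) ^ e) • n (j + 1) =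
        ∑ j ∈ range (e + 1), (if j = 0 then (0 : L) else
          M (j - 1) * (ell e q (j - 1)).eval (tau + s) ^ e) • n j := by
      rw [sum_range_succ, hn', smul_zero, add_zero, sum_range_succ', if_pos rfl, zero_smul, add_zero]
      refine sum_congr rfl fun j _ => ?_
      rw [if_neg (Nat.succ_ne_zero j), Nat.add_sub_cancel]
    rw [h4, ← sum_add_distrib, ← sum_add_distrib]
    refine sum_congr rfl fun j _ => ?_
    rw [← add_smul, ← add_smul, RR]
    congr 1
    rw [eval_add, eval_add, eval_mul, eval_mul, eval_pow, eval_C, eval_C]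
    congr 2
    split_ifs
    · simp
    · simp
  -- Vandermonde
  have hdeg : ∀ j, (RR e q M j + C (x j * η j)).natDegree < e + 1 := by
    intro j
    refine Nat.lt_succ_of_le (natDegree_add_le_of_degree_le (RR_natDegree e (by omega) q M j) ?_)
    rw [natDegree_C]; omega
  have hnz : ∀ j : Fin (e + 1), n j = 0 := by
    set P : Matrix (Fin (e + 1)) (Fin (e + 1)) L :=
      Matrix.vandermonde (fun s : Fin (e + 1) => tau + (((s : ℕ) + 1 : ℕ) : L)) *
        RM' e q M (fun j => x j * η j) with hP
    refine eq_zero_of_matrix P ?_ (fun j => n j) ?_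
    · rw [hP, Matrix.det_mul]
      refine mul_ne_zero ?_ hR
      rw [Matrix.det_vandermonde_ne_zero_iff]
      intro a b hab
      simp only [add_right_inj] at hab
      have : ((a : ℕ) + 1) = ((b : ℕ) + 1) := by exact_mod_cast hab
      exact Fin.ext (by omega)
    · intro s
      rw [← hsum ((s : ℕ) + 1) (Nat.succ_ne_zero _),
        ← Fin.sum_univ_eq_sum_range
          (fun j => (RR e q M j + C (x j * η j)).eval (tau + (((s : ℕ) + 1 : ℕ) : L)) • n j)
          (e + 1)]
      refine sum_congr rfl fun j _ => ?_
      congr 1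
      rw [hP, Matrix.mul_apply, eval_eq_sum_range' (hdeg j),
        ← Fin.sum_univ_eq_sum_range
          (fun i => (RR e q M j + C (x j * η j)).coeff i * (tau + (((s : ℕ) + 1 : ℕ) : L)) ^ i)
          (e + 1)]
      refine sum_congr rfl fun i _ => ?_
      rw [Matrix.vandermonde_apply, RM', Matrix.of_apply, mul_comm]
  have hDx0 : ∀ j ≤ e, D (x j) = 0 := by
    intro j hj
    rw [hDx j hj]
    have := hnz ⟨j, Nat.lt_succ_of_le hj⟩
    simp only at this
    rw [this, smul_zero]
  refine ⟨hDx0, fun j hj => ?_⟩
  have h1 := hY j hj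
  rw [Derivation.leibniz, hDx0 j hj, smul_zero, add_zero, map_add, ht, zero_add] at h1
  exact (smul_eq_zero.mp h1).resolve_left (hx0 j hj)

end Module

end Pool.Agent.H929R2
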