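import Mathlib
import Pool.Agent.H929R2.Deriv

set_option autoImplicit false
set_option maxHeartbeats 400000

namespace Pool.Agent.H929R2

open Polynomial Finset

section Congr

variable {R : Type*} [CommRing R]

lemma ell_congr (e : ℕ) (q q' : ℕ → R) (h : ∀ j ≤ e, q j = q' j) (j : ℕ) :
    ell e q j = ell e q' j := by
  unfold ell
  split_ifs with hj
  · rw [h j hj]
  · rfl

lemma WW_congr (e : ℕ) (q q' : ℕ → R) (h : ∀ j ≤ e, q j = q' j) : WW e q = WW e q' := by
  ext k j
  rw [WW, WW, Matrix.of_apply, Matrix.of_apply, vv, vv, ell_congr e q q' h, ell_congr e q q' h]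

lemma RM_smul (e : ℕ) (q M : ℕ → R) (c : R) : RM e q (fun j => c * M j) = c • RM e q M := by
  ext k j
  rw [Matrix.smul_apply, RM, RM, Matrix.of_apply, Matrix.of_apply, smul_eq_mul, ← coeff_C_mul]
  congr 1
  rw [RR, RR, mul_add]
  congr 1
  · rw [show (e : R) * (c * M j) = c * ((e : R) * M j) by ring, C_mul]
    ring
  · split_ifs
    · simp
    · rw [← mul_assoc, ← C_mul]

end Congr

section Field

variable (k : Type*) [Field k] [CharZero k]

/-- The scaling parameter. -/
noncomputable def cL (e : ℕ) : LL k e :=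
  algebraMap (MvPolynomial (Fin (e + 3)) k) (LL k e) (MvPolynomial.X ⟨e + 2, by omega⟩)

/-- The coordinates of the direction vector. -/
noncomputable def xL (e : ℕ) : ℕ → LL k e
  | 0 => algebraMap (MvPolynomial (Fin (e + 3)) k) (LL k e) (MvPolynomial.X ⟨e + 1, by omega⟩)
  | (j + 1) => cL k e * MM e (qL k e) j / xL e j ^ e

/-- The slope. -/
noncomputable def aL (e : ℕ) : LL k e := cL k e * (WW e (qL k e)).det

/-- The constant term. -/
noncomputable def bL (e : ℕ) : LL k e :=
  cL k e * ∑ j ∈ range (e + 1), MM e (qL k e) j * (vv e (qL k e) j).coeff 0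

/-- The parameter of the residual point. -/
noncomputable def tL (e : ℕ) : LL k e := -(bL k e + xL k e (e + 1) ^ (e + 1)) / aL k e

/-- The coordinates of the residual point. -/
noncomputable def yL (e : ℕ) (j : ℕ) : LL k e :=
  if j ≤ e then xL k e j * (tL k e + qL k e j) else xL k e j

omit [CharZero k] in
lemma cL_ne_zero (e : ℕ) : cL k e ≠ 0 := by
  intro h
  have := algebraMap_SL_injective k e (h.trans (map_zero _).symm)
  exact MvPolynomial.X_ne_zero _ this

lemma xL_ne_zero (e : ℕ) (he : 2 ≤ e) (j : ℕ) (hj : j ≤ e + 1) : xL k e j ≠ 0 := by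
  induction j with
  | zero =>
    intro h
    rw [xL] at h
    have := algebraMap_SL_injective k e (h.trans (map_zero _).symm)
    exact MvPolynomial.X_ne_zero _ this
  | succ j ih =>
    rw [xL]
    exact div_ne_zero (mul_ne_zero (cL_ne_zero k e) (ML_ne_zero k e he j (by omega)))
      (pow_ne_zero _ (ih (by omega)))

lemma xL_rel (e : ℕ) (he : 2 ≤ e) (j : ℕ) (hj : j ≤ e) :
    xL k e j ^ e * xL k e (j + 1) = cL k e * MM e (qL k e) j := by
  rw [xL]
  have := pow_ne_zero e (xL_ne_zero k e he j (by omega))
  field_simp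

lemma aL_ne_zero (e : ℕ) (he : 2 ≤ e) : aL k e ≠ 0 :=
  mul_ne_zero (cL_ne_zero k e) (det_WL_ne_zero k e he)

lemma tL_rel (e : ℕ) (he : 2 ≤ e) :
    aL k e * tL k e + bL k e + xL k e (e + 1) ^ (e + 1) = 0 := by
  have := aL_ne_zero k e he
  rw [tL]
  field_simp
  ring

lemma idL (e : ℕ) : ∑ j ∈ range (e + 1), C (cL k e * MM e (qL k e) j) * vv e (qL k e) j =
    C (aL k e) * X + C (bL k e) := by
  have h : C (cL k e) * _ = C (cL k e) * _ :=
    congrArg (fun p => C (cL k e) * p) (MM_identity e (qL k e))
  rw [mul_sum, mul_add, ← C_mul, ← mul_assoc, ← C_mul] at h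
  rw [aL, bL, ← h]
  refine sum_congr rfl fun j _ => ?_
  rw [C_mul, mul_assoc]

lemma detL (e : ℕ) (he : 2 ≤ e) :
    (RM e (qL k e) (fun j => cL k e * MM e (qL k e) j)).det ≠ 0 := by
  rw [RM_smul, Matrix.det_smul]
  exact mul_ne_zero (pow_ne_zero _ (cL_ne_zero k e)) (det_RL_ne_zero k e he)

/-- The residual point lies on the hypersurface. -/
lemma chain_yL (e : ℕ) (he : 2 ≤ e) : chainVal e (yL k e) = 0 := by
  have h1 := congrArg (Polynomial.eval (tL k e)) (idL k e)
  rw [eval_finsetSum] at h1
  simp only [eval_mul, eval_C, eval_add, eval_X] at h1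
  have hy : ∀ j ≤ e + 1, yL k e j = xL k e j * (ell e (qL k e) j).eval (tL k e) := by
    intro j hj
    unfold yL ell
    split_ifs <;> simp
  have h2 : chainVal e (yL k e) = ∑ j ∈ range (e + 1), (cL k e * MM e (qL k e) j) *
      (vv e (qL k e) j).eval (tL k e) + xL k e (e + 1) ^ (e + 1) := by
    rw [chainVal]
    congr 1
    · refine sum_congr rfl fun j hj => ?_
      have hj' : j ≤ e := Nat.lt_succ_iff.mp (mem_range.mp hj)
      rw [← xL_rel k e he j hj', vv, eval_mul, eval_pow, hy j (by omega), hy (j + 1) (by omega)]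
      ring
    · rw [yL, if_neg (by omega)]
  rw [h2, h1]
  exact tL_rel k e he

/-- A derivation killing the `yL`, `aL` and `tL` is zero. -/
lemma deriv_zero {e : ℕ} (he : 2 ≤ e) {N : Type*} [AddCommGroup N] [Module k N] [Module (LL k e) N]
    (D : Derivation k (LL k e) N) (hY : ∀ j ≤ e + 1, D (yL k e j) = 0) (hA : D (aL k e) = 0)
    (ht : D (tL k e) = 0) (z : LL k e) : D z = 0 := by
  obtain ⟨hx, hq⟩ := deriv_kill e he (qL k e) (fun j => cL k e * MM e (qL k e) j) (xL k e)
    (aL k e) (bL k e) (tL k e)
    (fun j hj => mul_ne_zero (cL_ne_zero k e) (ML_ne_zero k e he j hj)) (idL k e)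
    (fun j hj => xL_rel k e he j hj) (tL_rel k e he) (detL k e he) D
    (fun j hj => by
      have := hY j (by omega)
      rwa [yL, if_pos hj] at this)
    (by
      have := hY (e + 1) le_rfl
      rwa [yL, if_neg (by omega)] at this) hA ht
  -- the kernel of `D` as a subring
  let T : Subring (LL k e) :=
    { carrier := {a | D a = 0}
      mul_mem' := by
        intro a b ha hb
        simp only [Set.mem_ofPred_eq] at ha hb ⊢
        rw [Derivation.leibniz, ha, hb, smul_zero, smul_zero, add_zero]
      one_mem' := D.map_one_eq_zero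
      add_mem' := by
        intro a b ha hb
        simp only [Set.mem_ofPred_eq] at ha hb ⊢
        rw [map_add, ha, hb, add_zero]
      zero_mem' := map_zero D
      neg_mem' := by
        intro a ha
        simp only [Set.mem_ofPred_eq] at ha ⊢
        rw [map_neg, ha, neg_zero] }
  have hdet : D (WW e (qL k e)).det = 0 := by
    set q' : ℕ → T := fun j => if h : j ≤ e then ⟨qL k e j, hq j h⟩ else 0 with hq'
    have h1 : WW e (qL k e) = WW e (fun j => T.subtype (q' j)) := by
      refine WW_congr e _ _ fun j hj => ?_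
      simp only [hq', dif_pos hj]
      rfl
    rw [h1, ← map_det_WW]
    exact ((WW e q').det).2
  have hc : D (cL k e) = 0 := by
    rw [aL, Derivation.leibniz, hdet, smul_zero, zero_add] at hA
    exact (smul_eq_zero.mp hA).resolve_left (det_WL_ne_zero k e he)
  have hX : ∀ i : Fin (e + 3), D (algebraMap (MvPolynomial (Fin (e + 3)) k) (LL k e)
      (MvPolynomial.X i)) = 0 := by
    intro i
    rcases i with ⟨i, hi⟩
    rcases Nat.lt_or_ge e i with h | h
    · rcases Nat.lt_or_ge (e + 1) i with h2 | h2
      · have : i = e + 2 := by omega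
        subst this
        exact hc
      · have : i = e + 1 := by omega
        subst this
        exact hx 0 (by omega)
    · have := hq i h
      rw [qL, qS, dif_pos hi] at this
      exact this
  have hS : ∀ p : MvPolynomial (Fin (e + 3)) k, D (algebraMap _ (LL k e) p) = 0 := by
    intro p
    induction p using MvPolynomial.induction_on with
    | C a =>
      have : algebraMap (MvPolynomial (Fin (e + 3)) k) (LL k e) (MvPolynomial.C a) =
          algebraMap k (LL k e) a := by
        rw [IsScalarTower.algebraMap_apply k (MvPolynomial (Fin (e + 3)) k) (LL k e)]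
        rfl
      rw [this, Derivation.map_algebraMap]
    | add p q hp hq => rw [map_add, map_add, hp, hq, add_zero]
    | mul_X p i hp => rw [map_mul, Derivation.leibniz, hp, hX, smul_zero, smul_zero, add_zero]
  obtain ⟨a, b, hb, rfl⟩ := IsFractionRing.div_surjective (A := MvPolynomial (Fin (e + 3)) k) z
  have hb0 : algebraMap (MvPolynomial (Fin (e + 3)) k) (LL k e) b ≠ 0 := by
    intro h
    have := algebraMap_SL_injective k e (h.trans (map_zero _).symm)
    exact (nonZeroDivisors.ne_zero hb) this
  have h1 : D (algebraMap _ (LL k e) b * (algebraMap _ (LL k e) a / algebraMap _ (LL k e) b)) = 0 := by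
    rw [mul_div_cancel₀ _ hb0]
    exact hS a
  rw [Derivation.leibniz, hS b, smul_zero, add_zero] at h1
  exact (smul_eq_zero.mp h1).resolve_left hb0

end Field

end Pool.Agent.H929R2
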