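import Mathlib
import Pool.Agent.H929R2.Fam1
import Pool.Agent.H929R2.Trans

set_option autoImplicit false
set_option maxHeartbeats 400000

namespace Pool.Agent.H929R2

open Polynomial Finset

section Congr2

variable {R : Type*} [CommRing R]

lemma MM_congr (e : ℕ) (q q' : ℕ → R) (h : ∀ j ≤ e, q j = q' j) (j : ℕ) :
    MM e q j = MM e q' j := by
  rw [MM, MM, WW_congr e q q' h]

lemma RM_congr (e : ℕ) (q q' M M' : ℕ → R) (h : ∀ j ≤ e, q j = q' j) (hM : ∀ j ≤ e, M j = M' j) :
    RM e q M = RM e q' M' := by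
  ext k j
  rw [RM, RM, Matrix.of_apply, Matrix.of_apply, RR, RR, ell_congr e q q' h, ell_congr e q q' h,
    ell_congr e q q' h, hM j (by omega), hM (j - 1) (by omega)]

lemma det_RM_minor_map {S : Type*} [CommRing S] (f : R →+* S) (e : ℕ) (q M : ℕ → R)
    (j : Fin (e + 1)) : f (((RM e q M).submatrix Fin.succ j.succAbove).det) =
      (((RM e (fun i => f (q i)) (fun i => f (M i))).submatrix Fin.succ j.succAbove).det) := by
  rw [RingHom.map_det, ← map_RM]
  rfl

end Congr2

section Field

variable (k : Type*) [Field k] (m : ℕ)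

/-- The big function field, with `m` further variables. -/
abbrev LM (e : ℕ) := FractionRing (MvPolynomial (Fin (e + 3 + m)) k)

lemma algebraMap_LM_injective (e : ℕ) :
    Function.Injective (algebraMap (MvPolynomial (Fin (e + 3 + m)) k) (LM k m e)) :=
  IsFractionRing.injective _ _

/-- The variables of the big function field. -/
noncomputable def vM (e : ℕ) (i : Fin (e + 3 + m)) : LM k m e :=
  algebraMap (MvPolynomial (Fin (e + 3 + m)) k) (LM k m e) (MvPolynomial.X i)

lemma vM_ne_zero (e : ℕ) (i : Fin (e + 3 + m)) : vM k m e i ≠ 0 := by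
  intro h
  exact MvPolynomial.X_ne_zero i (algebraMap_LM_injective k m e (h.trans (map_zero _).symm))

/-- The inclusion of polynomial rings. -/
noncomputable def iotaS (e : ℕ) : MvPolynomial (Fin (e + 3)) k →ₐ[k] LM k m e :=
  (Algebra.ofId _ _ : MvPolynomial (Fin (e + 3 + m)) k →ₐ[MvPolynomial (Fin (e + 3 + m)) k]
    LM k m e).restrictScalars k |>.comp (MvPolynomial.rename (Fin.castAdd m))

lemma iotaS_injective (e : ℕ) : Function.Injective (iotaS k m e) := by
  have h : ⇑(iotaS k m e) = (algebraMap (MvPolynomial (Fin (e + 3 + m)) k) (LM k m e)) ∘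
    (MvPolynomial.rename (Fin.castAdd m)) := rfl
  rw [h]
  exact (algebraMap_LM_injective k m e).comp
    (MvPolynomial.rename_injective _ (Fin.castAdd_injective _ _))

/-- The inclusion of function fields. -/
noncomputable def iota (e : ℕ) : LL k e →ₐ[k] LM k m e :=
  IsFractionRing.liftAlgHom (A := MvPolynomial (Fin (e + 3)) k) (K := LL k e)
    (iotaS_injective k m e)

lemma iota_algebraMap (e : ℕ) (p : MvPolynomial (Fin (e + 3)) k) :
    iota k m e (algebraMap _ (LL k e) p) =
      algebraMap _ (LM k m e) (MvPolynomial.rename (Fin.castAdd m) p) := by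
  rw [iota, IsFractionRing.liftAlgHom_apply, IsFractionRing.lift_algebraMap]
  rfl

lemma iota_injective (e : ℕ) : Function.Injective (iota k m e) :=
  (iota k m e).toRingHom.injective

variable [CharZero k]

noncomputable def qM (e : ℕ) (j : ℕ) : LM k m e := iota k m e (qL k e j)
noncomputable def cM (e : ℕ) : LM k m e := iota k m e (cL k e)
noncomputable def xM (e : ℕ) (j : ℕ) : LM k m e := iota k m e (xL k e j)
noncomputable def aM (e : ℕ) : LM k m e := iota k m e (aL k e)
noncomputable def bM (e : ℕ) : LM k m e := iota k m e (bL k e)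
noncomputable def wM (e : ℕ) (i : Fin m) : LM k m e := vM k m e (Fin.natAdd (e + 3) i)

lemma qM_eq (e : ℕ) (j : ℕ) (hj : j < e + 3) : qM k m e j = vM k m e ⟨j, by omega⟩ := by
  rw [qM, qL, iota_algebraMap, qS, dif_pos hj, MvPolynomial.rename_X]
  rfl

lemma cM_eq (e : ℕ) : cM k m e = vM k m e ⟨e + 2, by omega⟩ := by
  rw [cM, cL, iota_algebraMap, MvPolynomial.rename_X]
  rfl

lemma xM_zero (e : ℕ) : xM k m e 0 = vM k m e ⟨e + 1, by omega⟩ := by
  rw [xM, xL, iota_algebraMap, MvPolynomial.rename_X]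
  rfl

lemma iota_MM (e : ℕ) (j : ℕ) : iota k m e (MM e (qL k e) j) = MM e (qM k m e) j :=
  map_MM (iota k m e).toRingHom e (qL k e) j

lemma xM_succ (e j : ℕ) : xM k m e (j + 1) = cM k m e * MM e (qM k m e) j / xM k m e j ^ e := by
  rw [xM, xL, map_div₀, map_mul, map_pow, iota_MM]
  rfl

lemma xM_ne_zero (e : ℕ) (he : 2 ≤ e) (j : ℕ) (hj : j ≤ e + 1) : xM k m e j ≠ 0 := by
  intro h
  exact xL_ne_zero k e he j hj (iota_injective k m e (h.trans (map_zero _).symm))

lemma cM_ne_zero (e : ℕ) : cM k m e ≠ 0 := by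
  rw [cM_eq]; exact vM_ne_zero _ _ _ _

lemma MMM_ne_zero (e : ℕ) (he : 2 ≤ e) (j : ℕ) (hj : j ≤ e) : MM e (qM k m e) j ≠ 0 := by
  rw [← iota_MM]
  intro h
  exact ML_ne_zero k e he j hj (iota_injective k m e (h.trans (map_zero _).symm))

lemma xM_rel (e : ℕ) (he : 2 ≤ e) (j : ℕ) (hj : j ≤ e) :
    xM k m e j ^ e * xM k m e (j + 1) = cM k m e * MM e (qM k m e) j := by
  rw [xM_succ]
  have := pow_ne_zero e (xM_ne_zero k m e he j (by omega))
  field_simp

lemma aM_eq (e : ℕ) : aM k m e = cM k m e * (WW e (qM k m e)).det := by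
  rw [aM, aL, map_mul]
  congr 1
  exact map_det_WW (iota k m e).toRingHom e (qL k e)

lemma det_WM_ne_zero (e : ℕ) (he : 2 ≤ e) : (WW e (qM k m e)).det ≠ 0 := by
  have h1 : (WW e (qM k m e)).det = iota k m e (WW e (qL k e)).det :=
    (map_det_WW (iota k m e).toRingHom e (qL k e)).symm
  rw [h1]
  intro h
  exact det_WL_ne_zero k e he (iota_injective k m e (h.trans (map_zero _).symm))

lemma det_RMM_ne_zero (e : ℕ) (he : 2 ≤ e) :
    (RM e (qM k m e) (fun j => cM k m e * MM e (qM k m e) j)).det ≠ 0 := by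
  have h1 : (RM e (qM k m e) (fun j => cM k m e * MM e (qM k m e) j)).det =
      iota k m e (RM e (qL k e) (fun j => cL k e * MM e (qL k e) j)).det := by
    have h2 := map_det_RM (iota k m e).toRingHom e (qL k e) (fun j => cL k e * MM e (qL k e) j)
    have h3 : (fun i => (iota k m e).toRingHom (cL k e * MM e (qL k e) i)) =
        fun j => cM k m e * MM e (qM k m e) j := by
      funext j
      rw [map_mul]
      congr 1
      exact iota_MM k m e j
    rw [h3] at h2
    exact h2.symm
  rw [h1]
  intro h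
  exact detL k e he (iota_injective k m e (h.trans (map_zero _).symm))

lemma idM (e : ℕ) : ∑ j ∈ range (e + 1), C (cM k m e * MM e (qM k m e) j) * vv e (qM k m e) j =
    C (aM k m e) * X + C (bM k m e) := by
  have h := congrArg (Polynomial.map (iota k m e).toRingHom) (idL k e)
  rw [Polynomial.map_sum, Polynomial.map_add, Polynomial.map_mul, Polynomial.map_C,
    Polynomial.map_C, Polynomial.map_X] at h
  rw [show C (aM k m e) = C ((iota k m e).toRingHom (aL k e)) from rfl,
    show C (bM k m e) = C ((iota k m e).toRingHom (bL k e)) from rfl, ← h]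
  refine sum_congr rfl fun j _ => ?_
  have h2 : (iota k m e).toRingHom (cL k e * MM e (qL k e) j) =
      cM k m e * MM e (qM k m e) j := by
    rw [map_mul]
    congr 1
    exact iota_MM k m e j
  rw [Polynomial.map_mul, Polynomial.map_C, map_vv, h2]
  rfl

/-- Scaling of one variable, on polynomials. -/
noncomputable def scS (e : ℕ) (u : k) :
    MvPolynomial (Fin (e + 3 + m)) k →ₐ[k] MvPolynomial (Fin (e + 3 + m)) k :=
  MvPolynomial.aeval fun i => if (i : ℕ) = e + 1 then MvPolynomial.C u * MvPolynomial.X i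
    else MvPolynomial.X i

omit [CharZero k] in
lemma scS_X (e : ℕ) (u : k) (i : Fin (e + 3 + m)) : scS k m e u (MvPolynomial.X i) =
    if (i : ℕ) = e + 1 then MvPolynomial.C u * MvPolynomial.X i else MvPolynomial.X i := by
  rw [scS, MvPolynomial.aeval_X]

omit [CharZero k] in
lemma scS_injective (e : ℕ) (u : k) (hu : u ≠ 0) : Function.Injective (scS k m e u) := by
  have h : (scS k m e u⁻¹).comp (scS k m e u) = AlgHom.id k _ := by
    refine MvPolynomial.algHom_ext fun i => ?_
    rw [AlgHom.comp_apply, scS_X, AlgHom.id_apply]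
    split_ifs with hi
    · rw [map_mul, scS_X, if_pos hi]
      have : scS k m e u⁻¹ (MvPolynomial.C u) = MvPolynomial.C u :=
        (scS k m e u⁻¹).commutes u
      rw [this, ← mul_assoc, ← MvPolynomial.C_mul, mul_inv_cancel₀ hu, MvPolynomial.C_1, one_mul]
    · rw [scS_X, if_neg hi]
  intro a b hab
  have h1 := congrArg (scS k m e u⁻¹) hab
  rw [← AlgHom.comp_apply, ← AlgHom.comp_apply, h] at h1
  exact h1

/-- Scaling of one variable by `2`, to the function field. -/
noncomputable def sgS (e : ℕ) : MvPolynomial (Fin (e + 3 + m)) k →ₐ[k] LM k m e :=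
  (Algebra.ofId _ _ : MvPolynomial (Fin (e + 3 + m)) k →ₐ[MvPolynomial (Fin (e + 3 + m)) k]
    LM k m e).restrictScalars k |>.comp (scS k m e 2)

lemma sgS_injective (e : ℕ) : Function.Injective (sgS k m e) := by
  have h : ⇑(sgS k m e) = (algebraMap (MvPolynomial (Fin (e + 3 + m)) k) (LM k m e)) ∘
    (scS k m e 2) := rfl
  rw [h]
  exact (algebraMap_LM_injective k m e).comp (scS_injective k m e 2 two_ne_zero)

/-- Scaling of one variable by `2`, on the function field. -/
noncomputable def sg (e : ℕ) : LM k m e →ₐ[k] LM k m e :=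
  IsFractionRing.liftAlgHom (A := MvPolynomial (Fin (e + 3 + m)) k) (K := LM k m e)
    (sgS_injective k m e)

lemma sg_vM (e : ℕ) (i : Fin (e + 3 + m)) : sg k m e (vM k m e i) =
    if (i : ℕ) = e + 1 then 2 * vM k m e i else vM k m e i := by
  rw [sg, vM, IsFractionRing.liftAlgHom_apply, IsFractionRing.lift_algebraMap]
  have h : sgS k m e (MvPolynomial.X i) = algebraMap _ (LM k m e) (scS k m e 2 (MvPolynomial.X i)) :=
    rfl
  change sgS k m e (MvPolynomial.X i) = _
  rw [h, scS_X]
  split_ifs
  · rw [map_mul]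
    congr 1
    have h2 : (MvPolynomial.C 2 : MvPolynomial (Fin (e + 3 + m)) k) = 2 := map_ofNat _ 2
    rw [h2, map_ofNat]
  · rfl

lemma sg_qM (e : ℕ) (j : ℕ) (hj : j ≤ e) : sg k m e (qM k m e j) = qM k m e j := by
  rw [qM_eq k m e j (by omega), sg_vM, if_neg]
  simp only
  omega

lemma sg_cM (e : ℕ) : sg k m e (cM k m e) = cM k m e := by
  rw [cM_eq, sg_vM, if_neg]
  simp

lemma sg_wM (e : ℕ) (i : Fin m) : sg k m e (wM k m e i) = wM k m e i := by
  rw [wM, sg_vM, if_neg]
  simp only [Fin.val_natAdd]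
  omega

lemma sg_MM (e : ℕ) (j : ℕ) : sg k m e (MM e (qM k m e) j) = MM e (qM k m e) j := by
  have h := map_MM (sg k m e).toRingHom e (qM k m e) j
  rw [MM_congr e (fun i => (sg k m e).toRingHom (qM k m e i)) (qM k m e)
    (fun i hi => sg_qM k m e i hi)] at h
  exact h

lemma sg_det_WW (e : ℕ) : sg k m e (WW e (qM k m e)).det = (WW e (qM k m e)).det := by
  have h := map_det_WW (sg k m e).toRingHom e (qM k m e)
  rw [WW_congr e (fun i => (sg k m e).toRingHom (qM k m e i)) (qM k m e)
    (fun i hi => sg_qM k m e i hi)] at h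
  exact h

lemma sg_aM (e : ℕ) : sg k m e (aM k m e) = aM k m e := by
  rw [aM_eq, map_mul, sg_cM, sg_det_WW]

lemma sg_det_RM (e : ℕ) :
    sg k m e (RM e (qM k m e) (fun j => cM k m e * MM e (qM k m e) j)).det =
      (RM e (qM k m e) (fun j => cM k m e * MM e (qM k m e) j)).det := by
  have h := map_det_RM (sg k m e).toRingHom e (qM k m e) (fun j => cM k m e * MM e (qM k m e) j)
  rw [RM_congr e (fun i => (sg k m e).toRingHom (qM k m e i)) (qM k m e) _
    (fun j => cM k m e * MM e (qM k m e) j) (fun i hi => sg_qM k m e i hi) (fun i hi => by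
      rw [map_mul]
      congr 1
      · exact sg_cM k m e
      · exact sg_MM k m e i)] at h
  exact h

lemma sg_det_minor (e : ℕ) (j : Fin (e + 1)) :
    sg k m e ((RM e (qM k m e) (fun j => cM k m e * MM e (qM k m e) j)).submatrix
      Fin.succ j.succAbove).det =
      ((RM e (qM k m e) (fun j => cM k m e * MM e (qM k m e) j)).submatrix
        Fin.succ j.succAbove).det := by
  have h := det_RM_minor_map (sg k m e).toRingHom e (qM k m e)
    (fun j => cM k m e * MM e (qM k m e) j) j
  rw [RM_congr e (fun i => (sg k m e).toRingHom (qM k m e i)) (qM k m e) _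
    (fun j => cM k m e * MM e (qM k m e) j) (fun i hi => sg_qM k m e i hi) (fun i hi => by
      rw [map_mul]
      congr 1
      · exact sg_cM k m e
      · exact sg_MM k m e i)] at h
  exact h

lemma sg_xM (e : ℕ) (j : ℕ) :
    sg k m e (xM k m e j) = (2 : LM k m e) ^ ((-(e : ℤ)) ^ j) * xM k m e j := by
  induction j with
  | zero =>
    rw [xM_zero, sg_vM, if_pos rfl, pow_zero, zpow_one]
  | succ j ih =>
    rw [xM_succ, map_div₀, map_mul, sg_cM, sg_MM, map_pow, ih, mul_pow, pow_succ,
      zpow_mul, zpow_neg, zpow_natCast, mul_comm (((2 : LM k m e) ^ (-(e : ℤ)) ^ j) ^ e)⁻¹,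
      ← div_eq_mul_inv, div_div, mul_comm (xM k m e j ^ e)]

end Field

end Pool.Agent.H929R2
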