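import Mathlib
import Pool.Agent.H929R2.Fam2

set_option autoImplicit false
set_option maxHeartbeats 400000

namespace Pool.Agent.H929R2

open Polynomial Finset

section Aux

lemma two_zpow_ne_one (k : Type*) [Field k] [CharZero k] (n : ℤ) (hn : n ≠ 0) :
    (2 : k) ^ n ≠ 1 := by
  intro h
  have h1 : (((2 : ℚ) ^ n : ℚ) : k) = ((1 : ℚ) : k) := by
    push_cast
    exact h
  have h2 : (2 : ℚ) ^ n = 1 := by exact_mod_cast h1
  exact hn ((zpow_eq_one_iff_right₀ (by norm_num) (by norm_num)).mp h2)

lemma exp_ne (e j s : ℕ) (he : 2 ≤ e) (hj : j ≤ e) :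
    (-(e : ℤ)) ^ j + (-(e : ℤ)) ^ (e + 1) * s ≠ 0 := by
  intro h
  obtain ⟨r, hr⟩ : ∃ r, e + 1 = j + (r + 1) := ⟨e - j, by omega⟩
  rw [hr, pow_add] at h
  have h1 : (-(e : ℤ)) ^ j * (1 + (-(e : ℤ)) ^ (r + 1) * s) = 0 := by linear_combination h
  have h2 : (-(e : ℤ)) ^ j ≠ 0 := pow_ne_zero _ (by
    have : (e : ℤ) ≠ 0 := by exact_mod_cast (by omega : e ≠ 0)
    exact neg_ne_zero.mpr this)
  have h3 := (mul_eq_zero.mp h1).resolve_left h2
  have h4 : (e : ℤ) ∣ 1 := ⟨(-(e : ℤ)) ^ r * s, by
    rw [pow_succ] at h3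
    linear_combination h3⟩
  have h5 := Int.le_of_dvd one_pos h4
  have : (2 : ℤ) ≤ e := by exact_mod_cast he
  omega

lemma D_aeval_zero {k L N σ : Type*} [Field k] [Field L] [Algebra k L] [AddCommGroup N]
    [Module k N] [Module L N] (D : Derivation k L N) (z : σ → L) (hz : ∀ i, D (z i) = 0)
    (p : MvPolynomial σ k) : D (MvPolynomial.aeval z p) = 0 := by
  induction p using MvPolynomial.induction_on with
  | C a => rw [MvPolynomial.aeval_C, Derivation.map_algebraMap]
  | add p q hp hq => rw [map_add, map_add, hp, hq, add_zero]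
  | mul_X p i hp =>
    rw [map_mul, Derivation.leibniz, hp, MvPolynomial.aeval_X, hz, smul_zero, smul_zero, add_zero]

end Aux

section Field

variable (k : Type*) [Field k] [CharZero k] (m : ℕ)

/-- The coordinates which are constant along the lines. -/
noncomputable def zM (e : ℕ) : Fin (m + 1) → LM k m e :=
  Fin.cons (xM k m e (e + 1)) (wM k m e)

lemma sg_zM (e : ℕ) (s : Fin (m + 1) →₀ ℕ) :
    sg k m e (∏ i, zM k m e i ^ s i) =
      (2 : LM k m e) ^ ((-(e : ℤ)) ^ (e + 1) * (s 0 : ℤ)) * ∏ i, zM k m e i ^ s i := by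
  rw [map_prod, Fin.prod_univ_succ, Fin.prod_univ_succ]
  simp only [zM, Fin.cons_zero, Fin.cons_succ, map_pow, sg_wM, sg_xM]
  rw [mul_pow, zpow_mul, zpow_natCast]
  ring

lemma nonvanish (e : ℕ) (he : 2 ≤ e) (H : ℕ → MvPolynomial (Fin (m + 1)) k) (A : LM k m e)
    (hA : sg k m e A = A) (hA0 : A ≠ 0) (κ : ℕ → LM k m e)
    (hκ : ∀ j ≤ e, sg k m e (κ j) = κ j) :
    A + ∑ j ∈ range (e + 1), κ j * (xM k m e j * MvPolynomial.aeval (zM k m e) (H j)) ≠ 0 := by
  classical
  intro h
  apply hA0
  refine eigen_sum (sg k m e).toLinearMap ((range (e + 1)).sigma fun j => (H j).support) A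
    (fun p => κ p.1 * (xM k m e p.1 * (algebraMap k (LM k m e) (MvPolynomial.coeff p.2 (H p.1)) *
      ∏ i, zM k m e i ^ p.2 i)))
    (fun p => (2 : k) ^ ((-(e : ℤ)) ^ p.1 + (-(e : ℤ)) ^ (e + 1) * ((p.2 0 : ℕ) : ℤ))) hA ?_ ?_ ?_
  · rintro ⟨j, s⟩ hp
    rw [mem_sigma, mem_range] at hp
    rw [AlgHom.toLinearMap_apply, map_mul, map_mul, map_mul, AlgHom.commutes, sg_zM, sg_xM,
      hκ j (by have := hp.1; simp only at this; omega), Algebra.smul_def, map_zpow₀, map_ofNat,
      zpow_add₀ two_ne_zero]
    ring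
  · rintro ⟨j, s⟩ hp
    rw [mem_sigma, mem_range] at hp
    exact two_zpow_ne_one k _ (exp_ne e j _ he (by have := hp.1; simp only at this; omega))
  · rw [← h, sum_sigma]
    congr 1
    refine sum_congr rfl fun j _ => ?_
    rw [MvPolynomial.aeval_def, MvPolynomial.eval₂_eq', mul_sum, mul_sum]

/-- The coefficients of the linear part. -/
noncomputable def etaM (e : ℕ) (H : ℕ → MvPolynomial (Fin (m + 1)) k) (j : ℕ) : LM k m e :=
  MvPolynomial.aeval (zM k m e) (H j)

/-- The constant part. -/
noncomputable def gamM (e : ℕ) (G : MvPolynomial (Fin (m + 1)) k) : LM k m e :=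
  MvPolynomial.aeval (zM k m e) G

/-- The slope. -/
noncomputable def aM' (e : ℕ) (H : ℕ → MvPolynomial (Fin (m + 1)) k) : LM k m e :=
  aM k m e + ∑ j ∈ range (e + 1), xM k m e j * etaM k m e H j

/-- The constant term. -/
noncomputable def bM' (e : ℕ) (H : ℕ → MvPolynomial (Fin (m + 1)) k)
    (G : MvPolynomial (Fin (m + 1)) k) : LM k m e :=
  bM k m e + ∑ j ∈ range (e + 1), xM k m e j * qM k m e j * etaM k m e H j + gamM k m e G

/-- The parameter of the residual point. -/
noncomputable def tM (e : ℕ) (H : ℕ → MvPolynomial (Fin (m + 1)) k)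
    (G : MvPolynomial (Fin (m + 1)) k) : LM k m e := -bM' k m e H G / aM' k m e H

/-- The coordinates of the residual point. -/
noncomputable def YM (e : ℕ) (H : ℕ → MvPolynomial (Fin (m + 1)) k)
    (G : MvPolynomial (Fin (m + 1)) k) (j : ℕ) : LM k m e :=
  if j ≤ e then xM k m e j * (tM k m e H G + qM k m e j) else xM k m e j

lemma aM'_ne_zero (e : ℕ) (he : 2 ≤ e) (H : ℕ → MvPolynomial (Fin (m + 1)) k) :
    aM' k m e H ≠ 0 := by
  have h := nonvanish k m e he H (aM k m e) (sg_aM k m e) (by
    rw [aM_eq]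
    exact mul_ne_zero (cM_ne_zero k m e) (det_WM_ne_zero k m e he)) (fun _ => 1)
    (fun _ _ => map_one _)
  simp only [one_mul] at h
  exact h

lemma det_RM'_ne_zero (e : ℕ) (he : 2 ≤ e) (H : ℕ → MvPolynomial (Fin (m + 1)) k) :
    (RM' e (qM k m e) (fun j => cM k m e * MM e (qM k m e) j)
      (fun j => xM k m e j * etaM k m e H j)).det ≠ 0 := by
  rw [det_RM']
  have h := nonvanish k m e he H _ (sg_det_RM k m e) (det_RMM_ne_zero k m e he)
    (fun j => if hj : j < e + 1 then (-1) ^ j *
      ((RM e (qM k m e) (fun j => cM k m e * MM e (qM k m e) j)).submatrix Fin.succ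
        (Fin.succAbove (⟨j, hj⟩ : Fin (e + 1)))).det else 0)
    (fun j hj => by
      rw [dif_pos (Nat.lt_succ_of_le hj), map_mul, map_pow, map_neg, map_one, sg_det_minor])
  rw [← Fin.sum_univ_eq_sum_range (fun j => (if hj : j < e + 1 then (-1) ^ j *
      ((RM e (qM k m e) (fun j => cM k m e * MM e (qM k m e) j)).submatrix Fin.succ
        (Fin.succAbove (⟨j, hj⟩ : Fin (e + 1)))).det else 0) *
      (xM k m e j * MvPolynomial.aeval (zM k m e) (H j))) (e + 1)] at h
  convert h using 3
  rename_i j _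
  rw [dif_pos j.2, etaM]
  ring

lemma tM_rel (e : ℕ) (he : 2 ≤ e) (H : ℕ → MvPolynomial (Fin (m + 1)) k)
    (G : MvPolynomial (Fin (m + 1)) k) :
    aM' k m e H * tM k m e H G + bM' k m e H G = 0 := by
  have := aM'_ne_zero k m e he H
  rw [tM]
  field_simp
  ring

/-- The residual point lies on the hypersurface. -/
lemma fam_YM (e : ℕ) (he : 2 ≤ e) (H : ℕ → MvPolynomial (Fin (m + 1)) k)
    (G : MvPolynomial (Fin (m + 1)) k) :
    famVal e (YM k m e H G) (etaM k m e H) (gamM k m e G) = 0 := by
  have h1 := congrArg (Polynomial.eval (tM k m e H G)) (idM k m e)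
  rw [eval_finsetSum] at h1
  simp only [eval_mul, eval_C, eval_add, eval_X] at h1
  have hy : ∀ j ≤ e + 1, YM k m e H G j = xM k m e j *
      (ell e (qM k m e) j).eval (tM k m e H G) := by
    intro j hj
    unfold YM ell
    split_ifs <;> simp
  have h2 : ∑ j ∈ range (e + 1), YM k m e H G j ^ e * YM k m e H G (j + 1) =
      ∑ j ∈ range (e + 1), (cM k m e * MM e (qM k m e) j) *
        (vv e (qM k m e) j).eval (tM k m e H G) := by
    refine sum_congr rfl fun j hj => ?_
    have hj' : j ≤ e := Nat.lt_succ_iff.mp (mem_range.mp hj)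
    rw [← xM_rel k m e he j hj', vv, eval_mul, eval_pow, hy j (by omega), hy (j + 1) (by omega)]
    ring
  have h3 : ∑ j ∈ range (e + 1), YM k m e H G j * etaM k m e H j =
      (∑ j ∈ range (e + 1), xM k m e j * etaM k m e H j) * tM k m e H G +
        ∑ j ∈ range (e + 1), xM k m e j * qM k m e j * etaM k m e H j := by
    rw [sum_mul, ← sum_add_distrib]
    refine sum_congr rfl fun j hj => ?_
    rw [YM, if_pos (Nat.lt_succ_iff.mp (mem_range.mp hj))]
    ring
  have h4 := tM_rel k m e he H G
  rw [famVal, h2, h3, h1]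
  rw [aM', bM'] at h4
  linear_combination h4

/-- A derivation killing the coordinates, the slope and the parameter is zero. -/
lemma deriv_zero' {e : ℕ} (he : 2 ≤ e) (H : ℕ → MvPolynomial (Fin (m + 1)) k)
    (G : MvPolynomial (Fin (m + 1)) k) {N : Type*} [AddCommGroup N] [Module k N]
    [Module (LM k m e) N]
    (D : Derivation k (LM k m e) N) (hY : ∀ j ≤ e + 1, D (YM k m e H G j) = 0)
    (hw : ∀ i, D (wM k m e i) = 0) (hA : D (aM' k m e H) = 0)
    (ht : D (tM k m e H G) = 0) (z : LM k m e) : D z = 0 := by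
  have hxl : D (xM k m e (e + 1)) = 0 := by
    have := hY (e + 1) le_rfl
    rwa [YM, if_neg (by omega)] at this
  have hz : ∀ i, D (zM k m e i) = 0 := by
    intro i
    refine Fin.cases ?_ (fun i => ?_) i
    · exact hxl
    · exact hw i
  have hη : ∀ j, D (etaM k m e H j) = 0 := fun j => D_aeval_zero D _ hz _
  have hγ : D (gamM k m e G) = 0 := D_aeval_zero D _ hz _
  obtain ⟨hx, hq⟩ := deriv_kill' e he (qM k m e) (fun j => cM k m e * MM e (qM k m e) j)
    (xM k m e) (etaM k m e H) (aM k m e) (bM k m e) (gamM k m e G) (tM k m e H G)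
    (fun j hj => mul_ne_zero (cM_ne_zero k m e) (MMM_ne_zero k m e he j hj)) (idM k m e)
    (fun j hj => xM_rel k m e he j hj) (tM_rel k m e he H G) (det_RM'_ne_zero k m e he H) D
    (fun j _ => hη j) hγ
    (fun j hj => by
      have := hY j (by omega)
      rwa [YM, if_pos hj] at this) hxl hA ht
  -- the kernel of `D` as a subring
  let T : Subring (LM k m e) :=
    { carrier := {a | D a = 0}
      mul_mem' := by
        intro a b ha hb
        simp only [Set.mem_ofPred_eq] at ha hb ⊢
        rw [Derivation.leibniz, ha, hb, smul_zero, smul_zero, add_zero]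
      one_mem' := D.map_one_eq_zero
      add_mem' := by
        intro a b ha hb
        simp only [Set.mem_ofPred_eq] at ha hb ⊢
        rw [map_add, ha, hb, add_zero]
      zero_mem' := map_zero D
      neg_mem' := by
        intro a ha
        simp only [Set.mem_ofPred_eq] at ha ⊢
        rw [map_neg, ha, neg_zero] }
  have hdet : D (WW e (qM k m e)).det = 0 := by
    set q' : ℕ → T := fun j => if h : j ≤ e then ⟨qM k m e j, hq j h⟩ else 0 with hq'
    have h1 : WW e (qM k m e) = WW e (fun j => T.subtype (q' j)) := by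
      refine WW_congr e _ _ fun j hj => ?_
      simp only [hq', dif_pos hj]
      rfl
    rw [h1, ← map_det_WW]
    exact ((WW e q').det).2
  have haM : D (aM k m e) = 0 := by
    rw [aM', map_add, map_sum, sum_eq_zero, add_zero] at hA
    · exact hA
    · intro j hj
      rw [Derivation.leibniz, hη j, hx j (Nat.lt_succ_iff.mp (mem_range.mp hj)), smul_zero,
        smul_zero, add_zero]
  have hc : D (cM k m e) = 0 := by
    rw [aM_eq, Derivation.leibniz, hdet, smul_zero, zero_add] at haM
    exact (smul_eq_zero.mp haM).resolve_left (det_WM_ne_zero k m e he)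
  have hX : ∀ i : Fin (e + 3 + m), D (vM k m e i) = 0 := by
    intro i
    rcases i with ⟨i, hi⟩
    rcases Nat.lt_or_ge e i with h | h
    · rcases Nat.lt_or_ge (e + 1) i with h2 | h2
      · rcases Nat.lt_or_ge (e + 2) i with h3 | h3
        · have := hw ⟨i - (e + 3), by omega⟩
          rw [wM] at this
          have h4 : Fin.natAdd (e + 3) (⟨i - (e + 3), by omega⟩ : Fin m) = ⟨i, hi⟩ := by
            apply Fin.ext
            simp only [Fin.val_natAdd]
            omega
          rwa [h4] at this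
        · have : i = e + 2 := by omega
          subst this
          rw [cM_eq] at hc
          exact hc
      · have : i = e + 1 := by omega
        subst this
        have := hx 0 (by omega)
        rwa [xM_zero] at this
    · have := hq i h
      rwa [qM_eq k m e i (by omega)] at this
  have hS : ∀ p : MvPolynomial (Fin (e + 3 + m)) k, D (algebraMap _ (LM k m e) p) = 0 := by
    intro p
    induction p using MvPolynomial.induction_on with
    | C a =>
      have : algebraMap (MvPolynomial (Fin (e + 3 + m)) k) (LM k m e) (MvPolynomial.C a) =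
          algebraMap k (LM k m e) a := by
        rw [IsScalarTower.algebraMap_apply k (MvPolynomial (Fin (e + 3 + m)) k) (LM k m e)]
        rfl
      rw [this, Derivation.map_algebraMap]
    | add p q hp hq => rw [map_add, map_add, hp, hq, add_zero]
    | mul_X p i hp =>
      have := hX i
      rw [vM] at this
      rw [map_mul, Derivation.leibniz, hp, this, smul_zero, smul_zero, add_zero]
  obtain ⟨a, b, hb, rfl⟩ := IsFractionRing.div_surjective (A := MvPolynomial (Fin (e + 3 + m)) k) z
  have hb0 : algebraMap (MvPolynomial (Fin (e + 3 + m)) k) (LM k m e) b ≠ 0 := by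
    intro h
    have := algebraMap_LM_injective k m e (h.trans (map_zero _).symm)
    exact (nonZeroDivisors.ne_zero hb) this
  have h1 : D (algebraMap _ (LM k m e) b * (algebraMap _ (LM k m e) a / algebraMap _ (LM k m e) b)) =
      0 := by
    rw [mul_div_cancel₀ _ hb0]
    exact hS a
  rw [Derivation.leibniz, hS b, smul_zero, add_zero] at h1
  exact (smul_eq_zero.mp h1).resolve_left hb0

end Field

end Pool.Agent.H929R2
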