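import Mathlib
import Pool.Agent.H929R2.Fam3

set_option autoImplicit false
set_option maxHeartbeats 400000

namespace Pool.Agent.H929R2

open Polynomial Finset

universe u

variable (k : Type u) [Field k] [CharZero k] (m : ℕ)

/-- The candidate transcendence basis. -/
noncomputable def basM (e : ℕ) (H : ℕ → MvPolynomial (Fin (m + 1)) k)
    (G : MvPolynomial (Fin (m + 1)) k) (i : Fin (e + 3 + m)) : LM k m e :=
  if (i : ℕ) < e then YM k m e H G i else if (i : ℕ) = e then xM k m e (e + 1) else
  if (i : ℕ) = e + 1 then aM' k m e H else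
  if h : (i : ℕ) - (e + 3) < m ∧ e + 2 < (i : ℕ) then wM k m e ⟨(i : ℕ) - (e + 3), h.1⟩ else
    tM k m e H G

variable (e : ℕ) (H : ℕ → MvPolynomial (Fin (m + 1)) k) (G : MvPolynomial (Fin (m + 1)) k)

/-- The field generated by the candidate transcendence basis. -/
noncomputable def KM : IntermediateField k (LM k m e) :=
  IntermediateField.adjoin k (Set.range (basM k m e H G))

lemma basM_mem (i : Fin (e + 3 + m)) : basM k m e H G i ∈ KM k m e H G :=
  IntermediateField.subset_adjoin k _ ⟨i, rfl⟩

lemma YM_mem (j : ℕ) (hj : j < e) : YM k m e H G j ∈ KM k m e H G := by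
  have := basM_mem k m e H G ⟨j, by omega⟩
  rw [basM, if_pos hj] at this
  exact this

lemma xM_last_mem : xM k m e (e + 1) ∈ KM k m e H G := by
  have := basM_mem k m e H G ⟨e, by omega⟩
  rw [basM, if_neg (by simp), if_pos rfl] at this
  exact this

lemma aM'_mem : aM' k m e H ∈ KM k m e H G := by
  have := basM_mem k m e H G ⟨e + 1, by omega⟩
  rw [basM, if_neg (by simp), if_neg (by simp), if_pos rfl] at this
  exact this

lemma tM_mem : tM k m e H G ∈ KM k m e H G := by
  have := basM_mem k m e H G ⟨e + 2, by omega⟩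
  rw [basM, if_neg (by simp), if_neg (by simp), if_neg (by simp), dif_neg (by simp)] at this
  exact this

lemma basM_w (i : Fin m) (h : e + 3 + (i : ℕ) < e + 3 + m) :
    basM k m e H G ⟨e + 3 + (i : ℕ), h⟩ = wM k m e i := by
  rw [basM, if_neg (by simp only; omega), if_neg (by simp only; omega),
    if_neg (by simp only; omega), dif_pos ⟨by simp, by simp only; omega⟩]
  congr 1
  apply Fin.ext
  simp

lemma wM_mem (i : Fin m) : wM k m e i ∈ KM k m e H G := by
  have := basM_mem k m e H G ⟨e + 3 + (i : ℕ), by omega⟩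
  rwa [basM_w] at this

lemma zM_mem (i : Fin (m + 1)) : zM k m e i ∈ KM k m e H G := by
  refine Fin.cases ?_ (fun i => ?_) i
  · exact xM_last_mem k m e H G
  · exact wM_mem k m e H G i

lemma aeval_mem (p : MvPolynomial (Fin (m + 1)) k) :
    MvPolynomial.aeval (zM k m e) p ∈ KM k m e H G := by
  induction p using MvPolynomial.induction_on with
  | C a =>
    rw [MvPolynomial.aeval_C]
    exact (KM k m e H G).algebraMap_mem a
  | add p q hp hq => rw [map_add]; exact add_mem hp hq
  | mul_X p i hp => rw [map_mul, MvPolynomial.aeval_X]; exact mul_mem hp (zM_mem k m e H G i)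

/-- The remaining coordinate is algebraic over the others. -/
lemma YM_algebraic (he : 2 ≤ e) : IsAlgebraic (KM k m e H G) (YM k m e H G e) := by
  obtain ⟨f, rfl⟩ : ∃ f, e = f + 1 := ⟨e - 1, by omega⟩
  have h := fam_YM k m (f + 1) he H G
  have hb0 : YM k m (f + 1) H G f ^ (f + 1) + etaM k m (f + 1) H (f + 1) ∈
      KM k m (f + 1) H G :=
    add_mem (pow_mem (YM_mem k m (f + 1) H G f (by omega)) _) (aeval_mem k m (f + 1) H G _)
  have hc0 : ∑ j ∈ range f, YM k m (f + 1) H G j ^ (f + 1) * YM k m (f + 1) H G (j + 1) +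
      ∑ j ∈ range (f + 1), YM k m (f + 1) H G j * etaM k m (f + 1) H j +
      gamM k m (f + 1) G ∈ KM k m (f + 1) H G := by
    refine add_mem (add_mem (sum_mem fun j hj => ?_) (sum_mem fun j hj => ?_))
      (aeval_mem k m (f + 1) H G _)
    · have := mem_range.mp hj
      exact mul_mem (pow_mem (YM_mem k m (f + 1) H G j (by omega)) _)
        (YM_mem k m (f + 1) H G (j + 1) (by omega))
    · have := mem_range.mp hj
      exact mul_mem (YM_mem k m (f + 1) H G j (by omega)) (aeval_mem k m (f + 1) H G _)
  set a : KM k m (f + 1) H G := ⟨_, xM_last_mem k m (f + 1) H G⟩ with ha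
  set b : KM k m (f + 1) H G := ⟨_, hb0⟩ with hb
  set c : KM k m (f + 1) H G := ⟨_, hc0⟩ with hc
  have ha0 : a ≠ 0 := by
    intro h0
    have := congrArg (algebraMap (KM k m (f + 1) H G) (LM k m (f + 1))) h0
    rw [map_zero] at this
    exact xM_ne_zero k m (f + 1) he (f + 1 + 1) le_rfl this
  refine ⟨C a * X ^ (f + 1) + (C b * X + C c), ?_, ?_⟩
  · intro h0
    have h1 := congrArg (fun p => coeff p (f + 1)) h0
    simp only [coeff_add, coeff_C_mul, coeff_X_pow, if_true, coeff_X, coeff_C, coeff_zero] at h1
    rw [if_neg (by omega), if_neg (by omega), mul_one, mul_zero, add_zero, add_zero] at h1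
    exact ha0 h1
  · have h1 : algebraMap (KM k m (f + 1) H G) (LM k m (f + 1)) a = xM k m (f + 1) (f + 1 + 1) := rfl
    have h2 : algebraMap (KM k m (f + 1) H G) (LM k m (f + 1)) b =
      YM k m (f + 1) H G f ^ (f + 1) + etaM k m (f + 1) H (f + 1) := rfl
    have h3 : algebraMap (KM k m (f + 1) H G) (LM k m (f + 1)) c =
      ∑ j ∈ range f, YM k m (f + 1) H G j ^ (f + 1) * YM k m (f + 1) H G (j + 1) +
      ∑ j ∈ range (f + 1), YM k m (f + 1) H G j * etaM k m (f + 1) H j +
      gamM k m (f + 1) G := rfl
    simp only [map_add, map_mul, map_pow, aeval_X, aeval_C, h1, h2, h3]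
    rw [famVal, sum_range_succ, sum_range_succ, sum_range_succ _ (f + 1)] at h
    have h4 : YM k m (f + 1) H G (f + 1 + 1) = xM k m (f + 1) (f + 1 + 1) := by
      rw [YM, if_neg (by omega)]
    rw [h4] at h
    rw [← h]
    ring

/-- The function field is algebraic over the field generated by the candidate basis. -/
lemma algebraic_KM (he : 2 ≤ e) : Algebra.IsAlgebraic (KM k m e H G) (LM k m e) := by
  let K2 := algebraicClosure (KM k m e H G) (LM k m e)
  have htower : IsScalarTower k K2 (LM k m e) := IsScalarTower.of_algebraMap_eq fun _ => rfl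
  have hK : ∀ z ∈ KM k m e H G, z ∈ K2 := fun z hz => K2.algebraMap_mem ⟨z, hz⟩
  have hmem : ∀ j ≤ e + 1, YM k m e H G j ∈ K2 := by
    intro j hj
    rcases Nat.lt_or_ge j e with h | h
    · exact hK _ (YM_mem k m e H G j h)
    · rcases Nat.lt_or_ge e j with h2 | h2
      · have : j = e + 1 := by omega
        subst this
        rw [YM, if_neg (by omega)]
        exact hK _ (xM_last_mem k m e H G)
      · have : j = e := by omega
        subst this
        exact mem_algebraicClosure_iff.mpr (YM_algebraic k m j H G he)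
  have hunr : Algebra.FormallyUnramified K2 (LM k m e) := by
    constructor
    have hD : ∀ z : LM k m e, KaehlerDifferential.D K2 (LM k m e) z = 0 := by
      intro z
      have hkill : ∀ a ∈ K2, KaehlerDifferential.D K2 (LM k m e) a = 0 := by
        intro a ha
        have := (KaehlerDifferential.D K2 (LM k m e)).map_algebraMap ⟨a, ha⟩
        exact this
      exact deriv_zero' k m he H G ((KaehlerDifferential.D K2 (LM k m e)).restrictScalars k)
        (fun j hj => hkill _ (hmem j hj)) (fun i => hkill _ (hK _ (wM_mem k m e H G i)))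
        (hkill _ (hK _ (aM'_mem k m e H G))) (hkill _ (hK _ (tM_mem k m e H G))) z
    have hspan := KaehlerDifferential.span_range_derivation K2 (LM k m e)
    have hrange : Set.range (KaehlerDifferential.D K2 (LM k m e)) ⊆ {0} := by
      rintro _ ⟨z, rfl⟩
      exact hD z
    have htop : (⊤ : Submodule (LM k m e) (Ω[LM k m e⁄K2])) = ⊥ := by
      rw [← hspan, eq_bot_iff, Submodule.span_le]
      intro z hz
      exact hrange hz
    exact (Submodule.subsingleton_iff (LM k m e)).mp (subsingleton_of_bot_eq_top htop.symm)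
  have hess : Algebra.EssFiniteType k (LM k m e) := inferInstance
  have hess2 : Algebra.EssFiniteType K2 (LM k m e) := Algebra.EssFiniteType.of_comp k K2 (LM k m e)
  have hsep : Algebra.IsSeparable K2 (LM k m e) := Algebra.FormallyUnramified.isSeparable K2 (LM k m e)
  have halg : Algebra.IsAlgebraic K2 (LM k m e) := inferInstance
  have halg2 : Algebra.IsAlgebraic (KM k m e H G) K2 := inferInstance
  exact Algebra.IsAlgebraic.trans (KM k m e H G) K2 (LM k m e)

open scoped IntermediateField.algebraAdjoinAdjoin in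
lemma algebraic_adjoinM (he : 2 ≤ e) :
    Algebra.IsAlgebraic (Algebra.adjoin k (Set.range (basM k m e H G))) (LM k m e) := by
  have h1 : Algebra.IsAlgebraic (IntermediateField.adjoin k (Set.range (basM k m e H G)))
      (LM k m e) := algebraic_KM k m e H G he
  exact (IsFractionRing.comap_isAlgebraic_iff (A := Algebra.adjoin k (Set.range (basM k m e H G)))
    (K := IntermediateField.adjoin k (Set.range (basM k m e H G)))).mpr h1

omit [CharZero k] in
lemma trdeg_LM : Algebra.trdeg k (LM k m e) = (e + 3 + m : ℕ) := by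
  have h0 : Algebra.IsAlgebraic (MvPolynomial (Fin (e + 3 + m)) k) (LM k m e) :=
    (IsFractionRing.comap_isAlgebraic_iff (K := LM k m e)).mpr inferInstance
  have h1 : IsTranscendenceBasis k (algebraMap (MvPolynomial (Fin (e + 3 + m)) k) (LM k m e) ∘
      MvPolynomial.X) := (IsTranscendenceBasis.mvPolynomial (Fin (e + 3 + m)) k).algebraMap_comp
  have h2 := h1.lift_cardinalMk_eq_trdeg
  simp at h2
  rw [← h2]
  simp

/-- The candidate basis is a transcendence basis. -/
theorem basM_isTranscendenceBasis (he : 2 ≤ e) :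
    IsTranscendenceBasis k (basM k m e H G) := by
  have := algebraic_adjoinM k m e H G he
  refine Algebra.IsAlgebraic.isTranscendenceBasis_of_lift_le_trdeg_of_finite k (basM k m e H G) ?_
  rw [trdeg_LM]
  simp

/-- The coordinates of the generic residual point. -/
noncomputable def coordM (i : Fin (e + 1 + m + 1)) : LM k m e :=
  if (i : ℕ) ≤ e then YM k m e H G i else
    if h : (i : ℕ) - (e + 1) < m + 1 then zM k m e ⟨(i : ℕ) - (e + 1), h⟩ else 0

/-- All coordinates but one are algebraically independent. -/
theorem coordM_algebraicIndependent (he : 2 ≤ e) :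
    AlgebraicIndependent k (fun j : Fin (e + 1 + m) =>
      coordM k m e H G ((⟨e, by omega⟩ : Fin (e + 1 + m + 1)).succAbove j)) := by
  have h1 := (basM_isTranscendenceBasis k m e H G he).1
  set ν : Fin (e + 1 + m) → Fin (e + 3 + m) := fun j =>
    if h : (j : ℕ) ≤ e then ⟨j, by omega⟩ else ⟨(j : ℕ) + 2, by omega⟩ with hν
  have hνinj : Function.Injective ν := by
    intro a b hab
    simp only [hν] at hab
    apply Fin.ext
    split_ifs at hab with h1 h2 h2 <;> have := congrArg Fin.val hab <;> simp only at this <;> omega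
  have h2 := h1.comp ν hνinj
  convert h2 using 1
  funext j
  rw [Function.comp_apply]
  rcases lt_trichotomy (j : ℕ) e with h | h | h
  · have h3 : ((⟨e, by omega⟩ : Fin (e + 1 + m + 1)).succAbove j) = j.castSucc :=
      Fin.succAbove_of_castSucc_lt _ _ (by rw [Fin.lt_def]; exact h)
    simp only [hν, dif_pos h.le]
    rw [h3, coordM, basM, if_pos (by simpa using h.le), if_pos (by simpa using h)]
    rfl
  · have h3 : ((⟨e, by omega⟩ : Fin (e + 1 + m + 1)).succAbove j) = j.succ :=
      Fin.succAbove_of_le_castSucc _ _ (by rw [Fin.le_def]; exact h.ge)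
    simp only [hν, dif_pos h.le]
    rw [h3, coordM, basM, if_neg (by simp [h]), if_neg (by simp [h]), if_pos (by simp [h]),
      dif_pos (by simp [h])]
    have h4 : (⟨((j.succ : Fin (e + 1 + m + 1)) : ℕ) - (e + 1), by simp [h]⟩ : Fin (m + 1)) = 0 := by
      apply Fin.ext
      simp [h]
    rw [h4, zM, Fin.cons_zero]
  · have h3 : ((⟨e, by omega⟩ : Fin (e + 1 + m + 1)).succAbove j) = j.succ :=
      Fin.succAbove_of_le_castSucc _ _ (by rw [Fin.le_def]; exact h.le)
    have hj := j.2
    simp only [hν, dif_neg (not_le.mpr h)]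
    have h5 : (⟨(j : ℕ) + 2, by omega⟩ : Fin (e + 3 + m)) =
        ⟨e + 3 + ((⟨(j : ℕ) - (e + 1), by omega⟩ : Fin m) : ℕ), by simp only; omega⟩ := by
      apply Fin.ext
      simp only
      omega
    rw [h3, coordM, if_neg (by simp only [Fin.val_succ]; omega),
      dif_pos (by simp only [Fin.val_succ]; omega), h5, basM_w]
    have h4 : (⟨((j.succ : Fin (e + 1 + m + 1)) : ℕ) - (e + 1), by
        simp only [Fin.val_succ]; omega⟩ : Fin (m + 1)) =
        (⟨(j : ℕ) - (e + 1), by omega⟩ : Fin m).succ := by
      apply Fin.ext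
      simp only [Fin.val_succ]
      omega
    rw [h4, zM, Fin.cons_succ]

end Pool.Agent.H929R2
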