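import Mathlib

set_option autoImplicit false
set_option maxHeartbeats 400000

namespace Pool.Agent.H929R2

open MvPolynomial Finset

section Kernel

variable {k L : Type*} [Field k] [Field L] [Algebra k L]

lemma aeval_finSucc {n : ℕ} (z : Fin (n + 1) → L) (G : MvPolynomial (Fin (n + 1)) k) :
    aeval z G = Polynomial.eval₂ (aeval (fun j : Fin n => z j.succ) : MvPolynomial (Fin n) k →ₐ[k] L).toRingHom
      (z 0) (finSuccEquiv k n G) := by
  induction G using MvPolynomial.induction_on with
  | C a =>
    rw [finSuccEquiv_apply, eval₂Hom_C]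
    simp
  | add p q hp hq => rw [map_add, map_add, Polynomial.eval₂_add, hp, hq]
  | mul_X p i hp =>
    rw [map_mul, map_mul, Polynomial.eval₂_mul, hp, aeval_X]
    congr 1
    refine Fin.cases ?_ (fun j => ?_) i
    · rw [finSuccEquiv_X_zero, Polynomial.eval₂_X]
    · rw [finSuccEquiv_X_succ, Polynomial.eval₂_C]
      simp

/-- If all coordinates but the zeroth are algebraically independent, an irreducible relation
generates all relations. -/
theorem dvd_of_aeval_eq_zero {n : ℕ} (F : MvPolynomial (Fin (n + 1)) k) (hF : Irreducible F)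
    (z : Fin (n + 1) → L) (hz : aeval z F = 0)
    (hind : AlgebraicIndependent k (fun j : Fin n => z j.succ))
    (G : MvPolynomial (Fin (n + 1)) k) (hG : aeval z G = 0) : F ∣ G := by
  set φ : MvPolynomial (Fin n) k →+* L :=
    (aeval (fun j : Fin n => z j.succ) : MvPolynomial (Fin n) k →ₐ[k] L).toRingHom with hφ
  have hφinj : Function.Injective φ := hind
  set P := finSuccEquiv k n F with hP
  set Q := finSuccEquiv k n G with hQ
  have hPz : Polynomial.eval₂ φ (z 0) P = 0 := by rw [← aeval_finSucc, hz]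
  have hQz : Polynomial.eval₂ φ (z 0) Q = 0 := by rw [← aeval_finSucc, hG]
  have hPirr : Irreducible P := (MulEquiv.irreducible_iff (finSuccEquiv k n)).mpr hF
  have hPdeg : P.natDegree ≠ 0 := by
    intro h
    obtain ⟨a, ha⟩ := Polynomial.natDegree_eq_zero.mp h
    rw [← ha, Polynomial.eval₂_C] at hPz
    have : a = 0 := hφinj (hPz.trans (map_zero φ).symm)
    rw [this, Polynomial.C_0] at ha
    exact hPirr.ne_zero ha.symm
  have hPprim : P.IsPrimitive := hPirr.isPrimitive hPdeg
  let K0 := FractionRing (MvPolynomial (Fin n) k)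
  have hPK : Irreducible (P.map (algebraMap (MvPolynomial (Fin n) k) K0)) :=
    (hPprim.irreducible_iff_irreducible_map_fraction_map (K := K0)).mp hPirr
  let ψ : K0 →+* L := IsFractionRing.lift (A := MvPolynomial (Fin n) k) (K := K0) hφinj
  have hψ : ψ.comp (algebraMap (MvPolynomial (Fin n) k) K0) = φ := by
    ext x <;> simp [ψ]
  suffices h : P ∣ Q by
    have h1 := map_dvd (finSuccEquiv k n).symm h
    rw [hP, hQ, AlgEquiv.symm_apply_apply, AlgEquiv.symm_apply_apply] at h1
    exact h1
  refine hPprim.dvd_of_fraction_map_dvd_fraction_map (K := K0) ?_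
  by_contra hnd
  have hcop := (hPK.coprime_iff_not_dvd).mpr hnd
  obtain ⟨u, v, huv⟩ := hcop
  have h1 := congrArg (Polynomial.eval₂ ψ (z 0)) huv
  rw [Polynomial.eval₂_add, Polynomial.eval₂_mul, Polynomial.eval₂_mul, Polynomial.eval₂_map,
    Polynomial.eval₂_map, hψ, hPz, hQz, mul_zero, mul_zero, add_zero, Polynomial.eval₂_one] at h1
  exact zero_ne_one h1

/-- The same, with the last coordinate singled out. -/
theorem dvd_of_aeval_eq_zero' {n : ℕ} (F : MvPolynomial (Fin (n + 1)) k) (hF : Irreducible F)
    (z : Fin (n + 1) → L) (hz : aeval z F = 0)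
    (hind : AlgebraicIndependent k (fun j : Fin n => z j.castSucc))
    (G : MvPolynomial (Fin (n + 1)) k) (hG : aeval z G = 0) : F ∣ G := by
  set ρ : MvPolynomial (Fin (n + 1)) k ≃ₐ[k] MvPolynomial (Fin (n + 1)) k :=
    renameEquiv k Fin.revPerm with hρ
  have hval : ∀ H : MvPolynomial (Fin (n + 1)) k, aeval (fun i => z (Fin.rev i)) (ρ H) =
      aeval z H := by
    intro H
    rw [hρ, renameEquiv_apply, aeval_rename]
    congr 2
    funext i
    simp
  have h1 : ρ F ∣ ρ G := by
    refine dvd_of_aeval_eq_zero (ρ F) ((MulEquiv.irreducible_iff ρ).mpr hF)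
      (fun i => z (Fin.rev i)) ?_ ?_ (ρ G) ?_
    · rw [hval, hz]
    · have h2 := hind.comp (Fin.rev) Fin.rev_injective
      have h3 : (fun j : Fin n => z j.castSucc) ∘ Fin.rev = fun j : Fin n => z (Fin.rev j.succ) := by
        funext j
        simp [Fin.rev_succ]
      rwa [h3] at h2
    · rw [hval, hG]
  have h2 := map_dvd ρ.symm h1
  rwa [AlgEquiv.symm_apply_apply, AlgEquiv.symm_apply_apply] at h2

end Kernel

end Pool.Agent.H929R2
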