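import Mathlib
import Pool.Agent.H929R2.Kernel

set_option autoImplicit false
set_option maxHeartbeats 400000

namespace Pool.Agent.H929R2

open MvPolynomial Finset

section KernelAt

variable {k L : Type*} [Field k] [Field L] [Algebra k L]

/-- If all coordinates but one are algebraically independent, an irreducible relation
generates all relations. -/
theorem dvd_of_aeval_eq_zero_at {n : ℕ} (i0 : Fin (n + 1)) (F : MvPolynomial (Fin (n + 1)) k)
    (hF : Irreducible F) (z : Fin (n + 1) → L) (hz : aeval z F = 0)
    (hind : AlgebraicIndependent k (fun j : Fin n => z (i0.succAbove j)))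
    (G : MvPolynomial (Fin (n + 1)) k) (hG : aeval z G = 0) : F ∣ G := by
  set ρ : MvPolynomial (Fin (n + 1)) k ≃ₐ[k] MvPolynomial (Fin (n + 1)) k :=
    renameEquiv k i0.cycleRange with hρ
  have hval : ∀ H : MvPolynomial (Fin (n + 1)) k,
      aeval (fun i => z (i0.cycleRange.symm i)) (ρ H) = aeval z H := by
    intro H
    rw [hρ, renameEquiv_apply, aeval_rename]
    congr 2
    funext i
    simp
  have h1 : ρ F ∣ ρ G := by
    refine dvd_of_aeval_eq_zero (ρ F) ((MulEquiv.irreducible_iff ρ).mpr hF)
      (fun i => z (i0.cycleRange.symm i)) ?_ ?_ (ρ G) ?_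
    · rw [hval, hz]
    · have h3 : (fun j : Fin n => z (i0.cycleRange.symm j.succ)) =
          fun j : Fin n => z (i0.succAbove j) := by
        funext j
        rw [Fin.cycleRange_symm_succ]
      rw [h3]
      exact hind
    · rw [hval, hG]
  have h2 := map_dvd ρ.symm h1
  rwa [AlgEquiv.symm_apply_apply, AlgEquiv.symm_apply_apply] at h2

end KernelAt

section Weighted

variable {k σ : Type*} [Field k]

/-- The substitution `X i ↦ X i * T ^ (w i)`. -/
noncomputable def wHom (w : σ → ℕ) : MvPolynomial σ k →ₐ[k] Polynomial (MvPolynomial σ k) :=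
  aeval fun i => Polynomial.C (X i) * Polynomial.X ^ w i

lemma wHom_X (w : σ → ℕ) (i : σ) : wHom (k := k) w (X i) = Polynomial.C (X i) * Polynomial.X ^ w i := by
  rw [wHom, aeval_X]

lemma wHom_C (w : σ → ℕ) (a : k) : wHom (k := k) w (C a) = Polynomial.C (C a) := by
  rw [wHom, aeval_C]
  rfl

lemma eval_one_wHom (w : σ → ℕ) (f : MvPolynomial σ k) : (wHom w f).eval 1 = f := by
  induction f using MvPolynomial.induction_on with
  | C a => rw [wHom_C, Polynomial.eval_C]
  | add p q hp hq => rw [map_add, Polynomial.eval_add, hp, hq]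
  | mul_X p i hp => rw [map_mul, Polynomial.eval_mul, hp, wHom_X]; simp

lemma wHom_monomial (w : σ → ℕ) (s : σ →₀ ℕ) (a : k) :
    ∃ N, wHom w (monomial s a) = Polynomial.C (monomial s a) * Polynomial.X ^ N := by
  refine MvPolynomial.induction_on_monomial
    (motive := fun f => ∃ N, wHom (k := k) w f = Polynomial.C f * Polynomial.X ^ N) ?_ ?_ s a
  · intro a
    exact ⟨0, by rw [wHom_C, pow_zero, mul_one]⟩
  · rintro p i ⟨N, hN⟩
    refine ⟨N + w i, ?_⟩
    rw [map_mul, hN, wHom_X, map_mul]
    ring

lemma wHom_coeff (w : σ → ℕ) (f : MvPolynomial σ k) (n : ℕ) :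
    wHom w ((wHom w f).coeff n) = Polynomial.C ((wHom w f).coeff n) * Polynomial.X ^ n := by
  induction f using MvPolynomial.monomial_add_induction_on with
  | C a =>
    rw [wHom_C, Polynomial.coeff_C]
    split_ifs with h
    · rw [wHom_C, h, pow_zero, mul_one]
    · simp
  | monomial_add s a p _ _ hp =>
    obtain ⟨N, hN⟩ := wHom_monomial w s a
    have h1 : wHom w ((wHom w (monomial s a)).coeff n) =
        Polynomial.C ((wHom w (monomial s a)).coeff n) * Polynomial.X ^ n := by
      rw [hN, Polynomial.coeff_C_mul, Polynomial.coeff_X_pow]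
      split_ifs with h
      · rw [mul_one, hN, h]
      · rw [mul_zero, map_zero, map_zero, zero_mul]
    rw [map_add (wHom w), Polynomial.coeff_add, map_add (wHom w), hp, h1,
      map_add Polynomial.C, add_mul]

/-- A polynomial whose top weighted part is irreducible is irreducible. -/
theorem irreducible_of_leadingCoeff_wHom (w : σ → ℕ) (f : MvPolynomial σ k)
    (h : Irreducible (wHom w f).leadingCoeff) : Irreducible f := by
  have key : ∀ a : MvPolynomial σ k, IsUnit (wHom w a).leadingCoeff → IsUnit a := by
    intro a ha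
    rw [MvPolynomial.isUnit_iff_eq_C_of_isReduced] at ha
    obtain ⟨u, hu, hau⟩ := ha
    have h1 := wHom_coeff w a (wHom w a).natDegree
    rw [Polynomial.leadingCoeff] at hau
    rw [hau, wHom_C] at h1
    have h2 : (wHom w a).natDegree = 0 := by
      by_contra hne
      have h3 := congrArg (Polynomial.coeff · 0) h1
      simp only [Polynomial.coeff_C_zero, Polynomial.coeff_C_mul, Polynomial.coeff_X_pow] at h3
      rw [if_neg (fun h => hne h.symm), mul_zero] at h3
      exact hu.ne_zero (C_injective _ _ (h3.trans (map_zero _).symm))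
    have h4 := Polynomial.eq_C_of_natDegree_eq_zero h2
    have h5 := eval_one_wHom w a
    rw [h4, Polynomial.eval_C, ← h2, hau] at h5
    rw [← h5]
    exact hu.map C
  refine ⟨fun hu => h.not_isUnit ?_, fun a b hab => ?_⟩
  · rw [MvPolynomial.isUnit_iff_eq_C_of_isReduced] at hu
    obtain ⟨u, hu, rfl⟩ := hu
    rw [wHom_C, Polynomial.leadingCoeff_C]
    exact hu.map C
  · rw [hab, map_mul, Polynomial.leadingCoeff_mul] at h
    rcases h.isUnit_or_isUnit rfl with h1 | h1
    · exact Or.inl (key a h1)
    · exact Or.inr (key b h1)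

end Weighted

end Pool.Agent.H929R2
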