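import Mathlib

set_option autoImplicit false
set_option maxHeartbeats 400000

namespace Pool.Agent.H929R2

open MvPolynomial Finset

section

variable (k : Type*) [Field k]

/-- The chain form `∑ x_j ^ e x_{j+1} + x_n ^ (e+1)` in the variables `x_0, …, x_n`. -/
noncomputable def chainForm (e n : ℕ) : MvPolynomial (Fin (n + 1)) k :=
  ∑ j : Fin n, X j.castSucc ^ e * X j.succ + X (Fin.last n) ^ (e + 1)

lemma chainForm_isHomogeneous (e n : ℕ) : (chainForm k e n).IsHomogeneous (e + 1) := by
  refine IsHomogeneous.add (IsHomogeneous.sum _ _ _ fun j _ => ?_) (isHomogeneous_X_pow _ _)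
  have h1 := isHomogeneous_X_pow (R := k) j.castSucc e
  have h2 := isHomogeneous_X k j.succ
  exact h1.mul h2

lemma finSucc_chainForm (e n : ℕ) : finSuccEquiv k (n + 1) (chainForm k e (n + 1)) =
    Polynomial.C (X 0) * Polynomial.X ^ e + Polynomial.C (chainForm k e n) := by
  rw [chainForm, Fin.sum_univ_succ]
  simp only [map_add, map_mul, map_pow, map_sum, Fin.castSucc_zero, finSuccEquiv_X_zero,
    finSuccEquiv_X_succ, ← Fin.succ_castSucc, ← Fin.succ_last, chainForm]
  ring

end

section Eisenstein

variable {R : Type*} [CommRing R] [IsDomain R]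

lemma irreducible_eisenstein (e : ℕ) (he : 1 ≤ e) (a b p : R) (hp : Prime p) (hpa : ¬ p ∣ a)
    (hpb : p ∣ b) (hpb2 : ¬ p ^ 2 ∣ b) (hab : ∀ r, r ∣ a → r ∣ b → IsUnit r) :
    Irreducible (Polynomial.C a * Polynomial.X ^ e + Polynomial.C b) := by
  have ha : a ≠ 0 := by rintro rfl; exact hpa (dvd_zero _)
  have hdeg : (Polynomial.C a * Polynomial.X ^ e + Polynomial.C b).natDegree = e := by
    rw [Polynomial.natDegree_add_C, Polynomial.natDegree_C_mul_X_pow e a ha]
  have hlc : (Polynomial.C a * Polynomial.X ^ e + Polynomial.C b).leadingCoeff = a := by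
    rw [Polynomial.leadingCoeff, hdeg, Polynomial.coeff_add, Polynomial.coeff_C_mul_X_pow,
      if_pos rfl, Polynomial.coeff_C, if_neg (by omega), add_zero]
  have hc0 : (Polynomial.C a * Polynomial.X ^ e + Polynomial.C b).coeff 0 = b := by
    rw [Polynomial.coeff_add, Polynomial.coeff_C_mul_X_pow, if_neg (by omega), Polynomial.coeff_C,
      if_pos rfl, zero_add]
  have hne : (Polynomial.C a * Polynomial.X ^ e + Polynomial.C b) ≠ 0 := by
    intro h
    rw [h, Polynomial.leadingCoeff_zero] at hlc
    exact ha hlc.symm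
  refine Polynomial.irreducible_of_eisenstein_criterion
    (P := Ideal.span {p}) ((Ideal.span_singleton_prime hp.ne_zero).mpr hp) ?_ ?_ ?_ ?_ ?_
  · rw [hlc, Ideal.mem_span_singleton]
    exact hpa
  · intro n hn
    rw [Polynomial.degree_eq_natDegree hne, hdeg] at hn
    have hn' : n < e := by exact_mod_cast hn
    rw [Polynomial.coeff_add, Polynomial.coeff_C_mul_X_pow, if_neg (by omega), zero_add,
      Polynomial.coeff_C]
    split_ifs
    · exact Ideal.mem_span_singleton.mpr hpb
    · exact Ideal.zero_mem _
  · rw [Polynomial.degree_eq_natDegree hne, hdeg]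
    exact_mod_cast he
  · rw [hc0, Ideal.span_singleton_pow, Ideal.mem_span_singleton]
    exact hpb2
  · intro r hr
    rw [Polynomial.C_dvd_iff_dvd_coeff] at hr
    refine hab r ?_ ?_
    · have := hr e
      rw [Polynomial.coeff_add, Polynomial.coeff_C_mul_X_pow, if_pos rfl, Polynomial.coeff_C,
        if_neg (by omega), add_zero] at this
      exact this
    · have := hr 0
      rw [hc0] at this
      exact this

end Eisenstein

section

variable (k : Type*) [Field k]

lemma eval_chainForm (e n : ℕ) (x : Fin (n + 1) → k) : eval x (chainForm k e n) =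
    ∑ j : Fin n, x j.castSucc ^ e * x j.succ + x (Fin.last n) ^ (e + 1) := by
  simp [chainForm]

lemma not_dvd_of_eval {n : ℕ} {p q : MvPolynomial (Fin n) k} (x : Fin n → k) (hp : eval x p = 0)
    (hq : eval x q ≠ 0) : ¬ p ∣ q := by
  rintro ⟨r, rfl⟩
  apply hq
  rw [map_mul, hp, zero_mul]

lemma X_relPrime {n : ℕ} (i : Fin n) (b : MvPolynomial (Fin n) k) (h : ¬ X i ∣ b)
    (r : MvPolynomial (Fin n) k) (hr : r ∣ X i) (hrb : r ∣ b) : IsUnit r := by
  obtain ⟨s, hs⟩ := hr
  rcases (X_prime (R := k) (i := i)).irreducible.isUnit_or_isUnit hs with h1 | h1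
  · exact h1
  · exfalso
    apply h
    have : Associated r (X i) := ⟨h1.unit, by rw [IsUnit.unit_spec]; exact hs.symm⟩
    exact this.symm.dvd.trans hrb

/-- The chain form in at least three variables is irreducible. -/
lemma chainForm_irreducible (e : ℕ) (he : 1 ≤ e) (n : ℕ) : Irreducible (chainForm k e (n + 2)) := by
  induction n with
  | zero =>
    change Irreducible (chainForm k e (1 + 1))
    rw [← MulEquiv.irreducible_iff (finSuccEquiv k (1 + 1)), finSucc_chainForm]
    have hb : chainForm k e 1 = X 1 * (X 0 ^ e + X 1 ^ e) := by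
      simp only [chainForm, univ_unique, Fin.default_eq_zero, Fin.castSucc_zero,
        sum_singleton]
      have h1 : Fin.succ (0 : Fin 1) = 1 := rfl
      have h2 : Fin.last 1 = 1 := rfl
      rw [h1, h2]
      ring
    have hv : ∀ x : Fin 2 → k, x = ![x 0, x 1] := by
      intro x
      ext i
      fin_cases i <;> rfl
    refine irreducible_eisenstein e he (X 0) _ (X 1) X_prime ?_ ?_ ?_ ?_
    · refine not_dvd_of_eval k ![1, 0] ?_ ?_ <;> simp
    · rw [hb]; exact dvd_mul_right _ _
    · rw [hb, pow_two]
      intro h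
      have h1 := (mul_dvd_mul_iff_left (X_ne_zero (1 : Fin 2))).mp h
      refine not_dvd_of_eval k ![1, 0] ?_ ?_ h1
      · simp
      · simp [show e ≠ 0 by omega]
    · refine X_relPrime k 0 _ ?_
      rw [hb]
      refine not_dvd_of_eval k ![0, 1] ?_ ?_
      · simp
      · simp [show e ≠ 0 by omega]
  | succ n ih =>
    change Irreducible (chainForm k e ((n + 2) + 1))
    rw [← MulEquiv.irreducible_iff (finSuccEquiv k ((n + 2) + 1)), finSucc_chainForm]
    refine irreducible_eisenstein e he (X 0) _ (chainForm k e (n + 2)) ih.prime ?_ dvd_rfl ?_ ?_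
    · refine not_dvd_of_eval k (Pi.single 0 1) ?_ ?_
      · rw [eval_chainForm]
        have h1 : ∀ j : Fin (n + 2), (Pi.single (0 : Fin (n + 2 + 1)) (1 : k) : _ → k) j.succ = 0 := by
          intro j
          rw [Pi.single_eq_of_ne (Fin.succ_ne_zero j)]
        simp only [h1, mul_zero, sum_const_zero, zero_add]
        rw [← Fin.succ_last, h1, zero_pow (by omega)]
      · simp
    · rw [pow_two]
      intro h
      have h1 : chainForm k e (n + 2) * chainForm k e (n + 2) ∣ chainForm k e (n + 2) * 1 := by
        rwa [mul_one]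
      have h2 := (mul_dvd_mul_iff_left ih.ne_zero).mp h1
      exact ih.not_isUnit (isUnit_of_dvd_one h2)
    · refine X_relPrime k 0 _ ?_
      refine not_dvd_of_eval k (Pi.single (Fin.last (n + 2)) 1) ?_ ?_
      · rw [eval_X, Pi.single_eq_of_ne]
        exact (Fin.last_pos).ne
      · rw [eval_chainForm]
        have h1 : ∀ j : Fin (n + 2),
            (Pi.single (Fin.last (n + 2)) (1 : k) : Fin (n + 2 + 1) → k) j.castSucc = 0 := by
          intro j
          rw [Pi.single_eq_of_ne (Fin.castSucc_lt_last j).ne]
        simp [h1, show e ≠ 0 by omega]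

end

section Smooth

variable {k : Type*} [Field k]

/-- Extension of a vector by zero. -/
def ext0 {n : ℕ} (x : Fin (n + 1) → k) (m : ℕ) : k := if h : m < n + 1 then x ⟨m, h⟩ else 0

lemma eval_pderiv_chainForm (e n : ℕ) (x : Fin (n + 1) → k) (m : ℕ) (hm : m < n + 1) :
    eval x (pderiv ⟨m, hm⟩ (chainForm k e n)) =
      (if m < n then (e : k) * ext0 x m ^ (e - 1) * ext0 x (m + 1) else 0) +
      (if 1 ≤ m then ext0 x (m - 1) ^ e else 0) +
      (if m = n then ((e : k) + 1) * ext0 x n ^ e else 0) := by
  have hc : ∀ j : Fin n, x j.castSucc = ext0 x j := by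
    intro j
    have := j.2
    rw [ext0, dif_pos (by omega)]
    rfl
  have hs : ∀ j : Fin n, x j.succ = ext0 x (j + 1) := by
    intro j
    have := j.2
    rw [ext0, dif_pos (by omega)]
    rfl
  have hl : x (Fin.last n) = ext0 x n := by
    rw [ext0, dif_pos (by omega)]
    rfl
  rw [chainForm, map_add, map_sum, map_add, map_sum]
  congr 1
  · have h1 : ∀ j : Fin n, eval x (pderiv ⟨m, hm⟩ (X j.castSucc ^ e * X j.succ)) =
        (if m = (j : ℕ) then (e : k) * ext0 x j ^ (e - 1) * ext0 x (j + 1) else 0) +
        (if m = (j : ℕ) + 1 then ext0 x j ^ e else 0) := by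
      intro j
      rw [pderiv_mul, pderiv_pow, pderiv_X, pderiv_X, ← hc, ← hs]
      simp only [Pi.single_apply, map_add, map_mul, map_pow, eval_X, map_natCast]
      have e1 : (j.castSucc = (⟨m, hm⟩ : Fin (n + 1))) ↔ m = (j : ℕ) := by
        rw [Fin.ext_iff]; simp [eq_comm]
      have e2 : (j.succ = (⟨m, hm⟩ : Fin (n + 1))) ↔ m = (j : ℕ) + 1 := by
        rw [Fin.ext_iff]; simp [eq_comm]
      simp only [e1, e2]
      split_ifs <;> simp
    rw [sum_congr rfl fun j _ => h1 j, sum_add_distrib]
    congr 1
    · rw [Fin.sum_univ_eq_sum_range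
        (fun j => if m = j then (e : k) * ext0 x j ^ (e - 1) * ext0 x (j + 1) else 0) n,
        sum_ite_eq]
      simp only [mem_range]
    · rw [Fin.sum_univ_eq_sum_range (fun j => if m = j + 1 then ext0 x j ^ e else 0) n]
      rcases m with _ | m
      · simp
      · simp only [add_left_inj, sum_ite_eq, mem_range]
        rw [if_pos (by omega), if_pos (by omega), Nat.add_sub_cancel]
  · rw [pderiv_pow, pderiv_X, ← hl]
    simp only [Pi.single_apply, map_mul, map_pow, eval_X, map_natCast, Nat.add_sub_cancel]
    have e1 : (Fin.last n = (⟨m, hm⟩ : Fin (n + 1))) ↔ m = n := by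
      rw [Fin.ext_iff]; simp [eq_comm]
    simp only [e1]
    split_ifs <;> simp

/-- The chain form is smooth in characteristic zero. -/
lemma chainForm_smooth [CharZero k] (e n : ℕ) (he : 2 ≤ e) (x : Fin (n + 1) → k)
    (h : ∀ i, eval x (pderiv i (chainForm k e n)) = 0) : x = 0 := by
  have he0 : (e : k) ≠ 0 := by
    have : e ≠ 0 := by omega
    exact_mod_cast this
  have he1 : (e : k) + 1 ≠ 0 := by exact_mod_cast Nat.succ_ne_zero e
  have key : ∀ m, m ≤ n → ext0 x m = 0 := by
    intro m
    induction m using Nat.strong_induction_on with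
    | _ m ih =>
      intro hm
      have h1 := h ⟨m, by omega⟩
      rw [eval_pderiv_chainForm] at h1
      have h2 : (if 1 ≤ m then ext0 x (m - 1) ^ e else 0) = 0 := by
        split_ifs with h3
        · rw [ih (m - 1) (by omega) (by omega), zero_pow (by omega)]
        · rfl
      rw [h2, add_zero] at h1
      rcases Nat.lt_or_ge m n with hlt | hge
      · rw [if_pos hlt, if_neg (by omega), add_zero] at h1
        by_contra hne
        have h3 : ext0 x (m + 1) = 0 := by
          rcases mul_eq_zero.mp h1 with h4 | h4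
          · exact absurd h4 (mul_ne_zero he0 (pow_ne_zero _ hne))
          · exact h4
        have h5 := h ⟨m + 1, by omega⟩
        rw [eval_pderiv_chainForm, h3, if_pos (by omega : 1 ≤ m + 1), Nat.add_sub_cancel] at h5
        have h6 : (if m + 1 < n then (e : k) * 0 ^ (e - 1) * ext0 x (m + 1 + 1) else 0) = 0 := by
          split_ifs
          · rw [zero_pow (by omega), mul_zero, zero_mul]
          · rfl
        have h7 : (if m + 1 = n then ((e : k) + 1) * ext0 x n ^ e else 0) = 0 := by
          split_ifs with h8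
          · have h9 : ext0 x n = ext0 x (m + 1) := by rw [h8]
            rw [h9, h3, zero_pow (by omega), mul_zero]
          · rfl
        rw [h6, h7, zero_add, add_zero] at h5
        exact hne (pow_eq_zero_iff (by omega) |>.mp h5)
      · have hmn : m = n := le_antisymm hm hge
        rw [if_neg (by omega), if_pos hmn, zero_add] at h1
        have := (mul_eq_zero.mp h1).resolve_left he1
        rw [hmn]
        exact pow_eq_zero_iff (by omega) |>.mp this
  funext i
  have := key i (by have := i.2; omega)
  rw [ext0, dif_pos i.2] at this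
  exact this

end Smooth

end Pool.Agent.H929R2
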