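import Mathlib

set_option autoImplicit false

namespace Pool.Agent.H929R2.UniK

open MvPolynomial

universe u

variable {K : Type u} [Field K]

/-- `(g_0, …, g_n)` represents a rational map `ℙᴹ ⇢ ℙⁿ` over `K`: the `g_i` are forms over `K` of
one and the same degree `e` in the `M + 1` homogeneous coordinates of `ℙᴹ`, not all zero. -/
def IsRationalMap {M n : ℕ} (e : ℕ) (g : Fin (n + 1) → MvPolynomial (Fin (M + 1)) K) : Prop :=
  (∀ i, (g i).IsHomogeneous e) ∧ ∃ i, g i ≠ 0

/-- The rational map `g : ℙᴹ ⇢ ℙⁿ` over `K` is a dominant rational map to the hypersurface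
`V(F) ⊂ ℙⁿ`: `F` vanishes on the image (as a polynomial identity `F(g_0, …, g_n) = 0`), and every
form over `K` which vanishes on the image is a multiple of `F`. -/
def IsDominantTo {M n : ℕ} (g : Fin (n + 1) → MvPolynomial (Fin (M + 1)) K)
    (F : MvPolynomial (Fin (n + 1)) K) : Prop :=
  aeval g F = 0 ∧ ∀ (r : ℕ) (G : MvPolynomial (Fin (n + 1)) K), G.IsHomogeneous r →
    aeval g G = 0 → F ∣ G

/-- The hypersurface `V(F) ⊂ ℙⁿ` over `K` is irreducible and unirational over `K`: there is a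
dominant rational map `ℙᴹ ⇢ V(F)` over `K` for some `M`. -/
def IsUnirational {n : ℕ} (F : MvPolynomial (Fin (n + 1)) K) : Prop :=
  Irreducible F ∧ ∃ (M e : ℕ) (g : Fin (n + 1) → MvPolynomial (Fin (M + 1)) K),
    IsRationalMap e g ∧ IsDominantTo g F

/-- The `K`-rational points of the hypersurface `V(F) ⊂ ℙⁿ` are Zariski dense in it: a form over
`K` which vanishes at all `K`-rational points of `V(F)` is a multiple of `F`. -/
def HasDensePoints {n : ℕ} (F : MvPolynomial (Fin (n + 1)) K) : Prop :=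
  ∀ (r : ℕ) (G : MvPolynomial (Fin (n + 1)) K), G.IsHomogeneous r →
    (∀ x : Fin (n + 1) → K, x ≠ 0 → eval x F = 0 → eval x G = 0) → F ∣ G

/-- The hypersurface `V(F) ⊂ ℙⁿ` over `K` is smooth: over no extension field `Ω` of `K` is there
a point at which all partial derivatives of `F` vanish. -/
def IsSmooth {n : ℕ} (F : MvPolynomial (Fin (n + 1)) K) : Prop :=
  ∀ (Ω : Type u) [Field Ω] [Algebra K Ω] (x : Fin (n + 1) → Ω),
    (∀ i, aeval x (pderiv i F) = 0) → x = 0

/-- The form `∑_{j < d} a_j x_j^(d-1) x_{j+1} + ∑_{j < d} x_j H_j(y) + G(y)` in the variables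
`x_0, …, x_{d-1}, y_0, …, y_m`, where `x_d` stands for `y_0`. It lives on `ℙ^(d+m)`; the
variables are numbered in this order, so that `x_j` is `X ⟨j, _⟩` and `y_i` is `X ⟨d + i, _⟩`. -/
noncomputable def famForm (d m : ℕ) (a : Fin d → K) (H : Fin d → MvPolynomial (Fin (m + 1)) K)
    (G : MvPolynomial (Fin (m + 1)) K) : MvPolynomial (Fin (d + m + 1)) K :=
  ∑ j : Fin d, C (a j) * X ⟨j, by omega⟩ ^ (d - 1) * X ⟨j + 1, by omega⟩ +
  ∑ j : Fin d, X ⟨j, by omega⟩ * rename (fun i : Fin (m + 1) => ⟨d + i, by omega⟩) (H j) +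
  rename (fun i : Fin (m + 1) => ⟨d + i, by omega⟩) G

end Pool.Agent.H929R2.UniK
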