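import Mathlib
import Pool.Agent.H929R2.Fam5
import Pool.Agent.H929R2.Form
import Pool.Agent.H929R2.UniKDefs

set_option autoImplicit false
set_option maxHeartbeats 400000

namespace Pool.Agent.H929R2

open MvPolynomial Finset UniK

universe u

section Top

variable (K : Type u) [Field K]

/-- The chain part of the form. -/
noncomputable def topForm (e m : ℕ) : MvPolynomial (Fin (e + 1 + m + 1)) K :=
  ∑ j : Fin (e + 1), X ⟨j, by omega⟩ ^ e * X ⟨j + 1, by omega⟩

lemma topForm_irreducible (e m : ℕ) (he : 2 ≤ e) : Irreducible (topForm K e m) := by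
  set g : MvPolynomial (Fin (e + 1 + m + 1)) K :=
    ∑ j : Fin e, X ⟨j, by omega⟩ ^ e * X ⟨j + 1, by omega⟩ with hg
  have h1 : topForm K e m = X ⟨e, by omega⟩ ^ e * X ⟨e + 1, by omega⟩ + g := by
    exact (Fin.sum_univ_castSucc _).trans (add_comm _ _)
  rw [h1]
  have hvg : ∀ i ∈ g.vars, (i : ℕ) ≤ e := by
    intro i hi
    have h2 := vars_sum_subset _ _ hi
    rw [mem_biUnion] at h2
    obtain ⟨j, _, hj⟩ := h2
    have h3 := vars_mul _ _ hj
    rw [mem_union, vars_X, mem_singleton] at h3
    rcases h3 with h3 | h3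
    · have h4 := vars_pow _ _ h3
      rw [vars_X, mem_singleton] at h4
      rw [h4]
      simp only
      omega
    · rw [h3]
      simp only
      omega
  refine irreducible_mul_X_add _ _ _ (pow_ne_zero _ (X_ne_zero _)) ?_ ?_ ?_
  · intro h
    have h4 := vars_pow _ _ h
    rw [vars_X, mem_singleton, Fin.mk.injEq] at h4
    omega
  · intro h
    have := hvg _ h
    simp only at this
    omega
  · refine IsRelPrime.pow_left ?_
    refine (X_prime (R := K)).irreducible.isRelPrime_iff_not_dvd.mpr ?_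
    refine not_dvd_of_eval K (fun i => if (i : ℕ) ≤ 1 then 1 else 0) ?_ ?_
    · rw [eval_X, if_neg (by simp only; omega)]
    · rw [hg, map_sum]
      obtain ⟨f, rfl⟩ : ∃ f, e = f + 1 := ⟨e - 1, by omega⟩
      rw [Fin.sum_univ_succ, sum_eq_zero]
      · simp
      · intro j _
        rw [map_mul, eval_X, if_neg (by simp only [Fin.val_succ]; omega), mul_zero]

/-- The weights. -/
def wt (e : ℕ) (j : ℕ) : ℕ :=
  if e < j then 0 else if Even (e - j) then e ^ (e + 1) + e ^ j else e ^ (e + 1) - e ^ j

lemma wt_rel (e : ℕ) (he : 2 ≤ e) (j : ℕ) (hj : j ≤ e) :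
    wt e j * e + wt e (j + 1) = (e + 1) * e ^ (e + 1) := by
  have hle : ∀ j, j ≤ e + 1 → e ^ j ≤ e ^ (e + 1) := fun j hj => Nat.pow_le_pow_right (by omega) hj
  have h3 : (e + 1) * e ^ (e + 1) = e ^ (e + 1 + 1) + e ^ (e + 1) := by ring
  have a1 : ¬ e < j := by omega
  rcases Nat.lt_or_ge j e with h | h
  · have a2 : ¬ e < j + 1 := by omega
    have hpar : Even (e - j) ↔ ¬ Even (e - (j + 1)) := by
      have : e - j = e - (j + 1) + 1 := by omega
      rw [this, Nat.even_add_one]
    by_cases h1 : Even (e - (j + 1))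
    · have h4 : ¬ Even (e - j) := by rw [hpar, not_not]; exact h1
      simp only [wt, if_neg a1, if_neg a2, if_pos h1, if_neg h4]
      rw [Nat.sub_mul, ← pow_succ, ← pow_succ]
      have h2 : e ^ (j + 1) ≤ e ^ (e + 1 + 1) := Nat.pow_le_pow_right (by omega) (by omega)
      rw [h3]
      omega
    · simp only [wt, if_neg a1, if_neg a2, if_neg h1, if_pos (hpar.mpr h1)]
      rw [Nat.add_mul, ← pow_succ, ← pow_succ]
      have h2 := hle (j + 1) (by omega)
      rw [h3]
      omega
  · have : j = e := by omega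
    subst this
    have a2 : j < j + 1 := by omega
    have a3 : Even (j - j) := by rw [Nat.sub_self]; exact Even.zero
    simp only [wt, if_neg a1, if_pos a2, if_pos a3]
    ring

lemma wt_lt (e : ℕ) (he : 2 ≤ e) (j : ℕ) : wt e j < (e + 1) * e ^ (e + 1) := by
  have hpos : 0 < e ^ (e + 1) := pow_pos (by omega) _
  have h3 : (e + 1) * e ^ (e + 1) = e * e ^ (e + 1) + e ^ (e + 1) := by ring
  have h4 : 2 * e ^ (e + 1) ≤ e * e ^ (e + 1) := Nat.mul_le_mul_right _ he
  unfold wt
  split_ifs with h1 h2
  · omega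
  · have h5 : e ^ j ≤ e ^ (e + 1) := Nat.pow_le_pow_right (by omega) (by omega)
    omega
  · omega

lemma wHom_natDegree_rename {σ τ : Type*} (w : τ → ℕ) (φ : σ → τ) (hφ : ∀ i, w (φ i) = 0)
    (p : MvPolynomial σ K) : wHom w (rename φ p) = Polynomial.C (rename φ p) := by
  induction p using MvPolynomial.induction_on with
  | C a => rw [rename_C, wHom_C]
  | add p q hp hq => rw [map_add, map_add, hp, hq, map_add]
  | mul_X p i hp => rw [map_mul, map_mul, hp, rename_X, wHom_X, hφ, pow_zero, mul_one, map_mul]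

/-- The form of the family is irreducible. -/
theorem famForm_one_irreducible (e m : ℕ) (he : 2 ≤ e) (H : Fin (e + 1) → MvPolynomial (Fin (m + 1)) K)
    (G : MvPolynomial (Fin (m + 1)) K) : Irreducible (famForm (e + 1) m (fun _ => 1) H G) := by
  set w : Fin (e + 1 + m + 1) → ℕ := fun i => wt e i with hw
  set ω : ℕ := (e + 1) * e ^ (e + 1) with hω
  have hy : ∀ i : Fin (m + 1), w (⟨e + 1 + i, by omega⟩ : Fin (e + 1 + m + 1)) = 0 := by
    intro i
    simp only [hw, wt]
    rw [if_pos (by omega)]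
  have hG := wHom_natDegree_rename K w (fun i : Fin (m + 1) => ⟨e + 1 + i, by omega⟩) hy G
  have hH := fun j => wHom_natDegree_rename K w (fun i : Fin (m + 1) => ⟨e + 1 + i, by omega⟩) hy (H j)
  set R : Polynomial (MvPolynomial (Fin (e + 1 + m + 1)) K) :=
    ∑ j : Fin (e + 1), Polynomial.C (X ⟨j, by omega⟩) * Polynomial.X ^ wt e j *
      Polynomial.C (rename (fun i : Fin (m + 1) => (⟨e + 1 + i, by omega⟩ : Fin (e + 1 + m + 1)))
        (H j)) +
      Polynomial.C (rename (fun i : Fin (m + 1) => (⟨e + 1 + i, by omega⟩ :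
        Fin (e + 1 + m + 1))) G) with hR
  have hF : wHom w (famForm (e + 1) m (fun _ => 1) H G) =
      R + Polynomial.C (topForm K e m) * Polynomial.X ^ ω := by
    rw [famForm, map_add, map_add, hG, map_sum, map_sum, hR, topForm, map_sum, sum_mul]
    simp only [map_mul, map_pow, wHom_X, hH, map_one, one_mul, Nat.add_sub_cancel]
    have h1 : ∀ j : Fin (e + 1), (Polynomial.C (X ⟨j, by omega⟩ : MvPolynomial (Fin (e + 1 + m + 1)) K) *
        Polynomial.X ^ w ⟨j, by omega⟩) ^ e *
        (Polynomial.C (X ⟨j + 1, by omega⟩) * Polynomial.X ^ w ⟨j + 1, by omega⟩) =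
        Polynomial.C (X ⟨j, by omega⟩) ^ e * Polynomial.C (X ⟨j + 1, by omega⟩) *
          Polynomial.X ^ ω := by
      intro j
      have h2 := wt_rel e he j (by omega)
      rw [hω, ← h2, mul_pow, ← pow_mul, pow_add]
      simp only [hw]
      ring
    rw [sum_congr rfl fun j _ => h1 j]
    ring
  have hT0 : topForm K e m ≠ 0 := (topForm_irreducible K e m he).ne_zero
  have hωpos : 0 < ω := (Nat.zero_le _).trans_lt (wt_lt e he 0)
  have hdeg : R.natDegree < ω := by
    have h1 : R.natDegree ≤ ω - 1 := by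
      rw [hR]
      refine Polynomial.natDegree_add_le_of_degree_le (Polynomial.natDegree_sum_le_of_forall_le _ _
        fun j _ => ?_) ?_
      · have h2 := wt_lt e he j
        calc _ ≤ (Polynomial.C (X ⟨j, by omega⟩ : MvPolynomial (Fin (e + 1 + m + 1)) K) *
              Polynomial.X ^ wt e j).natDegree := Polynomial.natDegree_mul_C_le _ _
          _ ≤ wt e j := Polynomial.natDegree_C_mul_X_pow_le _ _
          _ ≤ ω - 1 := by omega
      · rw [Polynomial.natDegree_C]
        omega
    omega
  refine irreducible_of_leadingCoeff_wHom w _ ?_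
  have hdeg2 : (Polynomial.C (topForm K e m) * Polynomial.X ^ ω).natDegree = ω :=
    Polynomial.natDegree_C_mul_X_pow ω _ hT0
  rw [hF, Polynomial.leadingCoeff_add_of_degree_lt, Polynomial.leadingCoeff_C_mul_X_pow]
  · exact topForm_irreducible K e m he
  · refine Polynomial.degree_lt_degree ?_
    rw [hdeg2]
    exact hdeg

end Top

end Pool.Agent.H929R2
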