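import Mathlib

set_option autoImplicit false
set_option maxHeartbeats 400000

namespace Pool.Agent.H929R2

open MvPolynomial Finset

section Scale

variable {k A σ : Type*} [Field k] [CommRing A] [Algebra k A] [Fintype σ]

lemma aeval_scale {r : ℕ} (G : MvPolynomial σ k) (hG : G.IsHomogeneous r) (c : A) (z : σ → A) :
    aeval (fun i => c * z i) G = c ^ r * aeval z G := by
  rw [aeval_def, aeval_def, eval₂_eq', eval₂_eq', mul_sum]
  refine sum_congr rfl fun d hd => ?_
  have h1 : ∑ i, d i = r := by
    rw [hG.degree_eq_sum_deg_support hd]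
    symm
    exact Finset.sum_subset (subset_univ _) fun i _ hi => Finsupp.notMem_support_iff.mp hi
  have h2 : ∏ i, (c * z i) ^ d i = c ^ r * ∏ i, z i ^ d i := by
    rw [← h1, ← prod_pow_eq_pow_sum, ← prod_mul_distrib]
    exact prod_congr rfl fun i _ => mul_pow _ _ _
  rw [h2]
  ring

lemma eval_scale {r : ℕ} (G : MvPolynomial σ k) (hG : G.IsHomogeneous r) (c : k) (z : σ → k) :
    eval (fun i => c * z i) G = c ^ r * eval z G := by
  have := aeval_scale G hG c z
  rwa [aeval_eq_eval, aeval_eq_eval] at this

end Scale

section Homogenise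

variable {k : Type*} [Field k]

lemma eval_aeval {σ τ : Type*} (s : τ → k) (h : σ → MvPolynomial τ k) (G : MvPolynomial σ k) :
    eval s (aeval h G) = eval (fun i => eval s (h i)) G := by
  induction G using MvPolynomial.induction_on with
  | C a => simp
  | add p q hp hq => rw [map_add, map_add, map_add, hp, hq]
  | mul_X p i hp => rw [map_mul, map_mul, map_mul, hp, aeval_X, eval_X]

/-- Homogenisation of a polynomial to degree `e`. -/
noncomputable def homog {M : ℕ} (e : ℕ) (g : MvPolynomial (Fin M) k) : MvPolynomial (Fin (M + 1)) k :=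
  ∑ j ∈ range (e + 1), X 0 ^ (e - j) * rename Fin.succ (homogeneousComponent j g)

lemma homog_isHomogeneous {M : ℕ} (e : ℕ) (g : MvPolynomial (Fin M) k) :
    (homog e g).IsHomogeneous e := by
  refine IsHomogeneous.sum _ _ _ fun j hj => ?_
  have h1 : (X 0 ^ (e - j) : MvPolynomial (Fin (M + 1)) k).IsHomogeneous (e - j) :=
    isHomogeneous_X_pow _ _
  have h2 : (rename Fin.succ (homogeneousComponent j g)).IsHomogeneous j :=
    (homogeneousComponent_isHomogeneous j g).rename_isHomogeneous
  have h3 := h1.mul h2
  have : e - j + j = e := by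
    have := mem_range.mp hj
    omega
  rwa [this] at h3

lemma eval_homog {M : ℕ} (e : ℕ) (g : MvPolynomial (Fin M) k) (hg : g.totalDegree ≤ e)
    (t : Fin M → k) : eval (Fin.cons 1 t) (homog e g) = eval t g := by
  rw [homog, map_sum]
  have h1 : ∀ j ∈ range (e + 1), eval (Fin.cons 1 t : Fin (M + 1) → k)
      (X 0 ^ (e - j) * rename Fin.succ (homogeneousComponent j g)) =
      eval t (homogeneousComponent j g) := by
    intro j _
    rw [map_mul, map_pow, eval_X, Fin.cons_zero, one_pow, one_mul, eval_rename]
    congr 1
  rw [sum_congr rfl h1, ← map_sum]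
  congr 1
  conv_rhs => rw [← sum_homogeneousComponent g]
  symm
  refine sum_subset (range_subset_range.mpr (by omega)) ?_
  intro j _ hj
  refine homogeneousComponent_eq_zero _ _ ?_
  rw [mem_range] at hj
  omega

/-- Homogenisation of a tuple of polynomials keeps its homogeneous relations. -/
theorem exists_homog [Infinite k] {M N : ℕ} (g : Fin N → MvPolynomial (Fin M) k)
    (hg : ∃ i, g i ≠ 0) : ∃ (e : ℕ) (h : Fin N → MvPolynomial (Fin (M + 1)) k),
      (∀ i, (h i).IsHomogeneous e) ∧ (∃ i, h i ≠ 0) ∧
      ∀ (r : ℕ) (G : MvPolynomial (Fin N) k), G.IsHomogeneous r →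
        ((∀ s, eval (fun i => eval s (h i)) G = 0) ↔ aeval g G = 0) := by
  set e : ℕ := Finset.univ.sup fun i => (g i).totalDegree with he
  have hdeg : ∀ i, (g i).totalDegree ≤ e := fun i =>
    Finset.le_sup (f := fun i => (g i).totalDegree) (mem_univ i)
  refine ⟨e, fun i => homog e (g i), fun i => homog_isHomogeneous e (g i), ?_, ?_⟩
  · obtain ⟨i, hi⟩ := hg
    refine ⟨i, fun h0 => hi ?_⟩
    refine MvPolynomial.funext fun t => ?_
    have h0' : homog e (g i) = 0 := h0
    rw [← eval_homog e (g i) (hdeg i) t, h0', map_zero, map_zero]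
  · intro r G hG
    have hcomp : ∀ t : Fin M → k, eval (fun i => eval t (g i)) G = eval t (aeval g G) := by
      intro t
      rw [eval_aeval]
    constructor
    · intro h
      refine MvPolynomial.funext fun t => ?_
      rw [map_zero, ← hcomp, ← h (Fin.cons 1 t)]
      simp_rw [eval_homog e _ (hdeg _) t]
    · intro h
      have hP : X 0 * aeval (fun i => homog e (g i)) G = 0 := by
        refine MvPolynomial.funext fun s => ?_
        rw [map_zero, map_mul, eval_X]
        rcases eq_or_ne (s 0) 0 with h0 | h0
        · rw [h0, zero_mul]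
        · have h1 : eval s (aeval (fun i => homog e (g i)) G) =
              eval (fun i => eval s (homog e (g i))) G := eval_aeval _ _ _
          have h2 : s = fun i => s 0 * (Fin.cons 1 (fun j : Fin M => (s 0)⁻¹ * s j.succ) :
              Fin (M + 1) → k) i := by
            funext i
            refine Fin.cases ?_ (fun j => ?_) i
            · simp
            · rw [Fin.cons_succ, ← mul_assoc, mul_inv_cancel₀ h0, one_mul]
          have h3 : ∀ i, eval s (homog e (g i)) = s 0 ^ e *
              eval (fun j : Fin M => (s 0)⁻¹ * s j.succ) (g i) := by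
            intro i
            conv_lhs => rw [h2]
            rw [eval_scale _ (homog_isHomogeneous e (g i)), eval_homog e (g i) (hdeg i)]
          rw [h1]
          simp_rw [h3]
          rw [eval_scale G hG, hcomp, h, map_zero, mul_zero, mul_zero]
      have hP0 : aeval (fun i => homog e (g i)) G = 0 :=
        (mul_eq_zero.mp hP).resolve_left (X_ne_zero _)
      intro s
      have h1 : eval s (aeval (fun i => homog e (g i)) G) =
          eval (fun i => eval s (homog e (g i))) G := eval_aeval _ _ _
      rw [← h1, hP0, map_zero]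

end Homogenise

section ClearDenominators

variable {k : Type*} [Field k]

/-- Clearing denominators in a tuple of rational functions. -/
theorem exists_clear {M N : ℕ} (z : Fin N → FractionRing (MvPolynomial (Fin M) k))
    (hz : ∃ i, z i ≠ 0) : ∃ g : Fin N → MvPolynomial (Fin M) k, (∃ i, g i ≠ 0) ∧
      ∀ (r : ℕ) (G : MvPolynomial (Fin N) k), G.IsHomogeneous r →
        (aeval g G = 0 ↔ aeval z G = 0) := by
  obtain ⟨b, hb⟩ := IsLocalization.exist_integer_multiples_of_finite
    (nonZeroDivisors (MvPolynomial (Fin M) k)) z
  choose g hg using hb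
  have hinj := IsFractionRing.injective (MvPolynomial (Fin M) k)
    (FractionRing (MvPolynomial (Fin M) k))
  have hb0 : algebraMap (MvPolynomial (Fin M) k) (FractionRing (MvPolynomial (Fin M) k)) b ≠ 0 := by
    intro h
    exact nonZeroDivisors.ne_zero b.2 (hinj (h.trans (map_zero _).symm))
  have hg' : ∀ i, algebraMap (MvPolynomial (Fin M) k) (FractionRing (MvPolynomial (Fin M) k)) (g i) =
      algebraMap _ _ (b : MvPolynomial (Fin M) k) * z i := by
    intro i
    rw [hg, Algebra.smul_def]
  refine ⟨g, ?_, ?_⟩
  · obtain ⟨i, hi⟩ := hz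
    refine ⟨i, fun h => ?_⟩
    have := hg' i
    rw [h, map_zero] at this
    exact mul_ne_zero hb0 hi this.symm
  · intro r G hG
    have h1 : algebraMap (MvPolynomial (Fin M) k) (FractionRing (MvPolynomial (Fin M) k))
        (aeval g G) = algebraMap _ _ (b : MvPolynomial (Fin M) k) ^ r * aeval z G := by
      rw [← aeval_scale G hG, ← aeval_algebraMap_apply]
      congr 1
      congr 1
      funext i
      exact hg' i
    constructor
    · intro h
      rw [h, map_zero] at h1
      exact (mul_eq_zero.mp h1.symm).resolve_left (pow_ne_zero _ hb0)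
    · intro h
      rw [h, mul_zero] at h1
      exact hinj (h1.trans (map_zero _).symm)

end ClearDenominators

end Pool.Agent.H929R2
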