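import Mathlib
import Pool.Agent.H929R2.Fam4
import Pool.Agent.H929R2.Fam6
import Pool.Agent.H929R2.Homog

set_option autoImplicit false
set_option maxHeartbeats 400000

namespace Pool.Agent.H929R2

open MvPolynomial Finset UniK

universe u

section Homogeneous

variable {K : Type u} [Field K]

lemma famForm_isHomogeneous (e m : ℕ) (a : Fin (e + 1) → K)
    (H : Fin (e + 1) → MvPolynomial (Fin (m + 1)) K) (G : MvPolynomial (Fin (m + 1)) K)
    (hH : ∀ j, (H j).IsHomogeneous e) (hG : G.IsHomogeneous (e + 1)) :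
    (famForm (e + 1) m a H G).IsHomogeneous (e + 1) := by
  refine (IsHomogeneous.add (IsHomogeneous.add (IsHomogeneous.sum _ _ _ fun j _ => ?_)
    (IsHomogeneous.sum _ _ _ fun j _ => ?_)) hG.rename_isHomogeneous)
  · have h1 := (((isHomogeneous_C (Fin (e + 1 + m + 1)) (a j)).mul (isHomogeneous_X_pow (R := K)
      (⟨j, by omega⟩ : Fin (e + 1 + m + 1)) e))).mul
      (isHomogeneous_X K (⟨j + 1, by omega⟩ : Fin (e + 1 + m + 1)))
    rw [zero_add] at h1
    exact h1
  · have h1 := (isHomogeneous_X K (⟨j, by omega⟩ : Fin (e + 1 + m + 1))).mul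
      ((hH j).rename_isHomogeneous (f := fun i : Fin (m + 1) =>
        (⟨e + 1 + i, by omega⟩ : Fin (e + 1 + m + 1))))
    rw [add_comm 1 e] at h1
    exact h1

end Homogeneous

section Param

variable (K : Type u) [Field K] [CharZero K]

lemma coordM_x (m e : ℕ) (H : ℕ → MvPolynomial (Fin (m + 1)) K) (G : MvPolynomial (Fin (m + 1)) K)
    (j : ℕ) (hj : j ≤ e + 1) : coordM K m e H G ⟨j, by omega⟩ = YM K m e H G j := by
  rcases Nat.lt_or_ge e j with h | h
  · have : j = e + 1 := by omega
    subst this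
    rw [coordM, if_neg (by simp), dif_pos (by simp), YM, if_neg (by omega)]
    have h4 : (⟨e + 1 - (e + 1), by simp⟩ : Fin (m + 1)) = 0 := by
      apply Fin.ext
      simp
    simp only [h4]
    rw [zM, Fin.cons_zero]
  · rw [coordM, if_pos h]

lemma coordM_y (m e : ℕ) (H : ℕ → MvPolynomial (Fin (m + 1)) K) (G : MvPolynomial (Fin (m + 1)) K)
    (i : Fin (m + 1)) : coordM K m e H G ⟨e + 1 + i, by omega⟩ = zM K m e i := by
  rw [coordM, if_neg (by simp only; omega), dif_pos (by simp only; omega)]
  congr 1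
  apply Fin.ext
  simp

lemma aeval_famForm_coordM (m e : ℕ) (he : 2 ≤ e) (H : Fin (e + 1) → MvPolynomial (Fin (m + 1)) K)
    (G : MvPolynomial (Fin (m + 1)) K) :
    aeval (coordM K m e (fun j => if h : j < e + 1 then H ⟨j, h⟩ else 0) G)
      (famForm (e + 1) m (fun _ => 1) H G) = 0 := by
  set H' : ℕ → MvPolynomial (Fin (m + 1)) K := fun j => if h : j < e + 1 then H ⟨j, h⟩ else 0 with hH'
  have h1 := fam_YM K m e he H' G
  rw [famVal, ← Fin.sum_univ_eq_sum_range (fun j => YM K m e H' G j ^ e * YM K m e H' G (j + 1)),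
    ← Fin.sum_univ_eq_sum_range (fun j => YM K m e H' G j * etaM K m e H' j)] at h1
  rw [← h1, famForm, map_add, map_add, map_sum, map_sum]
  congr 1
  · congr 1
    · refine sum_congr rfl fun j _ => ?_
      rw [map_mul, map_mul, map_pow, aeval_X, aeval_X, C_1, map_one, one_mul,
        coordM_x K m e H' G j (by omega), coordM_x K m e H' G (j + 1) (by omega),
        Nat.add_sub_cancel]
    · refine sum_congr rfl fun j _ => ?_
      rw [map_mul, aeval_X, aeval_rename, coordM_x K m e H' G j (by omega), etaM]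
      congr 1
      have h2 : H' j = H j := by
        simp only [hH']
        rw [dif_pos j.2]
      rw [h2]
      congr 2
      funext i
      exact coordM_y K m e H' G i
  · rw [aeval_rename, gamM]
    congr 2
    funext i
    exact coordM_y K m e H' G i

theorem famForm_one_unirational (m e : ℕ) (he : 2 ≤ e)
    (H : Fin (e + 1) → MvPolynomial (Fin (m + 1)) K) (G : MvPolynomial (Fin (m + 1)) K)
    (hH : ∀ j, (H j).IsHomogeneous e) (hG : G.IsHomogeneous (e + 1)) :
    IsUnirational (famForm (e + 1) m (fun _ => 1) H G) := by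
  have hirr := famForm_one_irreducible K e m he H G
  have hhom := famForm_isHomogeneous e m (fun _ => (1 : K)) H G hH hG
  refine ⟨hirr, ?_⟩
  set H' : ℕ → MvPolynomial (Fin (m + 1)) K := fun j => if h : j < e + 1 then H ⟨j, h⟩ else 0 with hH'
  set z := coordM K m e H' G with hz
  have hzF : aeval z (famForm (e + 1) m (fun _ => 1) H G) = 0 := aeval_famForm_coordM K m e he H G
  have hz0 : ∃ i, z i ≠ 0 := by
    refine ⟨⟨e + 1, by omega⟩, ?_⟩
    rw [hz, coordM_x K m e H' G (e + 1) le_rfl, YM, if_neg (by omega)]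
    exact xM_ne_zero K m e he (e + 1) le_rfl
  obtain ⟨g, hg0, hg⟩ := exists_clear z hz0
  obtain ⟨e', h, hh, hh0, hrel⟩ := exists_homog g hg0
  have hrel2 : ∀ (r : ℕ) (P : MvPolynomial (Fin (e + 1 + m + 1)) K), P.IsHomogeneous r →
      (aeval h P = 0 ↔ aeval z P = 0) := by
    intro r P hP
    rw [← hg r P hP, ← hrel r P hP]
    constructor
    · intro h0 s
      rw [← eval_aeval, h0, map_zero]
    · intro h0
      refine MvPolynomial.funext fun s => ?_
      rw [eval_aeval, h0, map_zero]
  refine ⟨e + 3 + m, e', h, ⟨hh, hh0⟩, (hrel2 _ _ hhom).mpr hzF, ?_⟩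
  intro r P hP hPt
  exact dvd_of_aeval_eq_zero_at (⟨e, by omega⟩ : Fin (e + 1 + m + 1)) _ hirr z hzF
    (coordM_algebraicIndependent K m e H' G he) P ((hrel2 r P hP).mp hPt)

end Param

section Scaling

variable {K : Type u} [Field K]

/-- The diagonal substitution. -/
noncomputable def diagHom {N : ℕ} (lam : Fin N → K) : MvPolynomial (Fin N) K →ₐ[K] MvPolynomial (Fin N) K :=
  aeval fun i => C (lam i) * X i

lemma diagHom_comp {N : ℕ} (lam mu : Fin N → K) (h : ∀ i, lam i * mu i = 1)
    (P : MvPolynomial (Fin N) K) : diagHom lam (diagHom mu P) = P := by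
  induction P using MvPolynomial.induction_on with
  | C a => rw [diagHom, diagHom, aeval_C, AlgHom.commutes]; rfl
  | add p q hp hq => rw [map_add, map_add, hp, hq]
  | mul_X p i hp =>
    rw [map_mul, map_mul, hp]
    congr 1
    rw [diagHom, diagHom, aeval_X, map_mul, aeval_X, aeval_C, ← mul_assoc]
    have : algebraMap K (MvPolynomial (Fin N) K) (mu i) * C (lam i) = 1 := by
      change C (mu i) * C (lam i) = 1
      rw [← C_mul, mul_comm, h, C_1]
    rw [this, one_mul]

/-- The diagonal automorphism. -/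
noncomputable def diagEquiv {N : ℕ} (lam : Fin N → K) (hlam : ∀ i, lam i ≠ 0) :
    MvPolynomial (Fin N) K ≃ₐ[K] MvPolynomial (Fin N) K :=
  AlgEquiv.ofAlgHom (diagHom lam) (diagHom fun i => (lam i)⁻¹)
    (AlgHom.ext fun P => diagHom_comp _ _ (fun i => mul_inv_cancel₀ (hlam i)) P)
    (AlgHom.ext fun P => diagHom_comp _ _ (fun i => inv_mul_cancel₀ (hlam i)) P)

lemma diagEquiv_apply {N : ℕ} (lam : Fin N → K) (hlam : ∀ i, lam i ≠ 0)
    (P : MvPolynomial (Fin N) K) : diagEquiv lam hlam P = diagHom lam P := rfl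

lemma diagHom_isHomogeneous {N : ℕ} (lam : Fin N → K) {r : ℕ} {P : MvPolynomial (Fin N) K}
    (hP : P.IsHomogeneous r) : (diagHom lam P).IsHomogeneous r := by
  have h1 := hP.aeval (fun i => C (lam i) * X i) (n := 1) (fun i => by
    have := (isHomogeneous_C (Fin N) (lam i)).mul (isHomogeneous_X K i)
    rwa [zero_add] at this)
  rwa [one_mul] at h1

lemma aeval_diagHom {N : ℕ} {A : Type*} [CommRing A] [Algebra K A] (lam : Fin N → K)
    (z : Fin N → A) (P : MvPolynomial (Fin N) K) :
    aeval z (diagHom lam P) = aeval (fun i => algebraMap K A (lam i) * z i) P := by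
  induction P using MvPolynomial.induction_on with
  | C a => rw [diagHom, aeval_C, aeval_C, AlgHom.commutes]
  | add p q hp hq => rw [map_add, map_add, map_add, hp, hq]
  | mul_X p i hp =>
    rw [map_mul, map_mul, map_mul, hp]
    congr 1
    rw [diagHom, aeval_X, map_mul, aeval_X, aeval_C, aeval_X]

/-- Unirationality is invariant under diagonal changes of coordinates. -/
theorem isUnirational_of_diag {n : ℕ} (lam : Fin (n + 1) → K) (hlam : ∀ i, lam i ≠ 0)
    (F : MvPolynomial (Fin (n + 1)) K) (hF : IsUnirational (diagHom lam F)) : IsUnirational F := by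
  obtain ⟨hirr, M, e, g, ⟨hgh, i0, hi0⟩, hg0, hgd⟩ := hF
  rw [← diagEquiv_apply lam hlam] at hirr
  refine ⟨(MulEquiv.irreducible_iff (diagEquiv lam hlam)).mp hirr, M, e,
    fun i => C (lam i) * g i, ⟨fun i => ?_, i0, ?_⟩, ?_, ?_⟩
  · have := (isHomogeneous_C (Fin (M + 1)) (lam i)).mul (hgh i)
    rwa [zero_add] at this
  · exact mul_ne_zero (fun h => hlam i0 (C_injective _ _ (h.trans (map_zero _).symm))) hi0
  · rw [aeval_diagHom] at hg0
    exact hg0
  · intro r G hG h
    have h1 : aeval g (diagHom lam G) = 0 := by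
      rw [aeval_diagHom]
      exact h
    have h2 := hgd r (diagHom lam G) (diagHom_isHomogeneous lam hG) h1
    rw [← diagEquiv_apply lam hlam, ← diagEquiv_apply lam hlam] at h2
    have h3 := map_dvd (diagEquiv lam hlam).symm h2
    rwa [AlgEquiv.symm_apply_apply, AlgEquiv.symm_apply_apply] at h3

end Scaling

end Pool.Agent.H929R2
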