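import Mathlib
import Pool.Agent.H929R2.Fam7

set_option autoImplicit false
set_option maxHeartbeats 400000

namespace Pool.Agent.H929R2

open MvPolynomial Finset UniK

universe u

section General

variable {K : Type u} [Field K]

lemma diagHom_rename {N N' : ℕ} (lam : Fin N' → K) (ρ : Fin N → Fin N')
    (P : MvPolynomial (Fin N) K) :
    diagHom lam (rename ρ P) = rename ρ (diagHom (fun i => lam (ρ i)) P) := by
  induction P using MvPolynomial.induction_on with
  | C a => rw [rename_C, diagHom, diagHom, aeval_C, aeval_C, AlgHom.commutes]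
  | add p q hp hq => rw [map_add, map_add, map_add, map_add, hp, hq]
  | mul_X p i hp =>
    rw [map_mul, map_mul, map_mul, map_mul, hp]
    congr 1
    rw [rename_X, diagHom, diagHom, aeval_X, aeval_X, map_mul, rename_C, rename_X]

/-- Scalars which make the chain coefficients one. -/
noncomputable def lamN (e : ℕ) (a : ℕ → K) : ℕ → K
  | 0 => 1
  | (j + 1) => (a j * lamN e a j ^ e)⁻¹

lemma lamN_ne_zero (e : ℕ) (a : ℕ → K) (ha : ∀ j ≤ e, a j ≠ 0) (j : ℕ) (hj : j ≤ e + 1) :
    lamN e a j ≠ 0 := by
  induction j with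
  | zero => exact one_ne_zero
  | succ j ih =>
    rw [lamN]
    exact inv_ne_zero (mul_ne_zero (ha j (by omega)) (pow_ne_zero _ (ih (by omega))))

lemma lamN_rel (e : ℕ) (a : ℕ → K) (ha : ∀ j ≤ e, a j ≠ 0) (j : ℕ) (hj : j ≤ e) :
    a j * lamN e a j ^ e * lamN e a (j + 1) = 1 := by
  rw [lamN]
  exact mul_inv_cancel₀ (mul_ne_zero (ha j hj) (pow_ne_zero _ (lamN_ne_zero e a ha j (by omega))))

theorem famForm_unirational [CharZero K] (d m : ℕ) (hd : 3 ≤ d) (a : Fin d → K)
    (ha : ∀ j, a j ≠ 0) (H : Fin d → MvPolynomial (Fin (m + 1)) K)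
    (G : MvPolynomial (Fin (m + 1)) K) (hH : ∀ j, (H j).IsHomogeneous (d - 1))
    (hG : G.IsHomogeneous d) : IsUnirational (famForm d m a H G) := by
  obtain ⟨e, rfl⟩ : ∃ e, d = e + 1 := ⟨d - 1, by omega⟩
  have he : 2 ≤ e := by omega
  rw [Nat.add_sub_cancel] at hH
  set a' : ℕ → K := fun j => if h : j < e + 1 then a ⟨j, h⟩ else 1 with ha'
  have ha'0 : ∀ j ≤ e, a' j ≠ 0 := by
    intro j hj
    simp only [ha']
    rw [dif_pos (by omega)]
    exact ha _
  set lam : Fin (e + 1 + m + 1) → K := fun i => if (i : ℕ) ≤ e + 1 then lamN e a' i else 1 with hlam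
  have hlam0 : ∀ i, lam i ≠ 0 := by
    intro i
    simp only [hlam]
    split_ifs with h
    · exact lamN_ne_zero e a' ha'0 i h
    · exact one_ne_zero
  refine isUnirational_of_diag lam hlam0 _ ?_
  set ρ : Fin (m + 1) → Fin (e + 1 + m + 1) := fun i => ⟨e + 1 + i, by omega⟩ with hρ
  have key : diagHom lam (famForm (e + 1) m a H G) = famForm (e + 1) m (fun _ => 1)
      (fun j => C (lam ⟨j, by omega⟩) * diagHom (fun i => lam (ρ i)) (H j))
      (diagHom (fun i => lam (ρ i)) G) := by
    rw [famForm, famForm, map_add, map_add, map_sum, map_sum, diagHom_rename]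
    congr 1
    congr 1
    · refine sum_congr rfl fun j _ => ?_
      rw [Nat.add_sub_cancel, map_mul, map_mul, map_pow, C_1, one_mul]
      have h1 : ∀ i, diagHom lam (X i) = C (lam i) * X i := fun i => aeval_X _ _
      have h2 : diagHom lam (C (a j)) = C (a j) := by rw [diagHom, aeval_C]; rfl
      rw [h1, h1, h2, mul_pow]
      have h3 : a j * lam ⟨j, by omega⟩ ^ e * lam ⟨j + 1, by omega⟩ = 1 := by
        have h4 := lamN_rel e a' ha'0 j (by omega)
        simp only [hlam]
        rw [if_pos (by omega), if_pos (by omega), ← h4]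
        congr 2
        simp only [ha']
        rw [dif_pos j.2]
      have h5 : C (a j) * (C (lam ⟨j, by omega⟩) ^ e * X ⟨j, by omega⟩ ^ e) *
          (C (lam ⟨j + 1, by omega⟩) * X ⟨j + 1, by omega⟩) =
          (C (a j * lam ⟨j, by omega⟩ ^ e * lam ⟨j + 1, by omega⟩) :
            MvPolynomial (Fin (e + 1 + m + 1)) K) *
          (X ⟨j, by omega⟩ ^ e * X ⟨j + 1, by omega⟩) := by
        rw [C_mul, C_mul, C_pow]
        ring
      rw [h5, h3, C_1, one_mul]
    · refine sum_congr rfl fun j _ => ?_
      have h1 : ∀ i, diagHom lam (X i) = C (lam i) * X i := fun i => aeval_X _ _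
      rw [map_mul, h1, diagHom_rename, map_mul, rename_C]
      ring
  rw [key]
  refine famForm_one_unirational K m e he _ _ (fun j => ?_) (diagHom_isHomogeneous _ hG)
  have := (isHomogeneous_C (Fin (m + 1)) (lam ⟨j, by omega⟩)).mul
    (diagHom_isHomogeneous (fun i => lam (ρ i)) (hH j))
  rwa [zero_add] at this

/-- The rational points of a unirational hypersurface over an infinite field are Zariski dense. -/
theorem IsUnirational.dense [Infinite K] {n : ℕ} {F : MvPolynomial (Fin (n + 1)) K}
    (hF : IsUnirational F) : HasDensePoints F := by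
  obtain ⟨_, M, e, g, ⟨_, i0, hi0⟩, hg0, hgd⟩ := hF
  intro r G hG h
  refine hgd r G hG ?_
  have h1 : g i0 * aeval g G = 0 := by
    refine MvPolynomial.funext fun s => ?_
    rw [map_mul, map_zero]
    rcases eq_or_ne (eval s (g i0)) 0 with h0 | h0
    · rw [h0, zero_mul]
    · have h2 : (fun i => eval s (g i)) ≠ 0 := fun h3 => h0 (congrFun h3 i0)
      have h3 : eval (fun i => eval s (g i)) F = 0 := by
        rw [← eval_aeval, hg0, map_zero]
      rw [eval_aeval, h _ h2 h3, mul_zero]
  exact (mul_eq_zero.mp h1).resolve_left hi0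

end General

section Map

lemma map_famForm {K L : Type u} [Field K] [Field L] (f : K →+* L) (d m : ℕ) (a : Fin d → K)
    (H : Fin d → MvPolynomial (Fin (m + 1)) K) (G : MvPolynomial (Fin (m + 1)) K) :
    MvPolynomial.map f (famForm d m a H G) =
      famForm d m (fun j => f (a j)) (fun j => MvPolynomial.map f (H j)) (MvPolynomial.map f G) := by
  rw [famForm, famForm, map_add, map_add, map_sum, map_sum]
  simp only [map_mul, map_pow, map_X, map_C, map_rename]

end Map

end Pool.Agent.H929R2
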