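import Mathlib
import Pool.Agent.H929R2.UniKDefs

set_option autoImplicit false
set_option maxHeartbeats 400000

namespace Pool.Agent.H929R2

open MvPolynomial Finset UniK

universe u

section Smooth

variable {K : Type u} [Field K]

lemma aeval_pderiv_chain (e m : ℕ) (a : Fin (e + 1) → K) {Ω : Type u} [Field Ω] [Algebra K Ω]
    (x : Fin (e + 1 + m + 1) → Ω) (i : Fin (e + 1 + m + 1)) :
    aeval x (pderiv i (∑ j : Fin (e + 1), C (a j) *
      (X ⟨j, by omega⟩ : MvPolynomial (Fin (e + 1 + m + 1)) K) ^ e * X ⟨j + 1, by omega⟩)) =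
    ∑ j : Fin (e + 1), (if (j : ℕ) = i then algebraMap K Ω (a j) * (e * x ⟨j, by omega⟩ ^ (e - 1)) *
      x ⟨j + 1, by omega⟩ else 0) +
    ∑ j : Fin (e + 1), (if (j : ℕ) + 1 = i then algebraMap K Ω (a j) * x ⟨j, by omega⟩ ^ e else 0) := by
  rw [map_sum, map_sum, ← sum_add_distrib]
  refine sum_congr rfl fun j _ => ?_
  rw [pderiv_mul, pderiv_C_mul, pderiv_pow]
  have h1 : pderiv i (X ⟨j, by omega⟩ : MvPolynomial (Fin (e + 1 + m + 1)) K) =
      if (j : ℕ) = i then 1 else 0 := by
    split_ifs with h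
    · have : (⟨j, by omega⟩ : Fin (e + 1 + m + 1)) = i := Fin.ext h
      rw [this, pderiv_X_self]
    · exact pderiv_X_of_ne (fun h2 => h (congrArg Fin.val h2).symm.symm)
  have h2 : pderiv i (X ⟨j + 1, by omega⟩ : MvPolynomial (Fin (e + 1 + m + 1)) K) =
      if (j : ℕ) + 1 = i then 1 else 0 := by
    split_ifs with h
    · have : (⟨j + 1, by omega⟩ : Fin (e + 1 + m + 1)) = i := Fin.ext h
      rw [this, pderiv_X_self]
    · exact pderiv_X_of_ne (fun h2 => h (congrArg Fin.val h2).symm.symm)
  rw [h1, h2]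
  split_ifs <;> simp

lemma pderiv_rename_low (e m : ℕ) (G : MvPolynomial (Fin (m + 1)) K) (i : Fin (e + 1 + m + 1))
    (hi : (i : ℕ) < e + 1) : pderiv i (rename (fun i : Fin (m + 1) =>
      (⟨e + 1 + i, by omega⟩ : Fin (e + 1 + m + 1))) G) = 0 := by
  classical
  refine pderiv_eq_zero_of_notMem_vars fun h => ?_
  have h1 := vars_rename _ _ h
  rw [mem_image] at h1
  obtain ⟨j, _, hj⟩ := h1
  rw [← hj] at hi
  simp only at hi
  omega

/-- Smooth members of the family. -/
theorem famForm_smooth [CharZero K] (d m : ℕ) (hd : 3 ≤ d) (a : Fin d → K)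
    (ha : ∀ j, a j ≠ 0) (G : MvPolynomial (Fin (m + 1)) K) (hG : G.IsHomogeneous d)
    (hG1 : IsSmooth G)
    (hG2 : ∀ (Ω : Type u) [Field Ω] [Algebra K Ω] (y : Fin (m + 1) → Ω), y 0 = 0 →
      (∀ i, i ≠ 0 → aeval y (pderiv i G) = 0) → y = 0) :
    IsSmooth (famForm d m a (fun _ => 0) G) := by
  obtain ⟨e, rfl⟩ : ∃ e, d = e + 1 := ⟨d - 1, by omega⟩
  have he : 2 ≤ e := by omega
  intro Ω _ _ x hx
  have hchar : CharZero Ω := charZero_of_injective_algebraMap (algebraMap K Ω).injective
  have ha' : ∀ j, algebraMap K Ω (a j) ≠ 0 := fun j h =>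
    ha j ((algebraMap K Ω).injective (h.trans (map_zero _).symm))
  have he0 : (e : Ω) ≠ 0 := by exact_mod_cast (by omega : e ≠ 0)
  set ρ : Fin (m + 1) → Fin (e + 1 + m + 1) := fun i => ⟨e + 1 + i, by omega⟩ with hρ
  have hρinj : Function.Injective ρ := by
    intro i j hij
    have := congrArg Fin.val hij
    simp only [hρ] at this
    exact Fin.ext (by omega)
  have hF : famForm (e + 1) m a (fun _ => 0) G = ∑ j : Fin (e + 1), C (a j) *
      (X ⟨j, by omega⟩ : MvPolynomial (Fin (e + 1 + m + 1)) K) ^ e * X ⟨j + 1, by omega⟩ +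
      rename ρ G := by
    rw [famForm, Nat.add_sub_cancel]
    simp only [map_zero, mul_zero, sum_const_zero, add_zero]
    rfl
  rw [hF] at hx
  -- the equations
  have e0 : ∀ i : Fin (e + 1), (i : ℕ) = 0 → x ⟨i, by omega⟩ ^ (e - 1) * x ⟨i + 1, by omega⟩ = 0 := by
    intro i hi
    have h1 := hx ⟨i, by omega⟩
    rw [map_add, map_add, aeval_pderiv_chain, pderiv_rename_low e m G _ i.2, map_zero, add_zero,
      sum_eq_single i (fun j _ hj => if_neg fun h => hj (Fin.ext h)) (fun h => absurd (mem_univ _) h),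
      if_pos rfl, sum_eq_zero (fun j _ => if_neg (by simp only; omega)), add_zero] at h1
    rcases mul_eq_zero.mp h1 with h2 | h2
    · rw [(mul_eq_zero.mp ((mul_eq_zero.mp h2).resolve_left (ha' i))).resolve_left he0, zero_mul]
    · rw [h2, mul_zero]
  have e1 : ∀ i : ℕ, ∀ hi : i + 1 < e + 1, algebraMap K Ω (a ⟨i, by omega⟩) * x ⟨i, by omega⟩ ^ e +
      algebraMap K Ω (a ⟨i + 1, hi⟩) * (e * x ⟨i + 1, by omega⟩ ^ (e - 1)) *
        x ⟨i + 2, by omega⟩ = 0 := by
    intro i hi
    have h1 := hx ⟨i + 1, by omega⟩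
    rw [map_add, map_add, aeval_pderiv_chain, pderiv_rename_low e m G _ (by simpa using hi), map_zero,
      add_zero, sum_eq_single (⟨i + 1, hi⟩ : Fin (e + 1))
        (fun j _ hj => if_neg fun h => hj (Fin.ext h)) (fun h => absurd (mem_univ _) h),
      if_pos rfl, sum_eq_single (⟨i, by omega⟩ : Fin (e + 1))
        (fun j _ hj => if_neg fun h => hj (Fin.ext (by simpa using h)))
        (fun h => absurd (mem_univ _) h), if_pos rfl] at h1
    rw [add_comm]
    exact h1
  have e2 : algebraMap K Ω (a ⟨e, by omega⟩) * x ⟨e, by omega⟩ ^ e +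
      aeval (fun i => x (ρ i)) (pderiv 0 G) = 0 := by
    have h1 := hx (ρ 0)
    rw [map_add, map_add, aeval_pderiv_chain, pderiv_rename hρinj, aeval_rename,
      sum_eq_zero (fun j _ => if_neg (by simp only [hρ]; omega)), zero_add,
      sum_eq_single (⟨e, by omega⟩ : Fin (e + 1))
        (fun j _ hj => if_neg fun h => hj (Fin.ext (by simpa [hρ] using h)))
        (fun h => absurd (mem_univ _) h), if_pos (by simp [hρ])] at h1
    exact h1
  have e3 : ∀ i, i ≠ 0 → aeval (fun i => x (ρ i)) (pderiv i G) = 0 := by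
    intro i hi
    have h1 := hx (ρ i)
    have hi' : (i : ℕ) ≠ 0 := fun h => hi (Fin.ext h)
    rw [map_add, map_add, aeval_pderiv_chain, pderiv_rename hρinj, aeval_rename,
      sum_eq_zero (fun j _ => if_neg (by simp only [hρ]; omega)), zero_add,
      sum_eq_zero (fun j _ => if_neg (by simp only [hρ]; omega)), zero_add] at h1
    exact h1
  -- the chain variables vanish up to the last one
  have P : ∀ j, ∀ hj : j ≤ e, (∀ i, ∀ hi : i < j, x ⟨i, by omega⟩ = 0) ∧
      x ⟨j, by omega⟩ ^ (e - 1) * x ⟨j + 1, by omega⟩ = 0 := by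
    intro j
    induction j with
    | zero => exact fun _ => ⟨fun i hi => absurd hi (by omega), e0 ⟨0, by omega⟩ rfl⟩
    | succ j ih =>
      intro hj
      obtain ⟨ih1, ih2⟩ := ih (by omega)
      have h1 := e1 j (by omega)
      have hxj : x ⟨j, by omega⟩ = 0 := by
        rcases mul_eq_zero.mp ih2 with h | h
        · exact pow_eq_zero_iff (by omega) |>.mp h
        · rw [h, zero_pow (by omega), mul_zero, mul_zero, zero_mul, add_zero] at h1
          exact pow_eq_zero_iff (by omega) |>.mp ((mul_eq_zero.mp h1).resolve_left (ha' _))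
      refine ⟨fun i hi => ?_, ?_⟩
      · rcases Nat.lt_or_ge i j with h | h
        · exact ih1 i h
        · have : i = j := by omega
          subst this
          exact hxj
      · rw [hxj, zero_pow (by omega), mul_zero, zero_add] at h1
        rcases mul_eq_zero.mp h1 with h2 | h2
        · rw [(mul_eq_zero.mp ((mul_eq_zero.mp h2).resolve_left (ha' _))).resolve_left he0, zero_mul]
        · rw [h2, mul_zero]
  obtain ⟨hlow, hlast⟩ := P e le_rfl
  have hy : (fun i => x (ρ i)) = 0 ∧ x ⟨e, by omega⟩ = 0 := by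
    rcases eq_or_ne (x ⟨e, by omega⟩) 0 with h | h
    · refine ⟨hG1 Ω _ fun i => ?_, h⟩
      rcases eq_or_ne i 0 with h0 | h0
      · rw [h0]
        rw [h, zero_pow (by omega), mul_zero, zero_add] at e2
        exact e2
      · exact e3 i h0
    · exfalso
      have h1 : x ⟨e + 1, by omega⟩ = 0 := (mul_eq_zero.mp hlast).resolve_left (pow_ne_zero _ h)
      have h2 := hG2 Ω (fun i => x (ρ i)) h1 e3
      rw [h2] at e2
      have h3 : aeval (0 : Fin (m + 1) → Ω) (pderiv 0 G) = 0 := by
        have h4 : (pderiv 0 G).IsHomogeneous e := by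
          have := hG.pderiv (i := (0 : Fin (m + 1)))
          rwa [Nat.add_sub_cancel] at this
        have h5 : constantCoeff (pderiv 0 G) = 0 := by
          rw [constantCoeff_eq]
          exact h4.coeff_eq_zero (by simp; omega)
        have h6 : (0 : Fin (m + 1) → Ω) = fun _ => 0 := rfl
        rw [h6, aeval_zero', h5, map_zero]
      rw [h3, add_zero] at e2
      exact h (pow_eq_zero_iff (by omega) |>.mp ((mul_eq_zero.mp e2).resolve_left (ha' _)))
  funext i
  rcases Nat.lt_or_ge i e with h | h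
  · exact hlow i h
  · rcases Nat.lt_or_ge e i with h2 | h2
    · have h3 := congrFun hy.1 ⟨i - (e + 1), by omega⟩
      have h4 : ρ ⟨i - (e + 1), by omega⟩ = i := by
        apply Fin.ext
        simp only [hρ]
        omega
      simp only [h4] at h3
      exact h3
    · have h3 : i = ⟨e, by omega⟩ := Fin.ext (by simp only; omega)
      rw [h3]
      exact hy.2

/-- Fermat forms satisfy the conditions. -/
theorem fermat_good [CharZero K] (d m : ℕ) (hd : 2 ≤ d) (c : Fin (m + 1) → K)
    (hc : ∀ i, c i ≠ 0) {Ω : Type u} [Field Ω] [Algebra K Ω] (y : Fin (m + 1) → Ω) (i : Fin (m + 1))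
    (hi : aeval y (pderiv i (∑ i, C (c i) * X i ^ d : MvPolynomial (Fin (m + 1)) K)) = 0) :
    y i = 0 := by
  have hchar : CharZero Ω := charZero_of_injective_algebraMap (algebraMap K Ω).injective
  have hd0 : (d : Ω) ≠ 0 := by exact_mod_cast (by omega : d ≠ 0)
  rw [map_sum, map_sum, sum_eq_single i] at hi
  · rw [pderiv_C_mul, pderiv_pow, pderiv_X_self] at hi
    simp only [map_mul, map_natCast, map_pow, aeval_X, mul_one, algHom_C] at hi
    have h1 : algebraMap K Ω (c i) ≠ 0 := fun h =>
      hc i ((algebraMap K Ω).injective (h.trans (map_zero _).symm))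
    have h2 := (mul_eq_zero.mp ((mul_eq_zero.mp hi).resolve_left h1)).resolve_left hd0
    exact pow_eq_zero_iff (by omega) |>.mp h2
  · intro j _ hj
    rw [pderiv_C_mul, pderiv_pow, pderiv_X_of_ne hj]
    simp
  · intro h
    exact absurd (mem_univ _) h

end Smooth

end Pool.Agent.H929R2
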