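import Mathlib
import Pool.Agent.H929R2.Fam8
import Pool.Agent.H929R2.Fam9

set_option autoImplicit false
set_option maxHeartbeats 400000

namespace Pool.Agent.H929R2

open MvPolynomial Finset UniK

universe u

variable {K : Type u} [Field K] [CharZero K]

theorem famForm_smooth_fermat (d m : ℕ) (hd : 3 ≤ d) (a : Fin d → K) (ha : ∀ j, a j ≠ 0)
    (c : Fin (m + 1) → K) (hc : ∀ i, c i ≠ 0) :
    IsSmooth (famForm d m a (fun _ => 0) (∑ i, C (c i) * X i ^ d)) := by
  refine famForm_smooth d m hd a ha _ ?_ ?_ ?_
  · refine IsHomogeneous.sum _ _ _ fun i _ => ?_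
    have := (isHomogeneous_C (Fin (m + 1)) (c i)).mul (isHomogeneous_X_pow (R := K) i d)
    rwa [zero_add] at this
  · intro Ω _ _ y hy
    funext i
    exact fermat_good d m (by omega) c hc y i (hy i)
  · intro Ω _ _ y hy0 hy
    funext i
    rcases eq_or_ne i 0 with h | h
    · rw [h]; exact hy0
    · exact fermat_good d m (by omega) c hc y i (hy i h)

theorem famForm_dense {L : Type u} [Field L] [Algebra K L] (d m : ℕ) (hd : 3 ≤ d) (a : Fin d → K)
    (ha : ∀ j, a j ≠ 0) (H : Fin d → MvPolynomial (Fin (m + 1)) K)
    (G : MvPolynomial (Fin (m + 1)) K) (hH : ∀ j, (H j).IsHomogeneous (d - 1))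
    (hG : G.IsHomogeneous d) :
    IsUnirational (MvPolynomial.map (algebraMap K L) (famForm d m a H G)) ∧
      HasDensePoints (MvPolynomial.map (algebraMap K L) (famForm d m a H G)) := by
  have hchar : CharZero L := charZero_of_injective_algebraMap (algebraMap K L).injective
  have h1 : IsUnirational (MvPolynomial.map (algebraMap K L) (famForm d m a H G)) := by
    rw [map_famForm]
    exact famForm_unirational d m hd _ (fun j h => ha j ((algebraMap K L).injective
      (h.trans (map_zero _).symm))) _ _ (fun j => (hH j).map _) (hG.map _)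
  exact ⟨h1, IsUnirational.dense h1⟩

end Pool.Agent.H929R2
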