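import Mathlib
import Pool.Agent.H929R2.Trans

set_option autoImplicit false
set_option maxHeartbeats 400000

namespace Pool.Agent.H929R2

open Polynomial Finset

universe u

variable (k : Type u) [Field k] [CharZero k]

/-- The candidate transcendence basis. -/
noncomputable def basisL (e : ℕ) (i : Fin (e + 3)) : LL k e :=
  if (i : ℕ) ≤ e then yL k e i else if (i : ℕ) = e + 1 then aL k e else tL k e

/-- The field generated by the candidate transcendence basis. -/
noncomputable def K1 (e : ℕ) : IntermediateField k (LL k e) :=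
  IntermediateField.adjoin k (Set.range (basisL k e))

lemma basisL_mem (e : ℕ) (i : Fin (e + 3)) : basisL k e i ∈ K1 k e :=
  IntermediateField.subset_adjoin k _ ⟨i, rfl⟩

lemma yL_mem (e : ℕ) (j : ℕ) (hj : j ≤ e) : yL k e j ∈ K1 k e := by
  have := basisL_mem k e ⟨j, by omega⟩
  rw [basisL, if_pos hj] at this
  exact this

lemma aL_mem (e : ℕ) : aL k e ∈ K1 k e := by
  have := basisL_mem k e ⟨e + 1, by omega⟩
  rw [basisL, if_neg (by simp), if_pos rfl] at this
  exact this

lemma tL_mem (e : ℕ) : tL k e ∈ K1 k e := by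
  have := basisL_mem k e ⟨e + 2, by omega⟩
  rw [basisL, if_neg (by simp), if_neg (by simp)] at this
  exact this

/-- The last coordinate is algebraic over the others. -/
lemma yL_last_algebraic (e : ℕ) (he : 2 ≤ e) : IsAlgebraic (K1 k e) (yL k e (e + 1)) := by
  set a : K1 k e := ⟨yL k e e, yL_mem k e e le_rfl⟩ ^ e with ha
  have hb0 : ∑ j ∈ range e, yL k e j ^ e * yL k e (j + 1) ∈ K1 k e := by
    refine sum_mem fun j hj => ?_
    have := mem_range.mp hj
    exact mul_mem (pow_mem (yL_mem k e j (by omega)) e) (yL_mem k e (j + 1) (by omega))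
  set b : K1 k e := ⟨_, hb0⟩ with hb
  refine ⟨X ^ (e + 1) + (C a * X + C b), ?_, ?_⟩
  · have hm : (X ^ (e + 1) + (C a * X + C b)).Monic := by
      refine monic_X_pow_add ?_
      refine lt_of_le_of_lt (degree_linear_le) ?_
      exact_mod_cast (by omega : 1 < e + 1)
    exact hm.ne_zero
  · have h := chain_yL k e he
    rw [chainVal, sum_range_succ] at h
    have h1 : algebraMap (K1 k e) (LL k e) a = yL k e e ^ e := rfl
    have h2 : algebraMap (K1 k e) (LL k e) b = ∑ j ∈ range e, yL k e j ^ e * yL k e (j + 1) := rfl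
    simp only [map_add, map_mul, map_pow, aeval_X, aeval_C, h1, h2]
    rw [← h]
    ring

/-- The function field is algebraic over the field generated by the candidate basis. -/
lemma algebraic_K1 (e : ℕ) (he : 2 ≤ e) : Algebra.IsAlgebraic (K1 k e) (LL k e) := by
  let K2 := algebraicClosure (K1 k e) (LL k e)
  have htower : IsScalarTower k K2 (LL k e) := IsScalarTower.of_algebraMap_eq fun _ => rfl
  have hmem : ∀ j ≤ e + 1, yL k e j ∈ K2 := by
    intro j hj
    rcases Nat.lt_or_ge j (e + 1) with h | h
    · exact K2.algebraMap_mem ⟨yL k e j, yL_mem k e j (by omega)⟩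
    · have : j = e + 1 := le_antisymm hj h
      subst this
      exact mem_algebraicClosure_iff.mpr (yL_last_algebraic k e he)
  have hmemA : aL k e ∈ K2 := K2.algebraMap_mem ⟨aL k e, aL_mem k e⟩
  have hmemT : tL k e ∈ K2 := K2.algebraMap_mem ⟨tL k e, tL_mem k e⟩
  have hunr : Algebra.FormallyUnramified K2 (LL k e) := by
    constructor
    have hD : ∀ z : LL k e, KaehlerDifferential.D K2 (LL k e) z = 0 := by
      intro z
      have hkill : ∀ a ∈ K2, KaehlerDifferential.D K2 (LL k e) a = 0 := by
        intro a ha
        have := (KaehlerDifferential.D K2 (LL k e)).map_algebraMap ⟨a, ha⟩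
        exact this
      exact deriv_zero k he ((KaehlerDifferential.D K2 (LL k e)).restrictScalars k)
        (fun j hj => hkill _ (hmem j hj)) (hkill _ hmemA) (hkill _ hmemT) z
    have hspan := KaehlerDifferential.span_range_derivation K2 (LL k e)
    have hrange : Set.range (KaehlerDifferential.D K2 (LL k e)) ⊆ {0} := by
      rintro _ ⟨z, rfl⟩
      exact hD z
    have htop : (⊤ : Submodule (LL k e) (Ω[LL k e⁄K2])) = ⊥ := by
      rw [← hspan, eq_bot_iff, Submodule.span_le]
      intro z hz
      exact hrange hz
    exact (Submodule.subsingleton_iff (LL k e)).mp (subsingleton_of_bot_eq_top htop.symm)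
  have hess : Algebra.EssFiniteType k (LL k e) := inferInstance
  have hess2 : Algebra.EssFiniteType K2 (LL k e) := Algebra.EssFiniteType.of_comp k K2 (LL k e)
  have hsep : Algebra.IsSeparable K2 (LL k e) := Algebra.FormallyUnramified.isSeparable K2 (LL k e)
  have halg : Algebra.IsAlgebraic K2 (LL k e) := inferInstance
  have halg2 : Algebra.IsAlgebraic (K1 k e) K2 := inferInstance
  exact Algebra.IsAlgebraic.trans (K1 k e) K2 (LL k e)

end Pool.Agent.H929R2
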