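import Mathlib
import Pool.Agent.H929R2.Indep

set_option autoImplicit false
set_option maxHeartbeats 400000

namespace Pool.Agent.H929R2

open Polynomial Finset

universe u

variable (k : Type u) [Field k] [CharZero k]

open scoped IntermediateField.algebraAdjoinAdjoin in
lemma algebraic_adjoin (e : ℕ) (he : 2 ≤ e) :
    Algebra.IsAlgebraic (Algebra.adjoin k (Set.range (basisL k e))) (LL k e) := by
  have h1 : Algebra.IsAlgebraic (IntermediateField.adjoin k (Set.range (basisL k e))) (LL k e) :=
    algebraic_K1 k e he
  exact (IsFractionRing.comap_isAlgebraic_iff (A := Algebra.adjoin k (Set.range (basisL k e)))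
    (K := IntermediateField.adjoin k (Set.range (basisL k e)))).mpr h1

omit [CharZero k] in
lemma trdeg_LL (e : ℕ) : Algebra.trdeg k (LL k e) = (e + 3 : ℕ) := by
  have h0 : Algebra.IsAlgebraic (MvPolynomial (Fin (e + 3)) k) (LL k e) :=
    (IsFractionRing.comap_isAlgebraic_iff (K := LL k e)).mpr inferInstance
  have h1 : IsTranscendenceBasis k (algebraMap (MvPolynomial (Fin (e + 3)) k) (LL k e) ∘
      MvPolynomial.X) := (IsTranscendenceBasis.mvPolynomial (Fin (e + 3)) k).algebraMap_comp
  have h2 := h1.lift_cardinalMk_eq_trdeg
  simp at h2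
  rw [← h2]
  simp

/-- The candidate basis is a transcendence basis. -/
theorem basisL_isTranscendenceBasis (e : ℕ) (he : 2 ≤ e) :
    IsTranscendenceBasis k (basisL k e) := by
  have := algebraic_adjoin k e he
  refine Algebra.IsAlgebraic.isTranscendenceBasis_of_lift_le_trdeg_of_finite k (basisL k e) ?_
  rw [trdeg_LL]
  simp

/-- The first `e + 1` coordinates are algebraically independent. -/
theorem yL_algebraicIndependent (e : ℕ) (he : 2 ≤ e) :
    AlgebraicIndependent k (fun j : Fin (e + 1) => yL k e j) := by
  have h1 := (basisL_isTranscendenceBasis k e he).1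
  have h2 := h1.comp (Fin.castLE (by omega : e + 1 ≤ e + 3)) (Fin.castLE_injective _)
  have h3 : basisL k e ∘ Fin.castLE (by omega : e + 1 ≤ e + 3) =
      fun j : Fin (e + 1) => yL k e j := by
    funext j
    rw [Function.comp_apply, basisL, if_pos (by
      have := j.2
      rw [Fin.val_castLE]
      omega)]
    rfl
  rw [h3] at h2
  exact h2

end Pool.Agent.H929R2
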