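import Mathlib

set_option autoImplicit false
set_option maxHeartbeats 400000

namespace Pool.Agent.H929R2

open MvPolynomial Finset

section Derivations

variable {k S K : Type*} [Field k] [CommRing S] [Algebra k S] [Field K] [Algebra k K]
  [Algebra S K] [IsScalarTower k S K]

omit [IsScalarTower k S K] in
/-- Derivations killing a subalgebra, evaluated on polynomial expressions. -/
lemma derivation_aeval (D : Derivation k S K) (A : Subalgebra k S) (hA : ∀ a ∈ A, D a = 0)
    (x : S) (p : Polynomial A) :
    D (Polynomial.aeval x p) = (Polynomial.aeval x (Polynomial.derivative p)) • D x := by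
  induction p using Polynomial.induction_on' with
  | add p q hp hq => rw [map_add, map_add, hp, hq, Polynomial.derivative_add, map_add, add_smul]
  | monomial n a =>
    rw [Polynomial.aeval_monomial, Polynomial.derivative_monomial, Polynomial.aeval_monomial,
      Derivation.leibniz, Derivation.leibniz_pow]
    have h1 : D (algebraMap A S a) = 0 := hA _ a.2
    rw [h1, smul_zero, add_zero, ← Nat.cast_smul_eq_nsmul S, smul_smul, smul_smul, map_mul,
      map_natCast]

/-- A derivation killing a subalgebra kills everything algebraic over it. -/
lemma derivation_algebraic [CharZero k] [IsDomain S] (hinj : Function.Injective (algebraMap S K))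
    (D : Derivation k S K) (A : Subalgebra k S) (hA : ∀ a ∈ A, D a = 0) (x : S)
    (hx : IsAlgebraic A x) : D x = 0 := by
  classical
  have hex : ∃ n, ∃ p : Polynomial A, p ≠ 0 ∧ Polynomial.aeval x p = 0 ∧ p.natDegree = n := by
    obtain ⟨p, hp, hp2⟩ := hx
    exact ⟨_, p, hp, hp2, rfl⟩
  obtain ⟨p, hp0, hpx, hpn⟩ := Nat.find_spec hex
  have hmin := fun m hm => Nat.find_min hex (m := m) hm
  have hA0 : Function.Injective (algebraMap A S) := Subtype.val_injective
  have hpos : 0 < p.natDegree := by
    rcases Nat.eq_zero_or_pos p.natDegree with h | h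
    · exfalso
      obtain ⟨a, ha⟩ := Polynomial.natDegree_eq_zero.mp h
      rw [← ha, Polynomial.aeval_C] at hpx
      have : a = 0 := hA0 (hpx.trans (map_zero _).symm)
      rw [this, Polynomial.C_0] at ha
      exact hp0 ha.symm
    · exact h
  have hchar : CharZero A := by
    have : CharZero S := charZero_of_injective_algebraMap (algebraMap k S).injective
    exact charZero_of_injective_algebraMap (R := k) (algebraMap k A).injective
  have hd0 : Polynomial.derivative p ≠ 0 := by
    intro h
    have := Polynomial.derivative_eq_zero.mp h
    omega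
  have hdx : Polynomial.aeval x (Polynomial.derivative p) ≠ 0 := by
    intro h
    refine hmin (Polynomial.derivative p).natDegree ?_ ⟨_, hd0, h, rfl⟩
    rw [← hpn]
    exact Polynomial.natDegree_derivative_lt hpos.ne'
  have h1 := derivation_aeval D A hA x p
  rw [hpx, map_zero] at h1
  rw [Algebra.smul_def] at h1
  have h2 : algebraMap S K (Polynomial.aeval x (Polynomial.derivative p)) ≠ 0 := by
    intro h
    exact hdx (hinj (h.trans (map_zero _).symm))
  exact (mul_eq_zero.mp h1.symm).resolve_left h2

end Derivations

section Jacobian

variable {k K : Type*} [Field k] [Field K] [Algebra k K] {N : ℕ}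
  [Algebra (MvPolynomial (Fin N) k) K] [IsScalarTower k (MvPolynomial (Fin N) k) K]

lemma mkDerivation_eq (c : Fin N → K) (f : MvPolynomial (Fin N) k) :
    mkDerivation k c f = ∑ l, algebraMap (MvPolynomial (Fin N) k) K (pderiv l f) * c l := by
  induction f using MvPolynomial.induction_on with
  | C a => simp
  | add p q hp hq => rw [map_add, hp, hq, ← sum_add_distrib]; simp [add_mul]
  | mul_X p i hp =>
    rw [Derivation.leibniz, hp, mkDerivation_X]
    have h1 : ∀ l, algebraMap (MvPolynomial (Fin N) k) K (pderiv l (p * X i)) * c l =
        algebraMap (MvPolynomial (Fin N) k) K (X i) *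
          (algebraMap (MvPolynomial (Fin N) k) K (pderiv l p) * c l) +
        algebraMap (MvPolynomial (Fin N) k) K p * ((if i = l then 1 else 0) * c l) := by
      intro l
      rw [pderiv_mul, pderiv_X, Pi.single_apply, map_add, map_mul, map_mul]
      split_ifs <;> simp <;> ring
    rw [sum_congr rfl fun l _ => h1 l, sum_add_distrib, ← mul_sum, ← mul_sum]
    simp only [ite_mul, one_mul, zero_mul, sum_ite_eq, mem_univ, if_true]
    rw [Algebra.smul_def, Algebra.smul_def, add_comm]

/-- The rows of the Jacobian matrix of algebraically independent polynomials are linearly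
independent, in characteristic zero. -/
theorem jacobian_rows [CharZero k]
    (hinj : Function.Injective (algebraMap (MvPolynomial (Fin N) k) K)) {n : ℕ}
    (g : Fin n → MvPolynomial (Fin N) k) (hg : AlgebraicIndependent k g) :
    LinearIndependent K (fun j : Fin n => fun l : Fin N =>
      algebraMap (MvPolynomial (Fin N) k) K (pderiv l (g j))) := by
  classical
  obtain ⟨t, hst, ht⟩ := exists_isTranscendenceBasis_superset (R := k)
    (A := MvPolynomial (Fin N) k) (s := Set.range g) hg.to_subtype_range
  have hcard : Nonempty (t ≃ Fin N) := by
    have h1 := ht.lift_cardinalMk_eq (IsTranscendenceBasis.mvPolynomial (Fin N) k)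
    exact Cardinal.lift_mk_eq'.mp h1
  obtain ⟨ε⟩ := hcard
  set M : Matrix (Fin N) (Fin N) K := Matrix.of fun i l =>
    algebraMap (MvPolynomial (Fin N) k) K (pderiv l ((ε.symm i : t) : MvPolynomial (Fin N) k)) with hM
  have hdet : M.det ≠ 0 := by
    intro h
    obtain ⟨c, hc, hc2⟩ := Matrix.exists_mulVec_eq_zero_iff.mpr h
    apply hc
    set D : Derivation k (MvPolynomial (Fin N) k) K := mkDerivation k c with hD
    have hkill : ∀ a ∈ Algebra.adjoin k (Set.range ((↑) : t → MvPolynomial (Fin N) k)), D a = 0 := by
      intro a ha
      induction ha using Algebra.adjoin_induction with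
      | mem x hx =>
        obtain ⟨b, rfl⟩ := hx
        rw [hD, mkDerivation_eq]
        have h2 := congrFun hc2 (ε b)
        simp only [hM, Matrix.mulVec, dotProduct, Matrix.of_apply, Equiv.symm_apply_apply,
          Pi.zero_apply] at h2
        exact h2
      | algebraMap r => exact D.map_algebraMap r
      | add x y _ _ hx hy => rw [map_add, hx, hy, add_zero]
      | mul x y _ _ hx hy => rw [Derivation.leibniz, hx, hy, smul_zero, smul_zero, add_zero]
    have halg := ht.isAlgebraic
    funext l
    have h3 := derivation_algebraic hinj D _ hkill (X l) (halg.isAlgebraic (X l))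
    rw [hD, mkDerivation_X] at h3
    exact h3
  have hrows : LinearIndependent K M.row := Matrix.linearIndependent_rows_of_det_ne_zero hdet
  set τ : Fin n → Fin N := fun j => ε ⟨g j, hst ⟨j, rfl⟩⟩ with hτ
  have hτinj : Function.Injective τ := by
    intro a b hab
    have h1 := ε.injective hab
    have h2 := congrArg Subtype.val h1
    exact hg.injective h2
  have h4 := hrows.comp τ hτinj
  convert h4 using 1
  funext j l
  simp [hM, hτ, Matrix.row]

/-- Some maximal minor of the Jacobian matrix of algebraically independent polynomials is
nonzero. -/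
theorem jacobian_minor [CharZero k] {n : ℕ}
    (g : Fin n → MvPolynomial (Fin N) k) (hg : AlgebraicIndependent k g) :
    ∃ ρ : Fin n → Fin N, (Matrix.of fun i j : Fin n => pderiv (ρ i) (g j)).det ≠ 0 := by
  classical
  let K := FractionRing (MvPolynomial (Fin N) k)
  have hinj : Function.Injective (algebraMap (MvPolynomial (Fin N) k) K) :=
    IsFractionRing.injective _ _
  have hrows := jacobian_rows (K := K) hinj g hg
  by_contra hcon
  push Not at hcon
  -- the matrix with the rows indexed by the variables
  set J : Matrix (Fin N) (Fin n) K := Matrix.of fun l j =>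
    algebraMap (MvPolynomial (Fin N) k) K (pderiv l (g j)) with hJ
  have hJinj : Function.Injective J.mulVec := by
    rw [Matrix.mulVec_injective_iff]
    exact hrows
  obtain ⟨f, hf⟩ := LinearMap.exists_leftInverse_of_injective (Matrix.toLin' J)
    (LinearMap.ker_eq_bot.mpr (by
      intro a b hab
      exact hJinj (by simpa using hab)))
  set B : Matrix (Fin n) (Fin N) K := LinearMap.toMatrix' f with hB
  have hBJ : B * J = 1 := by
    have h1 := congrArg LinearMap.toMatrix' hf
    rw [LinearMap.toMatrix'_comp, LinearMap.toMatrix'_toLin', LinearMap.toMatrix'_id] at h1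
    exact h1
  have hdet : (B * J).det = 0 := by
    have h1 : (B * J).det = Matrix.detRowAlternating (fun i => ∑ l, B i l • J l) := by
      congr 1
      ext i j
      rw [Matrix.mul_apply]
      simp
    rw [h1]
    have h2 := (Matrix.detRowAlternating (n := Fin n) (R := K)).toMultilinearMap.map_sum
      (fun (i : Fin n) (l : Fin N) => B i l • J l)
    refine h2.trans ?_
    refine sum_eq_zero fun ρ _ => ?_
    have h3 := (Matrix.detRowAlternating (n := Fin n) (R := K)).toMultilinearMap.map_smul_univ
      (fun i => B i (ρ i)) (fun i => J (ρ i))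
    refine h3.trans ?_
    have h4 : (Matrix.detRowAlternating (n := Fin n) (R := K)).toMultilinearMap (fun i => J (ρ i)) =
        algebraMap (MvPolynomial (Fin N) k) K (Matrix.of fun i j : Fin n => pderiv (ρ i) (g j)).det := by
      rw [RingHom.map_det]
      rfl
    rw [h4, hcon ρ, map_zero, smul_zero]
  rw [hBJ, Matrix.det_one] at hdet
  exact one_ne_zero hdet

end Jacobian

end Pool.Agent.H929R2
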