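import Mathlib
import Pool.Agent.H929R2.Homog

set_option autoImplicit false
set_option maxHeartbeats 400000

namespace Pool.Agent.H929R2

open MvPolynomial Finset

section Factor

variable {k σ : Type*} [Field k] [Fintype σ]

/-- The substitution `x_i ↦ T x_i`. -/
noncomputable def scaleHom : MvPolynomial σ k →ₐ[k] Polynomial (MvPolynomial σ k) :=
  aeval fun i => Polynomial.X * Polynomial.C (X i)

omit [Fintype σ] in
lemma aeval_CX (p : MvPolynomial σ k) :
    aeval (fun i => Polynomial.C (X i : MvPolynomial σ k)) p = Polynomial.C p := by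
  have h : (aeval (fun i => Polynomial.C (X i : MvPolynomial σ k)) :
      MvPolynomial σ k →ₐ[k] Polynomial (MvPolynomial σ k)) = Polynomial.CAlgHom := by
    ext i
    simp
  rw [h]
  rfl

lemma scaleHom_homogeneous {n : ℕ} (p : MvPolynomial σ k) (hp : p.IsHomogeneous n) :
    scaleHom p = Polynomial.C p * Polynomial.X ^ n := by
  rw [scaleHom, aeval_scale p hp, aeval_CX, mul_comm]

lemma coeff_scaleHom (p : MvPolynomial σ k) (n : ℕ) :
    (scaleHom p).coeff n = homogeneousComponent n p := by
  conv_lhs => rw [← sum_homogeneousComponent p]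
  rw [map_sum, Polynomial.finsetSum_coeff]
  have h1 : ∀ i ∈ range (p.totalDegree + 1), (scaleHom (homogeneousComponent i p)).coeff n =
      if n = i then homogeneousComponent i p else 0 := by
    intro i _
    rw [scaleHom_homogeneous _ (homogeneousComponent_isHomogeneous i p),
      Polynomial.coeff_C_mul_X_pow]
  rw [sum_congr rfl h1, sum_ite_eq]
  split_ifs with h
  · rfl
  · rw [mem_range] at h
    rw [homogeneousComponent_eq_zero n p (by omega)]

lemma isHomogeneous_of_mul {n : ℕ} (p q : MvPolynomial σ k) (hp : p ≠ 0) (hq : q ≠ 0)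
    (hpq : (p * q).IsHomogeneous n) : ∃ a b, a + b = n ∧ p.IsHomogeneous a ∧ q.IsHomogeneous b := by
  have hinj : ∀ r : MvPolynomial σ k, r ≠ 0 → scaleHom r ≠ 0 := by
    intro r hr h
    apply hr
    rw [← sum_homogeneousComponent r]
    refine sum_eq_zero fun i _ => ?_
    rw [← coeff_scaleHom, h, Polynomial.coeff_zero]
  have hP := hinj p hp
  have hQ := hinj q hq
  have hpq0 : p * q ≠ 0 := mul_ne_zero hp hq
  have h1 : scaleHom p * scaleHom q = Polynomial.C (p * q) * Polynomial.X ^ n := by
    rw [← map_mul, scaleHom_homogeneous _ hpq]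
  have h2 : (scaleHom p).natDegree + (scaleHom q).natDegree = n := by
    rw [← Polynomial.natDegree_mul hP hQ, h1, Polynomial.natDegree_C_mul_X_pow n _ hpq0]
  have h3 : (scaleHom p).natTrailingDegree + (scaleHom q).natTrailingDegree = n := by
    rw [← Polynomial.natTrailingDegree_mul hP hQ, h1, Polynomial.C_mul_X_pow_eq_monomial,
      Polynomial.natTrailingDegree_monomial hpq0]
  have h4 : (scaleHom p).natTrailingDegree ≤ (scaleHom p).natDegree :=
    Polynomial.natTrailingDegree_le_natDegree _
  have h5 : (scaleHom q).natTrailingDegree ≤ (scaleHom q).natDegree :=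
    Polynomial.natTrailingDegree_le_natDegree _
  have key : ∀ r : MvPolynomial σ k, (scaleHom r).natTrailingDegree = (scaleHom r).natDegree →
      r.IsHomogeneous (scaleHom r).natDegree := by
    intro r hr
    have h6 : r = homogeneousComponent (scaleHom r).natDegree r := by
      conv_lhs => rw [← sum_homogeneousComponent r]
      have h7 : ∀ i ∈ range (r.totalDegree + 1), i ≠ (scaleHom r).natDegree →
          homogeneousComponent i r = 0 := by
        intro i _ hi
        rw [← coeff_scaleHom]
        rcases Nat.lt_or_ge i (scaleHom r).natDegree with h8 | h8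
        · exact Polynomial.coeff_eq_zero_of_lt_natTrailingDegree (by omega)
        · exact Polynomial.coeff_eq_zero_of_natDegree_lt (by omega)
      refine sum_eq_single _ h7 ?_
      intro h8
      rw [mem_range] at h8
      exact homogeneousComponent_eq_zero _ _ (by omega)
    have h9 := homogeneousComponent_isHomogeneous (scaleHom r).natDegree r
    rw [← h6] at h9
    exact h9
  exact ⟨_, _, h2, key p (by omega), key q (by omega)⟩

end Factor

section UFD

variable {R : Type*} [CommRing R] [IsDomain R] [UniqueFactorizationMonoid R]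

lemma dvd_of_dvd_mul_pow {ι : Type*} (c : ι → R) (N : ι → ℕ) (hc : ∀ p, Prime p → ∃ i, ¬ p ∣ c i)
    (a : R) (ha : a ≠ 0) : ∀ b : R, (∀ i, a ∣ b * c i ^ N i) → a ∣ b := by
  induction a using UniqueFactorizationMonoid.induction_on_prime with
  | h₁ => exact absurd rfl ha
  | h₂ x hx => intro b _; exact hx.dvd
  | h₃ a p ha0 hp ih =>
    intro b hb
    obtain ⟨i, hi⟩ := hc p hp
    have h1 : p ∣ b * c i ^ N i := (dvd_mul_right p a).trans (hb i)
    have h2 : p ∣ b := (hp.dvd_or_dvd h1).resolve_right fun h => hi (hp.dvd_of_dvd_pow h)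
    obtain ⟨b', rfl⟩ := h2
    refine mul_dvd_mul_left p (ih ha0 b' fun j => ?_)
    have h3 := hb j
    rw [mul_assoc] at h3
    exact (mul_dvd_mul_iff_left hp.ne_zero).mp h3

end UFD

section Chain

variable {k : Type*} [Field k]

/-- The chain rule. -/
lemma pderiv_aeval {N n : ℕ} (g : Fin n → MvPolynomial (Fin N) k) (F : MvPolynomial (Fin n) k)
    (l : Fin N) : pderiv l (aeval g F) = ∑ j, pderiv l (g j) * aeval g (pderiv j F) := by
  induction F using MvPolynomial.induction_on with
  | C a => simp [algebraMap_eq]
  | add p q hp hq =>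
    rw [map_add, map_add, hp, hq, ← sum_add_distrib]
    exact sum_congr rfl fun j _ => by rw [map_add, map_add, mul_add]
  | mul_X p i hp =>
    rw [map_mul, pderiv_mul, hp, aeval_X]
    have h1 : ∀ j, pderiv l (g j) * aeval g (pderiv j (p * X i)) =
        pderiv l (g j) * aeval g (pderiv j p) * g i +
        aeval g p * ((if i = j then 1 else 0) * pderiv l (g j)) := by
      intro j
      rw [pderiv_mul, pderiv_X, Pi.single_apply, map_add, map_mul, map_mul, aeval_X]
      split_ifs <;> simp <;> ring
    rw [sum_congr rfl fun j _ => h1 j, sum_add_distrib, ← sum_mul, ← mul_sum]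
    simp

end Chain

section Minors

variable {R : Type*} [CommRing R] [IsDomain R]

/-- Cramer's rule: the vector of maximal minors is proportional to any vector in the kernel. -/
lemma cramer_prop {n : ℕ} (A : Matrix (Fin n) (Fin (n + 1)) R) (v : Fin (n + 1) → R)
    (hv : ∀ i, ∑ j, A i j * v j = 0) (a b : Fin (n + 1)) :
    v a * ((-1) ^ (b : ℕ) * (A.submatrix id b.succAbove).det) =
      v b * ((-1) ^ (a : ℕ) * (A.submatrix id a.succAbove).det) := by
  classical
  by_cases hv0 : v = 0
  · simp [hv0]
  set u : Fin (n + 1) → R := Pi.single b (v a) - Pi.single a (v b) with hu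
  set M : Matrix (Fin (n + 1)) (Fin (n + 1)) R := Matrix.of (Fin.cons u A) with hM
  have hMv : M.mulVec v = 0 := by
    funext i
    refine Fin.cases ?_ (fun i => ?_) i
    · simp only [hM, Matrix.mulVec, dotProduct, Matrix.of_apply, Fin.cons_zero, hu, Pi.sub_apply,
        sub_mul, sum_sub_distrib, Pi.zero_apply]
      simp [Pi.single_apply, mul_comm]
    · simp only [hM, Matrix.mulVec, dotProduct, Matrix.of_apply, Fin.cons_succ, Pi.zero_apply]
      exact hv i
  have hdet : M.det = 0 := Matrix.exists_mulVec_eq_zero_iff.mp ⟨v, hv0, hMv⟩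
  rw [Matrix.det_succ_row_zero] at hdet
  have h1 : ∀ j : Fin (n + 1), (-1) ^ (j : ℕ) * M 0 j * (M.submatrix Fin.succ j.succAbove).det =
      u j * ((-1) ^ (j : ℕ) * (A.submatrix id j.succAbove).det) := by
    intro j
    have h2 : M.submatrix Fin.succ j.succAbove = A.submatrix id j.succAbove := by
      ext i l
      simp [hM]
    have h3 : M 0 j = u j := by simp [hM]
    rw [h2, h3]
    ring
  rw [sum_congr rfl fun j _ => h1 j] at hdet
  simp only [hu, Pi.sub_apply, sub_mul, sum_sub_distrib, Pi.single_apply, ite_mul, zero_mul,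
    sum_ite_eq', mem_univ, if_true] at hdet
  exact sub_eq_zero.mp hdet

end Minors

end Pool.Agent.H929R2
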