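import Mathlib

set_option autoImplicit false

namespace Pool.Agent.H929R2.Uni

open MvPolynomial

/-- `F` is a form of degree `d` in the `n + 1` homogeneous coordinates of `ℙⁿ` over `ℂ`, and the
hypersurface `V(F) ⊂ ℙⁿ` is smooth: the partial derivatives of `F` do not all vanish at a point
`[x]` of `V(F)`. -/
structure IsSmoothHypersurface (n d : ℕ) (F : MvPolynomial (Fin (n + 1)) ℂ) : Prop where
  isHomogeneous : F.IsHomogeneous d
  smooth : ∀ x : Fin (n + 1) → ℂ, x ≠ 0 → eval x F = 0 → ∃ i, eval x (pderiv i F) ≠ 0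

/-- `(g_0, …, g_n)` represents a rational map `ℙᵐ ⇢ ℙⁿ`: the `g_i` are forms of one and the same
degree `e` in the `m + 1` homogeneous coordinates of `ℙᵐ`, not all zero. -/
def IsRationalMap (m n e : ℕ) (g : Fin (n + 1) → MvPolynomial (Fin (m + 1)) ℂ) : Prop :=
  (∀ i, (g i).IsHomogeneous e) ∧ ∃ i, g i ≠ 0

/-- The rational map `g : ℙᵐ ⇢ ℙⁿ` is a dominant rational map to `V(F) ⊂ ℙⁿ`: its image lies in
`V(F)`, and every form which vanishes on the image vanishes on `V(F)`, that is, the image is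
Zariski dense in `V(F)`. -/
def IsDominantTo {m n : ℕ} (g : Fin (n + 1) → MvPolynomial (Fin (m + 1)) ℂ)
    (F : MvPolynomial (Fin (n + 1)) ℂ) : Prop :=
  (∀ t : Fin (m + 1) → ℂ, eval (fun i => eval t (g i)) F = 0) ∧
  ∀ (r : ℕ) (G : MvPolynomial (Fin (n + 1)) ℂ), G.IsHomogeneous r →
    (∀ t : Fin (m + 1) → ℂ, eval (fun i => eval t (g i)) G = 0) →
    ∀ x : Fin (n + 1) → ℂ, eval x F = 0 → eval x G = 0

/-- The hypersurface `V(F) ⊂ ℙⁿ` is irreducible and unirational: there is a dominant rational map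
`ℙᵐ ⇢ V(F)` for some `m`. -/
def IsUnirational {n : ℕ} (F : MvPolynomial (Fin (n + 1)) ℂ) : Prop :=
  Irreducible F ∧ ∃ (m e : ℕ) (g : Fin (n + 1) → MvPolynomial (Fin (m + 1)) ℂ),
    IsRationalMap m n e g ∧ IsDominantTo g F

end Pool.Agent.H929R2.Uni
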