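import Mathlib
import Pool.Agent.H929R2.UniDefs
import Pool.Agent.H929R2.Homog
import Pool.Agent.H929R2.Lower1
import Pool.Agent.H929R2.Lower2

set_option autoImplicit false
set_option maxHeartbeats 400000

namespace Pool.Agent.H929R2

open MvPolynomial Finset Uni

section Null

/-- Nullstellensatz for an irreducible hypersurface. -/
lemma dvd_of_vanish {n : ℕ} (F G : MvPolynomial (Fin n) ℂ) (hF : Irreducible F)
    (h : ∀ x : Fin n → ℂ, eval x F = 0 → eval x G = 0) : F ∣ G := by
  have hprime : (Ideal.span {F}).IsPrime := (Ideal.span_singleton_prime hF.ne_zero).mpr hF.prime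
  have h1 : G ∈ vanishingIdeal ℂ (zeroLocus ℂ (Ideal.span {F})) := by
    rw [mem_vanishingIdeal_iff]
    intro x hx
    rw [aeval_eq_eval]
    apply h
    have := hx F (Ideal.mem_span_singleton_self F)
    rwa [aeval_eq_eval] at this
  rw [IsPrime.vanishingIdeal_zeroLocus] at h1
  exact Ideal.mem_span_singleton.mp h1

/-- Powers of the variables lie in the ideal of the partial derivatives of a smooth form. -/
lemma exists_pow_mem {n d : ℕ} (hd : 1 ≤ d) (F : MvPolynomial (Fin (n + 1)) ℂ)
    (hF : IsSmoothHypersurface n d F) (i : Fin (n + 1)) :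
    ∃ N : ℕ, (X i : MvPolynomial (Fin (n + 1)) ℂ) ^ N ∈
      Ideal.span (Set.range fun j => pderiv j F) := by
  have h1 : (X i : MvPolynomial (Fin (n + 1)) ℂ) ∈
      vanishingIdeal ℂ (zeroLocus ℂ (Ideal.span (Set.range fun j => pderiv j F))) := by
    rw [mem_vanishingIdeal_iff]
    intro x hx
    have h2 : ∀ j, eval x (pderiv j F) = 0 := by
      intro j
      have := hx _ (Ideal.subset_span ⟨j, rfl⟩)
      rwa [aeval_eq_eval] at this
    have h3 : eval x F = 0 := by
      have h4 := congrArg (eval x) hF.isHomogeneous.sum_X_mul_pderiv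
      rw [map_sum, map_nsmul] at h4
      rw [sum_eq_zero fun j _ => by rw [map_mul, h2 j, mul_zero]] at h4
      have h5 : (d : ℂ) ≠ 0 := by
        have : d ≠ 0 := by omega
        exact_mod_cast this
      rw [nsmul_eq_mul] at h4
      exact (mul_eq_zero.mp h4.symm).resolve_left h5
    have h4 : x = 0 := by
      by_contra hx0
      obtain ⟨j, hj⟩ := hF.smooth x hx0 h3
      exact hj (h2 j)
    rw [aeval_eq_eval, eval_X, h4]
    rfl
  rw [vanishingIdeal_zeroLocus_eq_radical] at h1
  exact h1

end Null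

section Good

/-- The data of a dominant rational map, in terms of polynomials. -/
structure Good {m n : ℕ} (F : MvPolynomial (Fin (n + 1)) ℂ) (D : ℕ)
    (g : Fin (n + 1) → MvPolynomial (Fin (m + 1)) ℂ) : Prop where
  hom : ∀ i, (g i).IsHomogeneous D
  ne : ∃ i, g i ≠ 0
  zero : aeval g F = 0
  dense : ∀ (r : ℕ) (G : MvPolynomial (Fin (n + 1)) ℂ), G.IsHomogeneous r → aeval g G = 0 → F ∣ G

lemma eval_zero_iff {m n : ℕ} (g : Fin (n + 1) → MvPolynomial (Fin (m + 1)) ℂ)
    (G : MvPolynomial (Fin (n + 1)) ℂ) :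
    (∀ t, eval (fun i => eval t (g i)) G = 0) ↔ aeval g G = 0 := by
  constructor
  · intro h
    refine MvPolynomial.funext fun t => ?_
    rw [eval_aeval, h, map_zero]
  · intro h t
    rw [← eval_aeval, h, map_zero]

lemma good_of_unirational {m n D : ℕ} (F : MvPolynomial (Fin (n + 1)) ℂ) (hF : Irreducible F)
    (g : Fin (n + 1) → MvPolynomial (Fin (m + 1)) ℂ) (h1 : IsRationalMap m n D g)
    (h2 : IsDominantTo g F) : Good F D g := by
  refine ⟨h1.1, h1.2, (eval_zero_iff g F).mp h2.1, fun r G hG hG0 => ?_⟩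
  exact dvd_of_vanish F G hF (h2.2 r G hG ((eval_zero_iff g G).mpr hG0))

/-- Removing a common factor. -/
lemma good_div {m n d D : ℕ} (F : MvPolynomial (Fin (n + 1)) ℂ) (hFh : F.IsHomogeneous d)
    (g : Fin (n + 1) → MvPolynomial (Fin (m + 1)) ℂ) (hg : Good F D g)
    (p : MvPolynomial (Fin (m + 1)) ℂ) (hp : Prime p) (hdvd : ∀ i, p ∣ g i) :
    ∃ D' < D, ∃ g', Good (m := m) F D' g' := by
  choose g' hg' using hdvd
  obtain ⟨i0, hi0⟩ := hg.ne
  have hne : g' i0 ≠ 0 := by
    intro h
    apply hi0
    rw [hg', h, mul_zero]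
  have h0 := hg.hom i0
  rw [hg' i0] at h0
  obtain ⟨a, b, hab, hpa, hgb⟩ := isHomogeneous_of_mul p (g' i0) hp.ne_zero hne h0
  have ha : 1 ≤ a := by
    rcases Nat.eq_zero_or_pos a with h | h
    · exfalso
      rw [h, ← totalDegree_zero_iff_isHomogeneous, totalDegree_eq_zero_iff_eq_C] at hpa
      have hc : coeff 0 p ≠ 0 := by
        intro h2
        rw [h2, C_0] at hpa
        exact hp.ne_zero hpa
      apply hp.not_isUnit
      rw [hpa]
      exact (isUnit_iff_ne_zero.mpr hc).map C
    · exact h
  have hgeq : g = fun i => p * g' i := funext hg'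
  refine ⟨b, by omega, g', ?_, ⟨i0, hne⟩, ?_, ?_⟩
  · intro i
    by_cases hi : g' i = 0
    · rw [hi]; exact isHomogeneous_zero _ _ _
    · have h1 := hg.hom i
      rw [hg' i] at h1
      obtain ⟨a', b', hab', hpa', hgb'⟩ := isHomogeneous_of_mul p (g' i) hp.ne_zero hi h1
      have : a' = a := hpa'.inj_right hpa hp.ne_zero
      have : b' = b := by omega
      rw [← this]
      exact hgb'
  · have h1 := hg.zero
    rw [hgeq, aeval_scale F hFh] at h1
    exact (mul_eq_zero.mp h1).resolve_left (pow_ne_zero _ hp.ne_zero)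
  · intro r G hG hG0
    refine hg.dense r G hG ?_
    rw [hgeq, aeval_scale G hG, hG0, mul_zero]

/-- The kernel of a dominant map of positive degree. -/
lemma good_dvd {m n D : ℕ} (hD : 1 ≤ D) (F : MvPolynomial (Fin (n + 1)) ℂ)
    (g : Fin (n + 1) → MvPolynomial (Fin (m + 1)) ℂ) (hg : Good F D g)
    (G : MvPolynomial (Fin (n + 1)) ℂ) (hG : aeval g G = 0) : F ∣ G := by
  have hcomp : ∀ i ∈ range (G.totalDegree + 1), aeval g (homogeneousComponent i G) = 0 := by
    intro i hi
    have h1 := congrArg (homogeneousComponent (D * i)) hG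
    conv_lhs at h1 => rw [← sum_homogeneousComponent G]
    rw [map_sum, map_sum, map_zero] at h1
    have h2 : ∀ j ∈ range (G.totalDegree + 1), homogeneousComponent (D * i)
        (aeval g (homogeneousComponent j G)) =
        if i = j then aeval g (homogeneousComponent j G) else 0 := by
      intro j _
      have h3 : (aeval g (homogeneousComponent j G)).IsHomogeneous (D * j) :=
        (homogeneousComponent_isHomogeneous j G).aeval g hg.hom
      rw [homogeneousComponent_of_mem h3]
      have h4 : (D * i = D * j) ↔ i = j := Nat.mul_right_inj (by omega)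
      simp only [h4]
    rw [sum_congr rfl h2, sum_ite_eq, if_pos hi] at h1
    exact h1
  rw [← sum_homogeneousComponent G]
  exact dvd_sum fun i hi => hg.dense i _ (homogeneousComponent_isHomogeneous i G) (hcomp i hi)

/-- Algebraic independence of all coordinates but one. -/
lemma good_indep {m n D : ℕ} (hD : 1 ≤ D) (F : MvPolynomial (Fin (n + 1)) ℂ)
    (g : Fin (n + 1) → MvPolynomial (Fin (m + 1)) ℂ) (hg : Good F D g) (i : Fin (n + 1))
    (hi : degreeOf i F ≠ 0) : AlgebraicIndependent ℂ (fun j : Fin n => g (i.succAbove j)) := by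
  rw [algebraicIndependent_iff]
  intro P hP
  have h1 : aeval g (rename i.succAbove P) = 0 := by
    rw [aeval_rename]
    exact hP
  obtain ⟨H, hH⟩ := good_dvd hD F g hg _ h1
  by_contra hne
  have h2 : rename i.succAbove P ≠ 0 := by
    intro h
    exact hne (rename_injective _ Fin.succAbove_right_injective (h.trans (map_zero _).symm))
  have hF0 : F ≠ 0 := by
    rintro rfl
    rw [zero_mul] at hH
    exact h2 hH
  have hH0 : H ≠ 0 := by
    rintro rfl
    rw [mul_zero] at hH
    exact h2 hH
  have h3 : degreeOf i (rename i.succAbove P) = 0 := by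
    refine Nat.le_zero.mp (degreeOf_le_iff.mpr fun s hs => ?_)
    by_contra h4
    have h5 : i ∈ (rename i.succAbove P).vars := (mem_vars i).mpr ⟨s, hs, by
      rw [Finsupp.mem_support_iff]; omega⟩
    have h6 := vars_rename i.succAbove P h5
    rw [mem_image] at h6
    obtain ⟨j, _, hj⟩ := h6
    exact Fin.succAbove_ne i j hj
  rw [hH, degreeOf_mul_eq hF0 hH0] at h3
  omega

end Good

end Pool.Agent.H929R2
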