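import Mathlib
import Pool.Agent.H929R2.UniDefs
import Pool.Agent.H929R2.Homog
import Pool.Agent.H929R2.Lower1
import Pool.Agent.H929R2.Lower2
import Pool.Agent.H929R2.Lower3

set_option autoImplicit false
set_option maxHeartbeats 400000

namespace Pool.Agent.H929R2

open MvPolynomial Finset Uni

lemma det_homog {σ : Type*} {n E : ℕ} (A : Matrix (Fin n) (Fin n) (MvPolynomial σ ℂ))
    (hA : ∀ i j, (A i j).IsHomogeneous E) : A.det.IsHomogeneous (n * E) := by
  rw [Matrix.det_apply]
  refine IsHomogeneous.sum _ _ _ fun τ _ => ?_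
  have h1 : (∏ i, A (τ i) i).IsHomogeneous (∑ _i : Fin n, E) :=
    IsHomogeneous.prod _ _ _ fun i _ => hA _ _
  rw [sum_const, card_univ, Fintype.card_fin, smul_eq_mul] at h1
  rcases Int.units_eq_one_or (Equiv.Perm.sign τ) with h | h
  · rw [h, one_smul]; exact h1
  · rw [h]
    have : (-1 : ℤˣ) • (∏ i, A (τ i) i) = - ∏ i, A (τ i) i := by
      simp [Units.smul_def]
    rw [this]
    exact h1.neg

/-- The constant case. -/
lemma good_zero_false {m n d : ℕ} (hn : 1 ≤ n) (hd : 2 ≤ d) (F : MvPolynomial (Fin (n + 1)) ℂ)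
    (hFh : F.IsHomogeneous d) (hF0 : F ≠ 0)
    (g : Fin (n + 1) → MvPolynomial (Fin (m + 1)) ℂ) (hg : Good F 0 g) : False := by
  have hc : ∀ i, g i = C (coeff 0 (g i)) := by
    intro i
    have h := hg.hom i
    rwa [← totalDegree_zero_iff_isHomogeneous, totalDegree_eq_zero_iff_eq_C] at h
  obtain ⟨i0, hi0⟩ := hg.ne
  obtain ⟨j, hj⟩ : ∃ j : Fin (n + 1), j ≠ i0 := by
    have : Nontrivial (Fin (n + 1)) := Fin.nontrivial_iff_two_le.mpr (by omega)
    exact exists_ne i0
  have hc0 : coeff 0 (g i0) ≠ 0 := by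
    intro h
    apply hi0
    rw [hc i0, h, C_0]
  set L : MvPolynomial (Fin (n + 1)) ℂ := C (coeff 0 (g i0)) * X j - C (coeff 0 (g j)) * X i0 with hL
  have hLh : L.IsHomogeneous 1 := by
    refine IsHomogeneous.sub ?_ ?_
    · have := (isHomogeneous_C (Fin (n + 1)) (coeff 0 (g i0))).mul (isHomogeneous_X ℂ j)
      rwa [zero_add] at this
    · have := (isHomogeneous_C (Fin (n + 1)) (coeff 0 (g j))).mul (isHomogeneous_X ℂ i0)
      rwa [zero_add] at this
  have hLg : aeval g L = 0 := by
    rw [hL, map_sub, map_mul, map_mul, aeval_X, aeval_X, aeval_C, aeval_C, algebraMap_eq, ← hc,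
      ← hc, mul_comm, sub_self]
  have hL0 : L ≠ 0 := by
    intro h
    have h1 := congrArg (eval (Pi.single j (1 : ℂ))) h
    rw [hL, map_sub, map_mul, map_mul, eval_X, eval_X, eval_C, eval_C, Pi.single_eq_same,
      Pi.single_eq_of_ne hj.symm, mul_one, mul_zero, sub_zero, map_zero] at h1
    exact hc0 h1
  have hdvd := hg.dense 1 L hLh hLg
  have h1 := totalDegree_le_of_dvd_of_isDomain hdvd hL0
  rw [hFh.totalDegree hF0, hLh.totalDegree hL0] at h1
  omega

/-- The main degree argument. -/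
lemma good_prim_false {m n d D : ℕ} (hn : 1 ≤ n) (hd : n + 1 ≤ d) (hD : 1 ≤ D)
    (F : MvPolynomial (Fin (n + 1)) ℂ) (hF : IsSmoothHypersurface n d F) (hirr : Irreducible F)
    (g : Fin (n + 1) → MvPolynomial (Fin (m + 1)) ℂ) (hg : Good F D g)
    (hprim : ∀ p, Prime p → ∃ i, ¬ p ∣ g i) : False := by
  have hF0 := hirr.ne_zero
  obtain ⟨k0, hk0⟩ : ∃ k0, degreeOf k0 F ≠ 0 := by
    by_contra hcon
    push Not at hcon
    have h1 : F.totalDegree = 0 := by
      rw [totalDegree_eq_zero_iff]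
      intro s hs x
      have h2 := degreeOf_le_iff.mp (hcon x).le s hs
      omega
    rw [hF.isHomogeneous.totalDegree hF0] at h1
    omega
  obtain ⟨ρ, hρ⟩ := jacobian_minor _ (good_indep hD F g hg k0 hk0)
  set A : Matrix (Fin n) (Fin (n + 1)) (MvPolynomial (Fin (m + 1)) ℂ) :=
    Matrix.of fun i j => pderiv (ρ i) (g j) with hA
  set v : Fin (n + 1) → MvPolynomial (Fin (m + 1)) ℂ := fun j => aeval g (pderiv j F) with hv
  have hAv : ∀ i, ∑ j, A i j * v j = 0 := by
    intro i
    have h1 := pderiv_aeval g F (ρ i)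
    rw [hg.zero, map_zero] at h1
    exact h1.symm
  set Δ : Fin (n + 1) → MvPolynomial (Fin (m + 1)) ℂ :=
    fun j => (-1) ^ (j : ℕ) * (A.submatrix id j.succAbove).det with hΔ
  have hcr : ∀ a b, v a * Δ b = v b * Δ a := fun a b => cramer_prop A v hAv a b
  have hΔ0 : Δ k0 ≠ 0 := by
    simp only [hΔ]
    refine mul_ne_zero (pow_ne_zero _ (by simp)) ?_
    exact hρ
  -- powers of the g_i in the ideal of the v_j
  have hpow : ∀ i, ∃ N : ℕ, v k0 ∣ Δ k0 * g i ^ N := by
    intro i
    obtain ⟨N, hN⟩ := exists_pow_mem (by omega) F hF i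
    refine ⟨N, ?_⟩
    obtain ⟨c, hc⟩ := (Ideal.mem_span_range_iff_exists_fun).mp hN
    have h1 := congrArg (aeval g) hc
    rw [map_sum, map_pow, aeval_X] at h1
    rw [← h1, mul_sum]
    refine dvd_sum fun j _ => ?_
    rw [map_mul]
    have h2 : Δ k0 * (aeval g (c j) * aeval g (pderiv j F)) = aeval g (c j) * (v j * Δ k0) := by
      simp only [hv]; ring
    rw [h2, hcr j k0]
    exact (dvd_mul_right _ _).mul_left _
  have hpow' := hpow
  choose N hN using hpow
  have hv0 : v k0 ≠ 0 := by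
    intro h
    obtain ⟨i, hi⟩ := hg.ne
    have h1 := hN i
    rw [h, zero_dvd_iff] at h1
    rcases mul_eq_zero.mp h1 with h2 | h2
    · exact hΔ0 h2
    · exact pow_ne_zero _ hi h2
  have hdvd : v k0 ∣ Δ k0 := dvd_of_dvd_mul_pow g N hprim (v k0) hv0 (Δ k0) hN
  have hvh : (v k0).IsHomogeneous (D * (d - 1)) :=
    hF.isHomogeneous.pderiv.aeval g hg.hom
  have hΔh : (Δ k0).IsHomogeneous (n * (D - 1)) := by
    have h1 : (A.submatrix id k0.succAbove).det.IsHomogeneous (n * (D - 1)) :=
      det_homog _ fun i j => (hg.hom _).pderiv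
    rcases neg_one_pow_eq_or (MvPolynomial (Fin (m + 1)) ℂ) (k0 : ℕ) with h | h
    · simp only [hΔ]; rw [h, one_mul]; exact h1
    · simp only [hΔ]; rw [h, neg_one_mul]; exact h1.neg
  have hle := totalDegree_le_of_dvd_of_isDomain hdvd hΔ0
  rw [hvh.totalDegree hv0, hΔh.totalDegree hΔ0] at hle
  have h1 : D * n ≤ D * (d - 1) := Nat.mul_le_mul_left D (by omega)
  have h2 : n * (D - 1) + n = D * n := by
    obtain ⟨D', rfl⟩ : ∃ D', D = D' + 1 := ⟨D - 1, by omega⟩
    rw [Nat.add_sub_cancel]; ring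
  omega

/-- A smooth unirational hypersurface of degree `d` in `ℙⁿ` has `d ≤ n`. -/
theorem lower {n d : ℕ} (F : MvPolynomial (Fin (n + 1)) ℂ) (hF : IsSmoothHypersurface n d F)
    (hU : IsUnirational F) : d ≤ n := by
  by_contra hcon
  push Not at hcon
  obtain ⟨hirr, m, e, g, hg1, hg2⟩ := hU
  have hgood := good_of_unirational F hirr g hg1 hg2
  rcases Nat.eq_zero_or_pos n with hn | hn
  · -- no variables to spare
    subst hn
    have hgz := hgood.zero
    obtain ⟨i0, hi0⟩ := hgood.ne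
    have hi00 : i0 = 0 := Fin.fin_one_eq_zero i0
    subst hi00
    have hfac : F = C (coeff (Finsupp.single 0 d) F) * X 0 ^ d := by
      ext s
      rw [coeff_C_mul, coeff_X_pow]
      split_ifs with h
      · rw [← h, mul_one]
      · rw [mul_zero]
        by_contra h2
        have h3 := hF.isHomogeneous h2
        apply h
        ext i
        have hi : i = 0 := Fin.fin_one_eq_zero i
        subst hi
        rw [Finsupp.single_eq_same, ← h3]
        simp [Finsupp.weight_apply, Finsupp.sum_fintype]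
    have hc0 : coeff (Finsupp.single 0 d) F ≠ 0 := by
      intro h
      rw [h, C_0, zero_mul] at hfac
      exact hirr.ne_zero hfac
    rw [hfac, map_mul, map_pow, aeval_X, aeval_C, algebraMap_eq] at hgz
    rcases mul_eq_zero.mp hgz with h | h
    · exact hc0 (C_eq_zero.mp h)
    · exact pow_ne_zero _ hi0 h
  · classical
    have hex : ∃ D, ∃ g, Good (m := m) F D g := ⟨e, g, hgood⟩
    obtain ⟨g', hg'⟩ := Nat.find_spec hex
    set D := Nat.find hex with hD
    have hprim : ∀ p, Prime p → ∃ i, ¬ p ∣ g' i := by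
      intro p hp
      by_contra h
      push Not at h
      obtain ⟨D', hlt, hex'⟩ := good_div F hF.isHomogeneous g' hg' p hp h
      exact Nat.find_min hex hlt hex'
    rcases Nat.eq_zero_or_pos D with h0 | h0
    · rw [h0] at hg'
      exact good_zero_false hn (by omega) F hF.isHomogeneous hirr.ne_zero g' hg'
    · exact good_prim_false hn (by omega) h0 F hF hirr g' hg' hprim

end Pool.Agent.H929R2
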