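import Mathlib
import Pool.Agent.H929R2.UniDefs
import Pool.Agent.H929R2.Homog
import Pool.Agent.H929R2.Kernel
import Pool.Agent.H929R2.Form
import Pool.Agent.H929R2.Indep2

set_option autoImplicit false
set_option maxHeartbeats 400000

namespace Pool.Agent.H929R2

open MvPolynomial Finset Uni

lemma aeval_chainForm {k L : Type*} [Field k] [CommRing L] [Algebra k L] (e : ℕ) (z : ℕ → L) :
    aeval (fun i : Fin (e + 2) => z i) (chainForm k e (e + 1)) = chainVal e z := by
  rw [chainForm, chainVal, map_add, map_sum, ← Fin.sum_univ_eq_sum_range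
    (fun j => z j ^ e * z (j + 1)) (e + 1)]
  simp

/-- The chain hypersurface of degree `e + 1` in `ℙ^(e+1)` is unirational, `e ≥ 2`. -/
theorem chain_unirational (e : ℕ) (he : 2 ≤ e) : IsUnirational (chainForm ℂ e (e + 1)) := by
  have hirr : Irreducible (chainForm ℂ e (e + 1)) := by
    obtain ⟨f, rfl⟩ : ∃ f, e = f + 1 := ⟨e - 1, by omega⟩
    exact chainForm_irreducible ℂ (f + 1) (by omega) f
  refine ⟨hirr, ?_⟩
  set z : Fin (e + 2) → LL ℂ e := fun i => yL ℂ e i with hz
  have hzF : aeval z (chainForm ℂ e (e + 1)) = 0 := by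
    rw [hz, aeval_chainForm e (yL ℂ e)]
    exact chain_yL ℂ e he
  have hz0 : ∃ i, z i ≠ 0 := by
    refine ⟨Fin.last (e + 1), ?_⟩
    simp only [hz, Fin.val_last]
    rw [yL, if_neg (by omega)]
    exact xL_ne_zero ℂ e he (e + 1) le_rfl
  obtain ⟨g, hg0, hg⟩ := exists_clear z hz0
  obtain ⟨e', h, hh, hh0, hrel⟩ := exists_homog g hg0
  refine ⟨e + 3, e', h, ⟨hh, hh0⟩, ?_, ?_⟩
  · rw [hrel _ _ (chainForm_isHomogeneous ℂ e (e + 1)), hg _ _ (chainForm_isHomogeneous ℂ e (e + 1))]
    exact hzF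
  · intro r G hG hGt x hx
    rw [hrel r G hG, hg r G hG] at hGt
    have hdvd : chainForm ℂ e (e + 1) ∣ G := by
      refine dvd_of_aeval_eq_zero' _ hirr z hzF ?_ G hGt
      have := yL_algebraicIndependent ℂ e he
      exact this
    obtain ⟨H, rfl⟩ := hdvd
    rw [map_mul, hx, zero_mul]

lemma chain_smoothHypersurface (e n : ℕ) (he : 2 ≤ e) :
    IsSmoothHypersurface n (e + 1) (chainForm ℂ e n) := by
  refine ⟨chainForm_isHomogeneous ℂ e n, fun x hx _ => ?_⟩
  by_contra h
  push Not at h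
  exact hx (chainForm_smooth e n he x h)

/-- Degree one: a point on the projective line. -/
lemma unirational_one : ∃ F : MvPolynomial (Fin (1 + 1)) ℂ,
    IsSmoothHypersurface 1 1 F ∧ IsUnirational F := by
  refine ⟨X 0, ⟨isHomogeneous_X _ _, fun x _ _ => ⟨0, by simp⟩⟩, X_prime.irreducible, 0, 1,
    ![0, X 0], ⟨?_, ⟨1, by simp [X_ne_zero]⟩⟩, ?_, ?_⟩
  · intro i
    fin_cases i
    · exact isHomogeneous_zero _ _ _
    · exact isHomogeneous_X _ _
  · intro t
    simp
  · intro r G hG h x hx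
    rw [eval_X] at hx
    have h1 := h (fun _ => x 1)
    have h2 : (fun i => eval (fun _ : Fin 1 => x 1) ((![0, X 0] : Fin 2 → MvPolynomial (Fin 1) ℂ) i))
        = x := by
      funext i
      fin_cases i
      · simpa using hx.symm
      · simp
    rw [h2] at h1
    exact h1

/-- Degree two: a conic. -/
lemma unirational_two : ∃ F : MvPolynomial (Fin (2 + 1)) ℂ,
    IsSmoothHypersurface 2 2 F ∧ IsUnirational F := by
  have hev : ∀ x : Fin 3 → ℂ, eval x (chainForm ℂ 1 2) = x 0 * x 1 + x 1 * x 2 + x 2 ^ 2 := by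
    intro x
    rw [eval_chainForm, Fin.sum_univ_two]
    have h1 : (Fin.succ (0 : Fin 2)) = 1 := rfl
    have h2 : (Fin.succ (1 : Fin 2)) = 2 := rfl
    have h3 : (Fin.castSucc (0 : Fin 2)) = 0 := rfl
    have h4 : (Fin.castSucc (1 : Fin 2)) = 1 := rfl
    have h5 : Fin.last 2 = 2 := rfl
    rw [h1, h2, h3, h4, h5]
    ring
  refine ⟨chainForm ℂ 1 2, ⟨chainForm_isHomogeneous ℂ 1 2, ?_⟩,
    chainForm_irreducible ℂ 1 le_rfl 0, 1, 2,
    ![-(X 1 ^ 2 + X 0 * X 1), X 0 ^ 2, X 0 * X 1], ⟨?_, ⟨1, ?_⟩⟩, ?_, ?_⟩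
  · intro x hx _
    by_contra h
    push Not at h
    apply hx
    have h0 := h 0
    have h1 := h 1
    have h2 := h 2
    have e0 : (0 : Fin 3) = ⟨0, by omega⟩ := rfl
    have e1 : (1 : Fin 3) = ⟨1, by omega⟩ := rfl
    have e2 : (2 : Fin 3) = ⟨2, by omega⟩ := rfl
    rw [e0, eval_pderiv_chainForm] at h0
    rw [e1, eval_pderiv_chainForm] at h1
    rw [e2, eval_pderiv_chainForm] at h2
    simp [ext0] at h0 h1 h2
    have hx1 : x 1 = 0 := h0
    have hx2 : x 2 = 0 := by
      have h3 : x ⟨1, by omega⟩ + (1 + 1) * x ⟨2, by omega⟩ = 0 := h2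
      have h4 : x ⟨1, by omega⟩ = x 1 := rfl
      have h5 : x ⟨2, by omega⟩ = x 2 := rfl
      rw [h4, h5, hx1, zero_add] at h3
      exact (mul_eq_zero.mp h3).resolve_left (by norm_num)
    have hx0 : x 0 = 0 := by
      have h3 : x ⟨2, by omega⟩ + x ⟨0, by omega⟩ = 0 := h1
      have h4 : x ⟨2, by omega⟩ = x 2 := rfl
      have h5 : x ⟨0, by omega⟩ = x 0 := rfl
      rw [h4, h5, hx2, zero_add] at h3
      exact h3
    funext i
    fin_cases i
    · exact hx0
    · exact hx1
    · exact hx2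
  · have hX0 : (X 0 : MvPolynomial (Fin 2) ℂ).IsHomogeneous 1 := isHomogeneous_X _ _
    have hX1 : (X 1 : MvPolynomial (Fin 2) ℂ).IsHomogeneous 1 := isHomogeneous_X _ _
    intro i
    fin_cases i
    · exact ((hX1.pow 2).add (hX0.mul hX1)).neg
    · exact hX0.pow 2
    · exact hX0.mul hX1
  · simp [X_ne_zero]
  · intro t
    rw [hev]
    simp
    ring
  · intro r G hG h x hx
    rw [hev] at hx
    obtain ⟨t, ht⟩ : ∃ t : Fin 2 → ℂ, -(t 1 ^ 2 + t 0 * t 1) = x 0 ∧ t 0 ^ 2 = x 1 ∧
        t 0 * t 1 = x 2 := by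
      obtain ⟨s, hs⟩ := IsAlgClosed.exists_pow_nat_eq (x 1) (n := 2) (by norm_num)
      rcases eq_or_ne s 0 with h0 | h0
      · have hx1 : x 1 = 0 := by rw [← hs, h0]; ring
        have hx2 : x 2 = 0 := by
          have : x 2 ^ 2 = 0 := by rw [hx1] at hx; linear_combination hx
          exact pow_eq_zero_iff (by norm_num) |>.mp this
        obtain ⟨u, hu⟩ := IsAlgClosed.exists_pow_nat_eq (-x 0) (n := 2) (by norm_num)
        refine ⟨![0, u], ?_, ?_, ?_⟩
        · simp only [Matrix.cons_val_zero, Matrix.cons_val_one]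
          linear_combination -hu
        · simp [hx1]
        · simp [hx2]
      · refine ⟨![s, x 2 / s], ?_, ?_, ?_⟩
        · simp only [Matrix.cons_val_zero, Matrix.cons_val_one]
          field_simp
          linear_combination (-x 0 - x 2) * hs - hx
        · simp [hs]
        · simp only [Matrix.cons_val_zero, Matrix.cons_val_one]
          field_simp
    have h1 := h t
    have h2 : (fun i => eval t ((![-(X 1 ^ 2 + X 0 * X 1), X 0 ^ 2, X 0 * X 1] :
        Fin 3 → MvPolynomial (Fin 2) ℂ) i)) = x := by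
      funext i
      fin_cases i
      · simpa using ht.1
      · simpa using ht.2.1
      · simpa using ht.2.2
    rw [h2] at h1
    exact h1

/-- For every `d ≥ 1` there is a smooth unirational hypersurface of degree `d` in `ℙᵈ`. -/
theorem upper (d : ℕ) (hd : 1 ≤ d) : ∃ F : MvPolynomial (Fin (d + 1)) ℂ,
    IsSmoothHypersurface d d F ∧ IsUnirational F := by
  rcases Nat.lt_or_ge d 3 with h | h
  · rcases (show d = 1 ∨ d = 2 by omega) with rfl | rfl
    · exact unirational_one
    · exact unirational_two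
  · obtain ⟨e, rfl⟩ : ∃ e, d = e + 1 := ⟨d - 1, by omega⟩
    exact ⟨chainForm ℂ e (e + 1), chain_smoothHypersurface e (e + 1) (by omega),
      chain_unirational e (by omega)⟩

end Pool.Agent.H929R2
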